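import Pool.Agent.H70.KG.Defs

/-!
# [H70 KG SC] scalar inequalities

* exp_quad: e^z <= 1 + z + z^2 for z <= 1. For |z| <= 1 use Real.abs_exp_sub_one_sub_id_le
  (|e^z - 1 - z| <= z^2); for z < -1 : e^z <= 1 <= 1 + z + z^2 since z (z+1) >= 0.
* gf: write x = e * X with X = S A / D. For 0 <= x <= 1/2: 1 <= 1/(1-x) <= 1 + 2x; and
  1/(1-x) >= e^x since e^(-x) >= 1 - x (Real.add_one_le_exp); and 1/(1-x) <= e^(x + x^2) for
  0 <= x <= 1/2: equivalently (1-x) e^(x+x^2) >= 1; as e^(x+x^2) >= 1 + x + x^2 one has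
  (1-x)(1+x+x^2) = 1 - x^3 which is slightly too small: use instead -log(1-x) <= x + x^2, i.e.
  log (1/(1-x)) = log (1 + x/(1-x)) ... or e^w >= 1 + w + w^2/2 with w = x + x^2:
  (1-x)(1 + x + x^2 + (x+x^2)^2/2) = 1 - x^3 + (1-x) x^2 (1+x)^2 / 2 >= 1 iff
  (1-x)(1+x)^2 >= 2x, true for 0 <= x <= 1/2 (at x = 1/2: 9/8 >= 1; (1-x)(1+x)^2 >= 1 on [0,1/2]).
  Real.quadratic_le_exp_of_nonneg : 1 + x + x^2/2 <= exp x for x >= 0.
-/

namespace Pool.Agent.H70.KG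

theorem exp_quad {z : ℝ} (hz : z ≤ 1) : Real.exp z ≤ 1 + z + z ^ 2 := by
  rcases le_or_gt (-1) z with h | h
  · have h1 := Real.abs_exp_sub_one_sub_id_le (x := z) (abs_le.2 ⟨h, hz⟩)
    have h2 := le_abs_self (Real.exp z - 1 - z)
    linarith
  · have h1 : Real.exp z ≤ 1 := Real.exp_le_one_iff.2 (by linarith)
    nlinarith

theorem inv_one_sub_le {x : ℝ} (h0 : 0 ≤ x) (h1 : x ≤ 1 / 2) : 1 / (1 - x) ≤ 1 + 2 * x := by
  rw [div_le_iff₀ (by linarith)]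
  nlinarith

theorem one_le_inv_one_sub {x : ℝ} (h0 : 0 ≤ x) (h1 : x ≤ 1 / 2) : 1 ≤ 1 / (1 - x) := by
  rw [le_div_iff₀ (by linarith)]
  linarith

theorem exp_le_inv_one_sub {x : ℝ} (h1 : x ≤ 1 / 2) : Real.exp x ≤ 1 / (1 - x) := by
  rw [le_div_iff₀ (by linarith)]
  have h2 := Real.add_one_le_exp (-x)
  have h3 : Real.exp x * Real.exp (-x) = 1 := by rw [← Real.exp_add]; simp
  have h4 : Real.exp x * (1 - x) ≤ Real.exp x * Real.exp (-x) :=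
    mul_le_mul_of_nonneg_left (by linarith) (Real.exp_pos x).le
  linarith

theorem inv_one_sub_le_exp {x : ℝ} (h0 : 0 ≤ x) (h1 : x ≤ 1 / 2) :
    1 / (1 - x) ≤ Real.exp (x + x ^ 2) := by
  have h2 := Real.quadratic_le_exp_of_nonneg (x := x + x ^ 2) (by positivity)
  refine le_trans ?_ h2
  rw [div_le_iff₀ (by linarith)]
  nlinarith [mul_nonneg h0 (sub_nonneg.2 h1), mul_nonneg (mul_nonneg h0 h0) (sub_nonneg.2 h1),
    mul_nonneg (mul_nonneg (mul_nonneg h0 h0) h0) (sub_nonneg.2 h1),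
    mul_nonneg (mul_nonneg (mul_nonneg (mul_nonneg h0 h0) h0) h0) (sub_nonneg.2 h1),
    pow_nonneg h0 2, pow_nonneg h0 3, pow_nonneg h0 4, pow_nonneg h0 5]

end Pool.Agent.H70.KG
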