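import Pool.Agent.H70.KG.MZ
import Pool.Agent.H70.KG.SC

/-!
# [H70 KG GR] size of one step

Put x_A = e * S y A / D, 0 <= x_A <= 2 e <= 1/2 for A in KS. gf A - 1 lies in [0, 2 x_A], 2 x_A <= 4 e
(module SC). Hence for every U:
S up0 U - S y U = sum over A disjoint from U of y A (gf A - 1) lies in [0, 4 e S y U], and for B in KS
S (up B) U - S y U = G_B - S y (U u B), where G_B = sum over A disjoint from U, not disjoint from B
of y A (gf A - 1), 0 <= G_B <= 4 e S y U.
Also pr B >= 0, sum over all B in KS of pr B * S y (U u B) = (e / D) * sum of y A * S y A over A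
disjoint from U (S_swap) <= 2 e S y U.
-/

namespace Pool.Agent.H70.KG

open Finset

variable {n k : ℕ} {e : ℝ} {y : Finset (Fin n) → ℝ}

private theorem gr_gf (hD : 0 < DD n k) (hy : ∀ A ∈ KS n k, 0 ≤ y A) (he : 0 ≤ e)
    (he4 : e ≤ 1 / 4) (hA : ∀ A ∈ KS n k, S n k y A ≤ 2 * DD n k) (A : Finset (Fin n))
    (hAK : A ∈ KS n k) : 0 ≤ gf n k e y A - 1 ∧ gf n k e y A - 1 ≤ 4 * e := by
  have hS0 := S_nonneg hy A
  have hS := hA A hAK
  have hx0 : 0 ≤ e * S n k y A / DD n k := div_nonneg (mul_nonneg he hS0) hD.le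
  have hx1 : e * S n k y A / DD n k ≤ 2 * e := by
    rw [div_le_iff₀ hD]
    nlinarith [mul_le_mul_of_nonneg_left hS he]
  have hx2 : e * S n k y A / DD n k ≤ 1 / 2 := by linarith
  have h1 := one_le_inv_one_sub hx0 hx2
  have h2 := inv_one_sub_le hx0 hx2
  unfold gf
  constructor <;> linarith

private theorem gr_term (hD : 0 < DD n k) (hy : ∀ A ∈ KS n k, 0 ≤ y A) (he : 0 ≤ e)
    (he4 : e ≤ 1 / 4) (hA : ∀ A ∈ KS n k, S n k y A ≤ 2 * DD n k) (A : Finset (Fin n))
    (hAK : A ∈ KS n k) : 0 ≤ y A * (gf n k e y A - 1) ∧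
      y A * (gf n k e y A - 1) ≤ 4 * e * y A := by
  obtain ⟨h1, h2⟩ := gr_gf hD hy he he4 hA A hAK
  have hy0 := hy A hAK
  refine ⟨mul_nonneg hy0 h1, ?_⟩
  nlinarith [mul_le_mul_of_nonneg_left h2 hy0]

private theorem gr_diff (U : Finset (Fin n)) :
    S n k (up0 n k e y) U - S n k y U =
      ∑ A ∈ (KS n k).filter (fun A => Disjoint A U), y A * (gf n k e y A - 1) := by
  unfold S up0
  rw [← Finset.sum_sub_distrib]
  refine Finset.sum_congr rfl fun A _ => ?_
  ring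

theorem up0_bounds (hD : 0 < DD n k) (hy : ∀ A ∈ KS n k, 0 ≤ y A) (he : 0 ≤ e) (he4 : e ≤ 1 / 4)
    (hA : ∀ A ∈ KS n k, S n k y A ≤ 2 * DD n k) (U : Finset (Fin n)) :
    0 ≤ S n k (up0 n k e y) U - S n k y U ∧
      S n k (up0 n k e y) U - S n k y U ≤ 4 * e * S n k y U := by
  rw [gr_diff]
  constructor
  · refine Finset.sum_nonneg fun A hAm => ?_
    exact (gr_term hD hy he he4 hA A (Finset.mem_filter.1 hAm).1).1
  · rw [S, Finset.mul_sum]
    refine Finset.sum_le_sum fun A hAm => ?_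
    exact (gr_term hD hy he he4 hA A (Finset.mem_filter.1 hAm).1).2

theorem up_bounds (hD : 0 < DD n k) (hy : ∀ A ∈ KS n k, 0 ≤ y A) (he : 0 ≤ e) (he4 : e ≤ 1 / 4)
    (hA : ∀ A ∈ KS n k, S n k y A ≤ 2 * DD n k) (U B : Finset (Fin n)) :
    ∃ G : ℝ, 0 ≤ G ∧ G ≤ 4 * e * S n k y U ∧
      S n k (up n k e y B) U - S n k y U = G - S n k y (U ∪ B) := by
  have hsub : (KS n k).filter (fun A => Disjoint A (U ∪ B)) ⊆
      (KS n k).filter (fun A => Disjoint A U) := by
    intro A hAm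
    rw [Finset.mem_filter] at hAm ⊢
    exact ⟨hAm.1, Finset.disjoint_of_subset_right Finset.subset_union_left hAm.2⟩
  have hle := Finset.sum_le_sum_of_subset_of_nonneg (f := fun A => y A * (gf n k e y A - 1)) hsub
    (fun A hAm _ => (gr_term hD hy he he4 hA A (Finset.mem_filter.1 hAm).1).1)
  have hnn : 0 ≤ ∑ A ∈ (KS n k).filter (fun A => Disjoint A (U ∪ B)),
      y A * (gf n k e y A - 1) := Finset.sum_nonneg fun A hAm =>
    (gr_term hD hy he he4 hA A (Finset.mem_filter.1 hAm).1).1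
  have hup := up0_bounds hD hy he he4 hA U
  rw [gr_diff] at hup
  refine ⟨(∑ A ∈ (KS n k).filter (fun A => Disjoint A U), y A * (gf n k e y A - 1)) -
    ∑ A ∈ (KS n k).filter (fun A => Disjoint A (U ∪ B)), y A * (gf n k e y A - 1), ?_, ?_, ?_⟩
  · simpa using hle
  · linarith [hup.2]
  · rw [S_up, ← gr_diff]
    have h3 : (∑ A ∈ (KS n k).filter (fun A => Disjoint A (U ∪ B)),
        y A * (gf n k e y A - 1)) = (∑ A ∈ (KS n k).filter (fun A => Disjoint A (U ∪ B)),
        y A * gf n k e y A) - S n k y (U ∪ B) := by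
      rw [S, ← Finset.sum_sub_distrib]
      refine Finset.sum_congr rfl fun A _ => ?_
      ring
    rw [h3]
    ring

theorem pr_S_le (hD : 0 < DD n k) (hy : ∀ A ∈ KS n k, 0 ≤ y A) (he : 0 ≤ e)
    (hA : ∀ A ∈ KS n k, S n k y A ≤ 2 * DD n k) (U : Finset (Fin n)) :
    ∑ B ∈ KS n k, pr n k e y B * S n k y (U ∪ B) ≤ 2 * e * S n k y U := by
  have h1 : ∑ B ∈ KS n k, pr n k e y B * S n k y (U ∪ B) =
      e / DD n k * ∑ B ∈ KS n k, y B * S n k y (U ∪ B) := by
    rw [Finset.mul_sum]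
    refine Finset.sum_congr rfl fun B _ => ?_
    unfold pr
    ring
  rw [h1, S_swap]
  have h2 : ∑ A ∈ (KS n k).filter (fun A => Disjoint A U), y A * S n k y A ≤
      2 * DD n k * S n k y U := by
    rw [S, Finset.mul_sum]
    refine Finset.sum_le_sum fun A hAm => ?_
    have hAK := (Finset.mem_filter.1 hAm).1
    nlinarith [mul_le_mul_of_nonneg_left (hA A hAK) (hy A hAK)]
  calc e / DD n k * ∑ A ∈ (KS n k).filter (fun A => Disjoint A U), y A * S n k y A
      ≤ e / DD n k * (2 * DD n k * S n k y U) :=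
        mul_le_mul_of_nonneg_left h2 (div_nonneg he hD.le)
    _ = 2 * e * S n k y U := by
        field_simp

end Pool.Agent.H70.KG
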