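import Pool.Agent.H70.KG.Defs

/-!
# [H70 KG SB] elementary facts on the sums S

All are finite double counting.
* S_nonneg, S_mono, S_empty, S_le_card: immediate.
* S_one: the k-sets disjoint from U are the k-subsets of the complement, which has n - |U| elements.
* S_swap: sum over B of y B times the sum over A disjoint from U and from B of y A; exchange the sums,
  for fixed A disjoint from U the inner sum is the sum of y B over B disjoint from A, that is S A.
* sum_S: a k-set A is disjoint from exactly C(n-k,k) sets T of KS.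
-/

namespace Pool.Agent.H70.KG

open Finset

variable {n k : ℕ}

theorem sb_filter (U : Finset (Fin n)) :
    (KS n k).filter (fun A => Disjoint A U) = (Uᶜ).powersetCard k := by
  ext A
  unfold KS
  rw [mem_filter, mem_powersetCard, mem_powersetCard]
  constructor
  · rintro ⟨⟨-, h1⟩, h2⟩
    refine ⟨fun x hx => ?_, h1⟩
    rw [mem_compl]
    exact fun hxU => (disjoint_left.1 h2) hx hxU
  · rintro ⟨h1, h2⟩
    refine ⟨⟨subset_univ _, h2⟩, ?_⟩
    rw [disjoint_left]
    intro x hx hxU
    exact (mem_compl.1 (h1 hx)) hxU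

theorem sb_card (U : Finset (Fin n)) :
    ((KS n k).filter (fun A => Disjoint A U)).card = (n - U.card).choose k := by
  rw [sb_filter, card_powersetCard, card_compl, Fintype.card_fin]

theorem S_nonneg {y : Finset (Fin n) → ℝ} (hy : ∀ A ∈ KS n k, 0 ≤ y A) (U : Finset (Fin n)) :
    0 ≤ S n k y U := by
  unfold S
  exact sum_nonneg fun A hA => hy A (mem_filter.1 hA).1

theorem S_mono {y : Finset (Fin n) → ℝ} (hy : ∀ A ∈ KS n k, 0 ≤ y A) {U V : Finset (Fin n)}
    (h : U ⊆ V) : S n k y V ≤ S n k y U := by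
  unfold S
  refine sum_le_sum_of_subset_of_nonneg (fun A hA => ?_) fun A hA _ => hy A (mem_filter.1 hA).1
  rw [mem_filter] at hA ⊢
  exact ⟨hA.1, disjoint_of_subset_right h hA.2⟩

theorem S_empty (y : Finset (Fin n) → ℝ) : S n k y ∅ = ∑ A ∈ KS n k, y A := by
  unfold S
  rw [filter_true_of_mem fun A _ => disjoint_empty_right A]

theorem S_one (U : Finset (Fin n)) :
    S n k (fun _ => 1) U = ((n - U.card).choose k : ℝ) := by
  unfold S
  rw [sum_const, sb_card, nsmul_eq_mul, mul_one]

theorem S_le_card {y : Finset (Fin n) → ℝ} {M : ℝ} (hM : ∀ A ∈ KS n k, y A ≤ M)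
    (U : Finset (Fin n)) : S n k y U ≤ ((n - U.card).choose k : ℝ) * M := by
  unfold S
  have h := sum_le_card_nsmul ((KS n k).filter (fun A => Disjoint A U)) y M
    fun A hA => hM A (mem_filter.1 hA).1
  rw [sb_card, nsmul_eq_mul] at h
  exact h

theorem S_swap (y : Finset (Fin n) → ℝ) (U : Finset (Fin n)) :
    ∑ B ∈ KS n k, y B * S n k y (U ∪ B) =
      ∑ A ∈ (KS n k).filter (fun A => Disjoint A U), y A * S n k y A := by
  unfold S
  have h1 : ∀ B ∈ KS n k, y B * ∑ A ∈ (KS n k).filter (fun A => Disjoint A (U ∪ B)), y A =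
      ∑ A ∈ KS n k, if Disjoint A U then (if Disjoint B A then y A * y B else 0) else 0 := by
    intro B _
    rw [mul_sum, sum_filter]
    refine sum_congr rfl fun A _ => ?_
    by_cases h2 : Disjoint A U
    · by_cases h3 : Disjoint B A
      · rw [if_pos (disjoint_union_right.2 ⟨h2, h3.symm⟩), if_pos h2, if_pos h3, mul_comm]
      · rw [if_neg fun h => h3 (disjoint_union_right.1 h).2.symm, if_pos h2, if_neg h3]
    · rw [if_neg fun h => h2 (disjoint_union_right.1 h).1, if_neg h2]
  rw [sum_congr rfl h1, sum_comm, sum_filter]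
  refine sum_congr rfl fun A _ => ?_
  by_cases h2 : Disjoint A U
  · simp only [if_pos h2]
    rw [mul_sum, sum_filter]
  · simp only [if_neg h2]
    exact sum_const_zero

theorem sum_S (y : Finset (Fin n) → ℝ) :
    ∑ T ∈ KS n k, S n k y T = DD n k * ∑ A ∈ KS n k, y A := by
  unfold S
  have h1 : ∀ T ∈ KS n k, ∑ A ∈ (KS n k).filter (fun A => Disjoint A T), y A =
      ∑ A ∈ KS n k, if Disjoint T A then y A else 0 := by
    intro T _
    rw [sum_filter]
    refine sum_congr rfl fun A _ => ?_
    by_cases h : Disjoint A T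
    · rw [if_pos h, if_pos h.symm]
    · rw [if_neg h, if_neg fun h' => h h'.symm]
  rw [sum_congr rfl h1, sum_comm, mul_sum]
  refine sum_congr rfl fun A hA => ?_
  rw [← sum_filter, sum_const, sb_card, nsmul_eq_mul]
  have h2 : A.card = k := (mem_powersetCard.1 hA).2
  rw [h2]
  rfl

end Pool.Agent.H70.KG
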