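import Pool.Agent.H70.KG.GR

/-!
# [H70 KG LM] exponential moment of the increment, lower tail

Notation of UM with U = T. For far B (j <= (B \ T).card): -mu D_B = -mu G_B + mu J_B <= mu L1 <= 1, and
-mu D_* <= 0 <= 1. exp_quad gives exp (-mu D) <= 1 - mu D + mu^2 D^2. Sum over far B and *:
(sum of the weights <= 1) - mu * (sum over far and * of weight * D) + mu^2 * (...).
By mean_zero the middle term is + mu * (sum over near B of pr B * D_B) <= mu * (sum over near B of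
pr B * G_B) <= mu * (e nu) * (4 e L0), using sum over near B of pr B = (e/D) * sum of y B <= e nu.
And sum over far, * of weight * D^2 <= 16 e^2 L0^2 + L1 * (sum of pr B * J_B) <= 16 e^2 L0^2 +
L1 * 2 e L0. Finally 1 + w <= exp w.
-/

namespace Pool.Agent.H70.KG

open Finset

private theorem lmo_pr {n k : ℕ} {e : ℝ} {y : Finset (Fin n) → ℝ} (hD : 0 < DD n k)
    (hy : ∀ A ∈ KS n k, 0 ≤ y A) (he : 0 ≤ e) : ∀ B ∈ KS n k, 0 ≤ pr n k e y B := by
  intro B hB
  unfold pr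
  have := hy B hB
  positivity

private theorem lmo_ne {n k : ℕ} {e : ℝ} {y : Finset (Fin n) → ℝ} (hD : 0 < DD n k)
    (hy : ∀ A ∈ KS n k, 0 ≤ y A) (he4 : e ≤ 1 / 4)
    (hA : ∀ A ∈ KS n k, S n k y A ≤ 2 * DD n k) :
    ∀ A ∈ KS n k, e * S n k y A / DD n k ≠ 1 := by
  intro A hA' h
  rw [div_eq_one_iff_eq hD.ne'] at h
  have h1 := hA A hA'
  have h2 := S_nonneg hy A
  nlinarith

private theorem lmo_near {n k : ℕ} {e : ℝ} {y : Finset (Fin n) → ℝ} (hD : 0 < DD n k)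
    (he : 0 ≤ e) {nu : ℝ} (s : Finset (Finset (Fin n)))
    (hnear : ∑ B ∈ s, y B ≤ nu * DD n k) : ∑ B ∈ s, pr n k e y B ≤ e * nu := by
  unfold pr
  rw [← sum_div, ← mul_sum, div_le_iff₀ hD]
  calc e * ∑ B ∈ s, y B ≤ e * (nu * DD n k) := mul_le_mul_of_nonneg_left hnear he
    _ = e * nu * DD n k := by ring

theorem lower_moment {n k j : ℕ} {e : ℝ} {y : Finset (Fin n) → ℝ} (hD : 0 < DD n k)
    (hy : ∀ A ∈ KS n k, 0 ≤ y A) (he : 0 ≤ e) (he4 : e ≤ 1 / 4)
    (hA : ∀ A ∈ KS n k, S n k y A ≤ 2 * DD n k) (hp : 0 ≤ pr0 n k e y)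
    (T : Finset (Fin n)) {L0 L1 nu mu : ℝ} (hL0 : S n k y T ≤ L0) (hL1 : 0 ≤ L1)
    (hfar : ∀ B ∈ KS n k, j ≤ (B \ T).card → S n k y (T ∪ B) ≤ L1)
    (hnear : ∑ B ∈ (KS n k).filter (fun B => (B \ T).card < j), y B ≤ nu * DD n k)
    (hmu : 0 ≤ mu) (h1 : mu * L1 ≤ 1) :
    ∑ B ∈ (KS n k).filter (fun B => j ≤ (B \ T).card),
        pr n k e y B * Real.exp (-mu * (S n k (up n k e y B) T - S n k y T)) +
      pr0 n k e y * Real.exp (-mu * (S n k (up0 n k e y) T - S n k y T)) ≤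
    Real.exp (e * (4 * mu * e * nu * L0 + mu ^ 2 * (16 * e * L0 ^ 2 + 2 * L1 * L0))) := by
  classical
  have hS0 := S_nonneg hy T
  have hL00 : 0 ≤ L0 := hS0.trans hL0
  have hpr := lmo_pr hD hy he
  have hmz := mean_zero (lmo_ne hD hy he4 hA) T
  have hmass : ∑ B ∈ KS n k, pr n k e y B + pr0 n k e y = 1 := by
    unfold pr0
    ring
  have hJs := pr_S_le hD hy he hA T
  have hJ0 : ∀ B, 0 ≤ S n k y (T ∪ B) := fun B => S_nonneg hy _
  obtain ⟨F, hF⟩ : ∃ F, F = (KS n k).filter (fun B => j ≤ (B \ T).card) := ⟨_, rfl⟩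
  obtain ⟨N, hN⟩ : ∃ N, N = (KS n k).filter (fun B => (B \ T).card < j) := ⟨_, rfl⟩
  have hNF : (KS n k).filter (fun B => ¬ j ≤ (B \ T).card) = N := by
    rw [hN]
    refine filter_congr fun B _ => ?_
    exact not_le
  have hsplit : ∀ f : Finset (Fin n) → ℝ, ∑ B ∈ KS n k, f B = ∑ B ∈ F, f B + ∑ B ∈ N, f B := by
    intro f
    rw [← sum_filter_add_sum_filter_not (KS n k) (fun B => j ≤ (B \ T).card), hNF, hF]
  rw [← hF]
  rw [← hN] at hnear
  have hFK : ∀ B ∈ F, B ∈ KS n k ∧ j ≤ (B \ T).card := by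
    intro B hB
    rw [hF] at hB
    exact mem_filter.1 hB
  have hNK : ∀ B ∈ N, B ∈ KS n k := by
    intro B hB
    rw [hN] at hB
    exact (mem_filter.1 hB).1
  have hD2 : ∀ B ∈ F, Real.exp (-mu * (S n k (up n k e y B) T - S n k y T)) ≤
      1 - mu * (S n k (up n k e y B) T - S n k y T) +
        mu ^ 2 * (16 * e ^ 2 * L0 ^ 2 + L1 * S n k y (T ∪ B)) := by
    intro B hB
    obtain ⟨hB1, hB2⟩ := hFK B hB
    obtain ⟨G, hG0, hG1, hG⟩ := up_bounds hD hy he he4 hA T B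
    have hGL : G ≤ 4 * e * L0 := hG1.trans (mul_le_mul_of_nonneg_left hL0 (by positivity))
    have hJ1 := hfar B hB1 hB2
    have hz : -mu * (S n k (up n k e y B) T - S n k y T) ≤ 1 := by
      rw [hG]
      have h2 := mul_le_mul_of_nonneg_left hJ1 hmu
      have h3 := mul_nonneg hmu hG0
      linarith
    refine (exp_quad hz).trans ?_
    have h3 : (S n k (up n k e y B) T - S n k y T) ^ 2 ≤
        16 * e ^ 2 * L0 ^ 2 + L1 * S n k y (T ∪ B) := by
      rw [hG]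
      have h4 : G ^ 2 ≤ (4 * e * L0) ^ 2 := pow_le_pow_left₀ hG0 hGL 2
      have h5 := mul_nonneg hG0 (hJ0 B)
      have h6 := mul_le_mul_of_nonneg_right hJ1 (hJ0 B)
      nlinarith
    have h6 := mul_le_mul_of_nonneg_left h3 (sq_nonneg mu)
    have h7 : (-mu * (S n k (up n k e y B) T - S n k y T)) ^ 2 =
        mu ^ 2 * (S n k (up n k e y B) T - S n k y T) ^ 2 := by ring
    rw [h7]
    linarith
  have hD0 : Real.exp (-mu * (S n k (up0 n k e y) T - S n k y T)) ≤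
      1 - mu * (S n k (up0 n k e y) T - S n k y T) + mu ^ 2 * (16 * e ^ 2 * L0 ^ 2) := by
    obtain ⟨h2, h3⟩ := up0_bounds hD hy he he4 hA T
    have h4 : S n k (up0 n k e y) T - S n k y T ≤ 4 * e * L0 :=
      h3.trans (mul_le_mul_of_nonneg_left hL0 (by positivity))
    have hz : -mu * (S n k (up0 n k e y) T - S n k y T) ≤ 1 := by
      have h5 := mul_nonneg hmu h2
      linarith
    refine (exp_quad hz).trans ?_
    have h6 : (S n k (up0 n k e y) T - S n k y T) ^ 2 ≤ 16 * e ^ 2 * L0 ^ 2 := by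
      have h7 := pow_le_pow_left₀ h2 h4 2
      nlinarith
    have h8 := mul_le_mul_of_nonneg_left h6 (sq_nonneg mu)
    have h9 : (-mu * (S n k (up0 n k e y) T - S n k y T)) ^ 2 =
        mu ^ 2 * (S n k (up0 n k e y) T - S n k y T) ^ 2 := by ring
    rw [h9]
    linarith
  have hJF : ∑ B ∈ F, pr n k e y B * S n k y (T ∪ B) ≤ 2 * e * L0 := by
    calc ∑ B ∈ F, pr n k e y B * S n k y (T ∪ B)
        ≤ ∑ B ∈ KS n k, pr n k e y B * S n k y (T ∪ B) := by
          rw [hsplit]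
          have : 0 ≤ ∑ B ∈ N, pr n k e y B * S n k y (T ∪ B) :=
            sum_nonneg fun B hB => mul_nonneg (hpr B (hNK B hB)) (hJ0 B)
          linarith
      _ ≤ 2 * e * S n k y T := hJs
      _ ≤ 2 * e * L0 := by gcongr
  have hprN : ∑ B ∈ N, pr n k e y B ≤ e * nu := lmo_near hD he N hnear
  have hprN0 : 0 ≤ ∑ B ∈ N, pr n k e y B := sum_nonneg fun B hB => hpr B (hNK B hB)
  have hDN : ∑ B ∈ N, pr n k e y B * (S n k (up n k e y B) T - S n k y T) ≤
      (4 * e * L0) * (e * nu) := by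
    calc ∑ B ∈ N, pr n k e y B * (S n k (up n k e y B) T - S n k y T)
        ≤ ∑ B ∈ N, (4 * e * L0) * pr n k e y B := by
          refine sum_le_sum fun B hB => ?_
          obtain ⟨G, hG0, hG1, hG⟩ := up_bounds hD hy he he4 hA T B
          have hGL : G ≤ 4 * e * L0 := hG1.trans (mul_le_mul_of_nonneg_left hL0 (by positivity))
          rw [hG, mul_comm]
          exact mul_le_mul_of_nonneg_right (by linarith [hJ0 B]) (hpr B (hNK B hB))
      _ = (4 * e * L0) * ∑ B ∈ N, pr n k e y B := by rw [mul_sum]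
      _ ≤ (4 * e * L0) * (e * nu) := mul_le_mul_of_nonneg_left hprN (by positivity)
  have hsum : ∑ B ∈ F, pr n k e y B *
      Real.exp (-mu * (S n k (up n k e y B) T - S n k y T)) ≤
      (1 + mu ^ 2 * (16 * e ^ 2 * L0 ^ 2)) * ∑ B ∈ F, pr n k e y B -
      mu * ∑ B ∈ F, pr n k e y B * (S n k (up n k e y B) T - S n k y T) +
      mu ^ 2 * L1 * ∑ B ∈ F, pr n k e y B * S n k y (T ∪ B) := by
    rw [mul_sum, mul_sum, mul_sum, ← sum_sub_distrib, ← sum_add_distrib]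
    refine sum_le_sum fun B hB => ?_
    refine (mul_le_mul_of_nonneg_left (hD2 B hB) (hpr B (hFK B hB).1)).trans (le_of_eq ?_)
    ring
  have hzero := mul_le_mul_of_nonneg_left hD0 hp
  rw [hsplit] at hmass hmz
  have k1 := mul_le_mul_of_nonneg_left hJF (mul_nonneg (sq_nonneg mu) hL1)
  have k2 := mul_le_mul_of_nonneg_left hDN hmu
  have k3 : (1 + mu ^ 2 * (16 * e ^ 2 * L0 ^ 2)) * (∑ B ∈ F, pr n k e y B + pr0 n k e y) ≤
      (1 + mu ^ 2 * (16 * e ^ 2 * L0 ^ 2)) * 1 :=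
    mul_le_mul_of_nonneg_left (by linarith) (by positivity)
  have e1 : (1 + mu ^ 2 * (16 * e ^ 2 * L0 ^ 2)) * ∑ B ∈ F, pr n k e y B -
      mu * ∑ B ∈ F, pr n k e y B * (S n k (up n k e y B) T - S n k y T) +
      pr0 n k e y * (1 - mu * (S n k (up0 n k e y) T - S n k y T) +
        mu ^ 2 * (16 * e ^ 2 * L0 ^ 2)) =
      (1 + mu ^ 2 * (16 * e ^ 2 * L0 ^ 2)) * (∑ B ∈ F, pr n k e y B + pr0 n k e y) -
      mu * ((∑ B ∈ F, pr n k e y B * (S n k (up n k e y B) T - S n k y T) +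
        ∑ B ∈ N, pr n k e y B * (S n k (up n k e y B) T - S n k y T)) +
        pr0 n k e y * (S n k (up0 n k e y) T - S n k y T)) +
      mu * ∑ B ∈ N, pr n k e y B * (S n k (up n k e y B) T - S n k y T) := by ring
  rw [hmz] at e1
  have hfinal : ∑ B ∈ F, pr n k e y B *
      Real.exp (-mu * (S n k (up n k e y B) T - S n k y T)) +
      pr0 n k e y * Real.exp (-mu * (S n k (up0 n k e y) T - S n k y T)) ≤
      1 + e * (4 * mu * e * nu * L0 + mu ^ 2 * (16 * e * L0 ^ 2 + 2 * L1 * L0)) := by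
    linarith
  refine hfinal.trans ?_
  have := Real.add_one_le_exp
    (e * (4 * mu * e * nu * L0 + mu ^ 2 * (16 * e * L0 ^ 2 + 2 * L1 * L0)))
  linarith

end Pool.Agent.H70.KG
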