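import Pool.Agent.H70.KG.GR

/-!
# [H70 KG UM] exponential moment of the increment, upper tail

Write D_B = S (up B) U - S y U = G_B - J_B with 0 <= G_B <= 4 e L, J_B = S y (U u B) >= 0 (up_bounds),
D_* = S up0 U - S y U in [0, 4 e L]. Then lam * D <= lam * 4 e L <= 1, so exp (lam D) <= 1 + lam D +
lam^2 D^2 (exp_quad), and D_B^2 <= G_B^2 + J_B^2 (both are >= 0), D_*^2 <= 16 e^2 L^2. Summing with the
weights pr B, pr0 (all >= 0, total 1) and using mean_zero the left side is at most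
  1 + lam^2 (16 e^2 L^2 + sum over B of pr B * J_B^2).
Far B (j <= (B \ U).card): J_B <= L', so their part is <= L' * sum of pr B * J_B <= L' * 2 e L
(pr_S_le). Near B: J_B <= S y U <= L (S_mono), their part is <= L^2 * (e / D) * (sum of y B over near B)
<= L^2 * e * nu. Finally 1 + w <= exp w.
-/

namespace Pool.Agent.H70.KG

open Finset

private theorem um_pr {n k : ℕ} {e : ℝ} {y : Finset (Fin n) → ℝ} (hD : 0 < DD n k)
    (hy : ∀ A ∈ KS n k, 0 ≤ y A) (he : 0 ≤ e) : ∀ B ∈ KS n k, 0 ≤ pr n k e y B := by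
  intro B hB
  unfold pr
  have := hy B hB
  positivity

private theorem um_ne {n k : ℕ} {e : ℝ} {y : Finset (Fin n) → ℝ} (hD : 0 < DD n k)
    (hy : ∀ A ∈ KS n k, 0 ≤ y A) (he4 : e ≤ 1 / 4)
    (hA : ∀ A ∈ KS n k, S n k y A ≤ 2 * DD n k) :
    ∀ A ∈ KS n k, e * S n k y A / DD n k ≠ 1 := by
  intro A hA' h
  rw [div_eq_one_iff_eq hD.ne'] at h
  have h1 := hA A hA'
  have h2 := S_nonneg hy A
  nlinarith

private theorem um_near {n k : ℕ} {e : ℝ} {y : Finset (Fin n) → ℝ} (hD : 0 < DD n k)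
    (he : 0 ≤ e) {nu : ℝ} (s : Finset (Finset (Fin n)))
    (hnear : ∑ B ∈ s, y B ≤ nu * DD n k) : ∑ B ∈ s, pr n k e y B ≤ e * nu := by
  unfold pr
  rw [← sum_div, ← mul_sum, div_le_iff₀ hD]
  calc e * ∑ B ∈ s, y B ≤ e * (nu * DD n k) := mul_le_mul_of_nonneg_left hnear he
    _ = e * nu * DD n k := by ring

theorem upper_moment {n k j : ℕ} {e : ℝ} {y : Finset (Fin n) → ℝ} (hD : 0 < DD n k)
    (hy : ∀ A ∈ KS n k, 0 ≤ y A) (he : 0 ≤ e) (he4 : e ≤ 1 / 4)
    (hA : ∀ A ∈ KS n k, S n k y A ≤ 2 * DD n k) (hp : 0 ≤ pr0 n k e y)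
    (U : Finset (Fin n)) {L L' nu lam : ℝ} (hL : S n k y U ≤ L) (hL' : 0 ≤ L')
    (hfar : ∀ B ∈ KS n k, j ≤ (B \ U).card → S n k y (U ∪ B) ≤ L')
    (hnear : ∑ B ∈ (KS n k).filter (fun B => (B \ U).card < j), y B ≤ nu * DD n k)
    (hlam : 0 ≤ lam) (h1 : 4 * lam * e * L ≤ 1) :
    ∑ B ∈ KS n k, pr n k e y B * Real.exp (lam * (S n k (up n k e y B) U - S n k y U)) +
      pr0 n k e y * Real.exp (lam * (S n k (up0 n k e y) U - S n k y U)) ≤
    Real.exp (lam ^ 2 * e * (16 * e * L ^ 2 + 2 * L' * L + nu * L ^ 2)) := by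
  classical
  have hS0 := S_nonneg hy U
  have hL0 : 0 ≤ L := hS0.trans hL
  have hpr := um_pr hD hy he
  have hmz := mean_zero (um_ne hD hy he4 hA) U
  have hmass : ∑ B ∈ KS n k, pr n k e y B + pr0 n k e y = 1 := by
    unfold pr0
    ring
  have hJs := pr_S_le hD hy he hA U
  have hJ0 : ∀ B, 0 ≤ S n k y (U ∪ B) := fun B => S_nonneg hy _
  have hD2 : ∀ B ∈ KS n k, Real.exp (lam * (S n k (up n k e y B) U - S n k y U)) ≤
      1 + lam * (S n k (up n k e y B) U - S n k y U) +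
        lam ^ 2 * (16 * e ^ 2 * L ^ 2 + S n k y (U ∪ B) ^ 2) := by
    intro B _
    obtain ⟨G, hG0, hG1, hG⟩ := up_bounds hD hy he he4 hA U B
    have hGL : G ≤ 4 * e * L := hG1.trans (mul_le_mul_of_nonneg_left hL (by positivity))
    have hz : lam * (S n k (up n k e y B) U - S n k y U) ≤ 1 := by
      rw [hG]
      have h2 : lam * (G - S n k y (U ∪ B)) ≤ lam * (4 * e * L) :=
        mul_le_mul_of_nonneg_left (by linarith [hJ0 B]) hlam
      linarith
    refine (exp_quad hz).trans ?_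
    have h3 : (S n k (up n k e y B) U - S n k y U) ^ 2 ≤
        16 * e ^ 2 * L ^ 2 + S n k y (U ∪ B) ^ 2 := by
      rw [hG]
      have h4 : G ^ 2 ≤ (4 * e * L) ^ 2 := pow_le_pow_left₀ hG0 hGL 2
      have h5 := mul_nonneg hG0 (hJ0 B)
      nlinarith
    have h6 := mul_le_mul_of_nonneg_left h3 (sq_nonneg lam)
    rw [mul_pow]
    linarith
  have hD0 : Real.exp (lam * (S n k (up0 n k e y) U - S n k y U)) ≤
      1 + lam * (S n k (up0 n k e y) U - S n k y U) + lam ^ 2 * (16 * e ^ 2 * L ^ 2) := by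
    obtain ⟨h2, h3⟩ := up0_bounds hD hy he he4 hA U
    have h4 : S n k (up0 n k e y) U - S n k y U ≤ 4 * e * L :=
      h3.trans (mul_le_mul_of_nonneg_left hL (by positivity))
    have hz : lam * (S n k (up0 n k e y) U - S n k y U) ≤ 1 := by
      have h5 := mul_le_mul_of_nonneg_left h4 hlam
      linarith
    refine (exp_quad hz).trans ?_
    have h6 : (S n k (up0 n k e y) U - S n k y U) ^ 2 ≤ 16 * e ^ 2 * L ^ 2 := by
      have h7 := pow_le_pow_left₀ h2 h4 2
      nlinarith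
    have h8 := mul_le_mul_of_nonneg_left h6 (sq_nonneg lam)
    rw [mul_pow]
    linarith
  -- the quadratic part
  have hfarS : ∑ B ∈ (KS n k).filter (fun B => j ≤ (B \ U).card),
      pr n k e y B * S n k y (U ∪ B) ^ 2 ≤ L' * (2 * e * L) := by
    calc ∑ B ∈ (KS n k).filter (fun B => j ≤ (B \ U).card),
          pr n k e y B * S n k y (U ∪ B) ^ 2
        ≤ ∑ B ∈ (KS n k).filter (fun B => j ≤ (B \ U).card),
          L' * (pr n k e y B * S n k y (U ∪ B)) := by
          refine sum_le_sum fun B hB => ?_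
          obtain ⟨hB1, hB2⟩ := mem_filter.1 hB
          have h2 := mul_le_mul_of_nonneg_left (hfar B hB1 hB2)
            (mul_nonneg (hpr B hB1) (hJ0 B))
          calc pr n k e y B * S n k y (U ∪ B) ^ 2
              = pr n k e y B * S n k y (U ∪ B) * S n k y (U ∪ B) := by ring
            _ ≤ pr n k e y B * S n k y (U ∪ B) * L' := h2
            _ = _ := by ring
      _ ≤ ∑ B ∈ KS n k, L' * (pr n k e y B * S n k y (U ∪ B)) :=
          sum_le_sum_of_subset_of_nonneg (filter_subset _ _) fun B hB _ =>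
            mul_nonneg hL' (mul_nonneg (hpr B hB) (hJ0 B))
      _ = L' * ∑ B ∈ KS n k, pr n k e y B * S n k y (U ∪ B) := by rw [mul_sum]
      _ ≤ L' * (2 * e * S n k y U) := mul_le_mul_of_nonneg_left hJs hL'
      _ ≤ L' * (2 * e * L) := by gcongr
  have hnearS : ∑ B ∈ (KS n k).filter (fun B => (B \ U).card < j),
      pr n k e y B * S n k y (U ∪ B) ^ 2 ≤ L ^ 2 * (e * nu) := by
    calc ∑ B ∈ (KS n k).filter (fun B => (B \ U).card < j),
          pr n k e y B * S n k y (U ∪ B) ^ 2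
        ≤ ∑ B ∈ (KS n k).filter (fun B => (B \ U).card < j), L ^ 2 * pr n k e y B := by
          refine sum_le_sum fun B hB => ?_
          obtain ⟨hB1, hB2⟩ := mem_filter.1 hB
          have h2 : S n k y (U ∪ B) ≤ L := (S_mono hy subset_union_left).trans hL
          have h3 := pow_le_pow_left₀ (hJ0 B) h2 2
          rw [mul_comm]
          exact mul_le_mul_of_nonneg_right h3 (hpr B hB1)
      _ = L ^ 2 * ∑ B ∈ (KS n k).filter (fun B => (B \ U).card < j), pr n k e y B := by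
          rw [mul_sum]
      _ ≤ L ^ 2 * (e * nu) := mul_le_mul_of_nonneg_left (um_near hD he _ hnear) (sq_nonneg L)
  have hQ : ∑ B ∈ KS n k, pr n k e y B * S n k y (U ∪ B) ^ 2 ≤
      L' * (2 * e * L) + L ^ 2 * (e * nu) := by
    rw [← sum_filter_add_sum_filter_not (KS n k) (fun B => j ≤ (B \ U).card)]
    have h2 : (KS n k).filter (fun B => ¬ j ≤ (B \ U).card) =
        (KS n k).filter (fun B => (B \ U).card < j) := by
      refine filter_congr fun B _ => ?_
      exact not_le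
    rw [h2]
    exact add_le_add hfarS hnearS
  have hsum : ∑ B ∈ KS n k, pr n k e y B *
      Real.exp (lam * (S n k (up n k e y B) U - S n k y U)) ≤
      (1 + lam ^ 2 * (16 * e ^ 2 * L ^ 2)) * ∑ B ∈ KS n k, pr n k e y B +
      lam * ∑ B ∈ KS n k, pr n k e y B * (S n k (up n k e y B) U - S n k y U) +
      lam ^ 2 * ∑ B ∈ KS n k, pr n k e y B * S n k y (U ∪ B) ^ 2 := by
    rw [mul_sum, mul_sum, mul_sum, ← sum_add_distrib, ← sum_add_distrib]
    refine sum_le_sum fun B hB => ?_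
    refine (mul_le_mul_of_nonneg_left (hD2 B hB) (hpr B hB)).trans (le_of_eq ?_)
    ring
  have hzero := mul_le_mul_of_nonneg_left hD0 hp
  have hQ2 := mul_le_mul_of_nonneg_left hQ (sq_nonneg lam)
  have hfinal : ∑ B ∈ KS n k, pr n k e y B *
      Real.exp (lam * (S n k (up n k e y B) U - S n k y U)) +
      pr0 n k e y * Real.exp (lam * (S n k (up0 n k e y) U - S n k y U)) ≤
      1 + lam ^ 2 * e * (16 * e * L ^ 2 + 2 * L' * L + nu * L ^ 2) := by
    have e1 : (1 + lam ^ 2 * (16 * e ^ 2 * L ^ 2)) * ∑ B ∈ KS n k, pr n k e y B +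
        lam * ∑ B ∈ KS n k, pr n k e y B * (S n k (up n k e y B) U - S n k y U) +
        pr0 n k e y * (1 + lam * (S n k (up0 n k e y) U - S n k y U) +
          lam ^ 2 * (16 * e ^ 2 * L ^ 2)) =
        (1 + lam ^ 2 * (16 * e ^ 2 * L ^ 2)) * (∑ B ∈ KS n k, pr n k e y B + pr0 n k e y) +
        lam * (∑ B ∈ KS n k, pr n k e y B * (S n k (up n k e y B) U - S n k y U) +
          pr0 n k e y * (S n k (up0 n k e y) U - S n k y U)) := by ring
    rw [hmass, hmz] at e1
    linarith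
  refine hfinal.trans ?_
  have := Real.add_one_le_exp (lam ^ 2 * e * (16 * e * L ^ 2 + 2 * L' * L + nu * L ^ 2))
  linarith

end Pool.Agent.H70.KG
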