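import Pool.Agent.H70.KG.Defs

/-!
# [H70 KG NC] few k-sets are near a given one

T is determined by the pair (B \ T, T \ B): T = (B \ (B \ T)) u (T \ B). If B, T have k elements
then (T \ B).card = (B \ T).card < j. The number of subsets of Fin n with fewer than j elements is
at most n^j for n >= 2 (induction on j: at j + 1 one adds C(n,j) <= n^j, and n^j + n^j <= n^(j+1);
for j = 0 the number is 0). So at most n^j * n^j = n^(2j).
-/

namespace Pool.Agent.H70.KG

open Finset

theorem small_card {n : ℕ} (hn : 2 ≤ n) (j : ℕ) :
    ((univ : Finset (Finset (Fin n))).filter (fun X => X.card < j)).card ≤ n ^ j := by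
  induction j with
  | zero => simp
  | succ j ih =>
    have h1 : (univ : Finset (Finset (Fin n))).filter (fun X => X.card < j + 1) =
        (univ : Finset (Finset (Fin n))).filter (fun X => X.card < j) ∪
          (univ : Finset (Fin n)).powersetCard j := by
      ext X
      simp only [mem_filter, mem_univ, true_and, mem_union, mem_powersetCard, subset_univ]
      omega
    rw [h1]
    refine (card_union_le _ _).trans ?_
    rw [card_powersetCard, card_univ, Fintype.card_fin]
    have h2 : n.choose j ≤ n ^ j := Nat.choose_le_pow n j
    calc _ ≤ n ^ j + n ^ j := Nat.add_le_add ih h2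
      _ = 2 * n ^ j := by ring
      _ ≤ n * n ^ j := Nat.mul_le_mul_right _ hn
      _ = n ^ (j + 1) := by ring

theorem near_count {n k : ℕ} (hn : 2 ≤ n) (j : ℕ) {B : Finset (Fin n)} (hB : B ∈ KS n k) :
    ((KS n k).filter (fun T => (B \ T).card < j)).card ≤ n ^ (2 * j) := by
  have hBk : B.card = k := (mem_powersetCard.1 hB).2
  set F := (univ : Finset (Finset (Fin n))).filter (fun X => X.card < j) with hF
  have h1 : ((KS n k).filter (fun T => (B \ T).card < j)).card ≤ (F ×ˢ F).card := by
    refine card_le_card_of_injOn (fun T => (B \ T, T \ B)) ?_ ?_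
    · intro T hT
      have hT' := mem_filter.1 (mem_coe.1 hT)
      have hTk : T.card = k := (mem_powersetCard.1 hT'.1).2
      have h2 : (T \ B).card = (B \ T).card := by
        have h3 := card_sdiff_add_card_inter B T
        have h4 := card_sdiff_add_card_inter T B
        rw [inter_comm] at h4
        omega
      refine mem_coe.2 (mem_product.2 ⟨?_, ?_⟩)
      · exact mem_filter.2 ⟨mem_univ _, hT'.2⟩
      · exact mem_filter.2 ⟨mem_univ _, by
          show (T \ B).card < j
          rw [h2]
          exact hT'.2⟩
    · intro T _ T' _ h
      have h2 : B \ T = B \ T' := congrArg Prod.fst h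
      have h3 : T \ B = T' \ B := congrArg Prod.snd h
      ext x
      have h4 := Finset.ext_iff.1 h2 x
      have h5 := Finset.ext_iff.1 h3 x
      simp only [mem_sdiff] at h4 h5
      tauto
  refine h1.trans ?_
  rw [card_product]
  calc F.card * F.card ≤ n ^ j * n ^ j := Nat.mul_le_mul (small_card hn j) (small_card hn j)
    _ = n ^ (2 * j) := by ring

end Pool.Agent.H70.KG
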