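import Pool.Agent.H70.KG.Defs

/-!
# [H70 KG BI] binomial coefficients

* choose_decay: for u >= k, C(n-u-1,k) * (n-u) = C(n-u,k) * (n-u-k) (Nat.succ_mul_choose_eq or
  choose_mul_succ_eq), so C(n-u-1,k) / C(n-u,k) = 1 - k/(n-u) <= 1 - k/n <= exp (-k/n) (when n - u > 0;
  if n - u = 0 both sides vanish, k >= 1). Induction on the number of steps a.
* D_le: C(n-k,k) / C(n,k): C(n-i-1,k) <= exp (-k/n) C(n-i,k) for every i < k as before; k steps.
* D_le_pow: C(n-k,k) = C(n-k, n-2k) <= (n-k)^(n-2k) <= n^(n-2k).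
-/

namespace Pool.Agent.H70.KG

theorem choose_step (n k u : ℕ) (hk : 1 ≤ k) :
    ((n - (u + 1)).choose k : ℝ) ≤ Real.exp (-((k : ℝ) / n)) * ((n - u).choose k : ℝ) := by
  rcases Nat.eq_zero_or_pos (n - u) with h0 | hpos
  · have h1 : n - (u + 1) = 0 := by omega
    have h2 : (0 : ℕ).choose k = 0 := Nat.choose_eq_zero_of_lt (by omega)
    rw [h0, h1, h2]
    simp
  · obtain ⟨M, hM⟩ : ∃ M, n - u = M + 1 := ⟨n - u - 1, by omega⟩
    have h1 : n - (u + 1) = M := by omega
    rw [hM, h1]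
    rcases Nat.lt_or_ge (M + 1) k with hlt | hge
    · have h2 : M.choose k = 0 := Nat.choose_eq_zero_of_lt (by omega)
      rw [h2]
      simp only [Nat.cast_zero]
      positivity
    · have h3 : M.choose k * (M + 1) = (M + 1).choose k * (M + 1 - k) := Nat.choose_mul_succ_eq M k
      have h4 : (M.choose k : ℝ) * (M + 1) = ((M + 1).choose k : ℝ) * ((M : ℝ) + 1 - k) := by
        have : ((M.choose k * (M + 1) : ℕ) : ℝ) = (((M + 1).choose k * (M + 1 - k) : ℕ) : ℝ) := by
          rw [h3]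
        rw [Nat.cast_mul, Nat.cast_mul, Nat.cast_sub hge] at this
        push_cast at this
        exact this
      have hMpos : (0 : ℝ) < (M : ℝ) + 1 := by positivity
      have h5 : (M.choose k : ℝ) = ((M + 1).choose k : ℝ) * (1 - (k : ℝ) / (M + 1)) := by
        have : (M.choose k : ℝ) = ((M + 1).choose k : ℝ) * ((M : ℝ) + 1 - k) / (M + 1) := by
          rw [← h4]
          field_simp
        rw [this]
        field_simp
      have hn : (M : ℝ) + 1 ≤ n := by
        have : M + 1 ≤ n := by omega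
        exact_mod_cast this
      have h6 : 1 - (k : ℝ) / (M + 1) ≤ Real.exp (-((k : ℝ) / n)) := by
        have h7 : (k : ℝ) / n ≤ (k : ℝ) / (M + 1) :=
          div_le_div_of_nonneg_left (Nat.cast_nonneg k) hMpos hn
        have h8 := Real.add_one_le_exp (-((k : ℝ) / n))
        linarith
      rw [h5, mul_comm]
      exact mul_le_mul_of_nonneg_right h6 (Nat.cast_nonneg _)

private theorem decay_aux (n k u a : ℕ) (hk : 1 ≤ k) :
    ((n - (u + a)).choose k : ℝ) ≤ Real.exp (-((k : ℝ) * a / n)) * ((n - u).choose k : ℝ) := by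
  induction a with
  | zero => simp
  | succ a ih =>
    have h1 := choose_step n k (u + a) hk
    have h2 : u + (a + 1) = u + a + 1 := by ring
    rw [h2]
    refine h1.trans ?_
    have h3 : Real.exp (-((k : ℝ) * ((a + 1 : ℕ) : ℝ) / n)) =
        Real.exp (-((k : ℝ) / n)) * Real.exp (-((k : ℝ) * a / n)) := by
      rw [← Real.exp_add]
      congr 1
      push_cast
      ring
    rw [h3, mul_assoc]
    exact mul_le_mul_of_nonneg_left ih (Real.exp_pos _).le

theorem choose_decay (n k a : ℕ) (hk : 1 ≤ k) :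
    ((n - (k + a)).choose k : ℝ) ≤ Real.exp (-((k : ℝ) * a / n)) * DD n k :=
  decay_aux n k k a hk

theorem D_le (n k : ℕ) (hk : 1 ≤ k) :
    DD n k ≤ Real.exp (-((k : ℝ) * k / n)) * (n.choose k : ℝ) := by
  have := decay_aux n k 0 k hk
  simpa [DD] using this

theorem D_le_pow (n k : ℕ) (hk : 1 ≤ k) (h : 2 * k ≤ n) : DD n k ≤ (n : ℝ) ^ (n - 2 * k) := by
  unfold DD
  have h1 : (n - k).choose k = (n - k).choose (n - 2 * k) := by
    rw [← Nat.choose_symm (by omega : k ≤ n - k)]
    congr 1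
    omega
  rw [h1]
  have h2 : (n - k).choose (n - 2 * k) ≤ (n - k) ^ (n - 2 * k) := Nat.choose_le_pow _ _
  have h3 : (n - k) ^ (n - 2 * k) ≤ n ^ (n - 2 * k) := Nat.pow_le_pow_left (by omega) _
  exact_mod_cast h2.trans h3

theorem log_D_le (n k : ℕ) (h : 2 * k ≤ n) : Real.log (DD n k) ≤ n := by
  unfold DD
  have hpos : 0 < (n - k).choose k := Nat.choose_pos (by omega)
  have h1 : (n - k).choose k ≤ 2 ^ (n - k) := Nat.choose_le_two_pow _ _
  have h2 : 2 ^ (n - k) ≤ 2 ^ n := Nat.pow_le_pow_right (by norm_num) (by omega)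
  have h3 : (((n - k).choose k : ℕ) : ℝ) ≤ (2 : ℝ) ^ n := by exact_mod_cast h1.trans h2
  rw [Real.log_le_iff_le_exp (by exact_mod_cast hpos)]
  refine h3.trans ?_
  have h4 : (2 : ℝ) ≤ Real.exp 1 := by
    have := Real.add_one_le_exp (1 : ℝ)
    linarith
  calc (2 : ℝ) ^ n ≤ Real.exp 1 ^ n := pow_le_pow_left₀ (by norm_num) h4 _
    _ = Real.exp n := by
        rw [← Real.exp_nat_mul]
        ring_nf

end Pool.Agent.H70.KG
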