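import Mathlib
import Pool.Agent.H31.Kn.K21Lower

/-!
# [H70 KG] growth of i(n,k) for Kneser graphs (MP_3036ab_co): definitions

A random process on the k-subsets of an n-set. Every k-set A carries a weight y A >= 0 (start: 1).
In one step a k-set B is chosen with probability e * y B / D, D = C(n-k,k), or nothing is chosen.
All sets disjoint from the chosen B get weight 0 for ever, all other weights are multiplied by
gf A = 1 / (1 - e * S A / D), where S A = total weight of the k-sets disjoint from A. As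
e * S A / D is the probability that A is hit (= disjoint from the chosen set), all the sums
S U (U any set) are martingales. We never use probability theory: the choices are made one after
the other so that a sum of exponentials (potential) does not increase.
-/

namespace Pool.Agent.H70.KG

open Finset

/-- The `k`-subsets of `Fin n`. -/
def KS (n k : ℕ) : Finset (Finset (Fin n)) := (univ : Finset (Fin n)).powersetCard k

/-- The number of `k`-sets disjoint from a given `k`-set, as a real number. -/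
noncomputable def DD (n k : ℕ) : ℝ := ((n - k).choose k : ℝ)

/-- Total weight of the `k`-sets disjoint from `U`. -/
noncomputable def S (n k : ℕ) (y : Finset (Fin n) → ℝ) (U : Finset (Fin n)) : ℝ :=
  ∑ A ∈ (KS n k).filter (fun A => Disjoint A U), y A

/-- Growth factor of a set that is not hit. -/
noncomputable def gf (n k : ℕ) (e : ℝ) (y : Finset (Fin n) → ℝ) (A : Finset (Fin n)) : ℝ :=
  1 / (1 - e * S n k y A / DD n k)

/-- New weights if nothing is chosen. -/
noncomputable def up0 (n k : ℕ) (e : ℝ) (y : Finset (Fin n) → ℝ) : Finset (Fin n) → ℝ :=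
  fun A => y A * gf n k e y A

/-- New weights if `B` is chosen. -/
noncomputable def up (n k : ℕ) (e : ℝ) (y : Finset (Fin n) → ℝ) (B : Finset (Fin n)) :
    Finset (Fin n) → ℝ :=
  fun A => if Disjoint A B then 0 else y A * gf n k e y A

/-- Probability of choosing `B`. -/
noncomputable def pr (n k : ℕ) (e : ℝ) (y : Finset (Fin n) → ℝ) (B : Finset (Fin n)) : ℝ :=
  e * y B / DD n k

/-- Probability of choosing nothing. -/
noncomputable def pr0 (n k : ℕ) (e : ℝ) (y : Finset (Fin n) → ℝ) : ℝ :=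
  1 - ∑ B ∈ KS n k, pr n k e y B

/-- `T` is near a member of `C`. -/
def NearC {n : ℕ} (j : ℕ) (C : Finset (Finset (Fin n))) (T : Finset (Fin n)) : Prop :=
  ∃ B ∈ C, (B \ T).card < j

/-- All parameters of the process and the numerical hypotheses on them. -/
structure Par (n k : ℕ) where
  j : ℕ
  m : ℕ
  tau : ℕ
  del : ℝ
  r : ℝ
  e : ℝ
  L : ℕ → ℝ
  hk : 1 ≤ k
  hj : 1 ≤ j
  hn : 2 * k + (m + 1) * j ≤ n
  hdel : 0 < del
  hdel2 : del ≤ 1 / 2
  hr : 0 < r
  he : 0 < e
  heN : 2 * (e * (n.choose k : ℝ)) ≤ DD n k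
  hc : (4 * (n + 1) / del) ^ 2 * (16 * e + 3 * r) * (e * tau) ≤ n + 1
  hae : 4 * (4 * (n + 1) / del) * e ≤ 1
  har : (4 * (n + 1) / del) * r ≤ 1
  L0 : L 0 = (1 + del) * DD n k
  Lpos : ∀ i, 0 < L i
  Lr : ∀ i, L (i + 1) ≤ r * L i
  L2 : ∀ i, 1 ≤ i → 2 * ((n - (k + i * j)).choose k : ℝ) ≤ L i
  Lnear : (n : ℝ) ^ j * L m ≤ r * DD n k
  Ltop : ∀ i, k + i * j ≤ n → (n : ℝ) ^ ((m + 1) * j) * Real.exp ((1 + 2 * del) * (e * tau)) ≤ L i

/-- The rate `a = 4 (n+1) / del` of the exponentials. -/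
noncomputable def Par.a {n k : ℕ} (P : Par n k) : ℝ := 4 * (n + 1) / P.del

/-- The constant `c0 = a^2 (16 e + 3 r)`. -/
noncomputable def Par.c {n k : ℕ} (P : Par n k) : ℝ := P.a ^ 2 * (16 * P.e + 3 * P.r)

/-- The controlled sets: size `k + i j` for some `i` with `2k + i j + (m+1) j <= n`. -/
def Par.ctrl {n k : ℕ} (P : Par n k) : Finset (Finset (Fin n)) :=
  univ.filter (fun U => k ≤ U.card ∧ P.j ∣ (U.card - k) ∧ U.card + k + (P.m + 1) * P.j ≤ n)

/-- The level of a set. -/
def Par.lev {n k : ℕ} (P : Par n k) (U : Finset (Fin n)) : ℕ := (U.card - k) / P.j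

open Classical in
/-- The potential. -/
noncomputable def Par.Phi {n k : ℕ} (P : Par n k) (t : ℕ) (y : Finset (Fin n) → ℝ)
    (C : Finset (Finset (Fin n))) : ℝ :=
  ∑ U ∈ P.ctrl, Real.exp (P.a / P.L (P.lev U) * (S n k y U - ((n - U.card).choose k : ℝ))
      - P.c * (P.e * t)) +
  ∑ T ∈ (KS n k).filter (fun T => ¬ NearC P.j C T),
    Real.exp (-(P.a / (2 * DD n k)) * (S n k y T - DD n k) - P.c * (P.e * t))

/-- The invariants at time `t`. -/
structure Inv {n k : ℕ} (P : Par n k) (t : ℕ) (y : Finset (Fin n) → ℝ)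
    (C : Finset (Finset (Fin n))) : Prop where
  nonneg : ∀ A ∈ KS n k, 0 ≤ y A
  dead : ∀ A ∈ KS n k, (∃ B ∈ C, Disjoint A B) → y A = 0
  sub : C ⊆ KS n k
  int : Pool.Agent.H31.Kn.IsInt n k C
  card : C.card ≤ t
  ymax : ∀ A ∈ KS n k, y A ≤ Real.exp ((1 + 2 * P.del) * (P.e * t))
  alive : ∀ T ∈ KS n k, (∀ B ∈ C, ¬ Disjoint T B) → ¬ NearC P.j C T →
    Real.exp ((1 - P.del) * (P.e * t)) ≤ y T
  phi : P.Phi t y C ≤ 2 ^ (n + 1)

end Pool.Agent.H70.KG
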