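import Pool.Agent.H70.KG.IN
import Pool.Agent.H70.KG.NC

/-!
# [H70 KG FI] the maximal family is small

Take t = tau in inv_all. C is intersecting; let F be a maximal intersecting family containing C
((Set.toFinite _).exists_le_maximal, see H31/Kn/K21Lower exists_maximal). Every T in F is in KS and meets
all members of C. Near part: the T in F near C: for each B in C at most n^(2j) sets T (near_count;
B in KS by sub), together <= C.card * n^(2j) <= tau * n^(2j). Other part: y T >= exp ((1-del) e tau) (alive),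
all weights are >= 0 and their sum is <= (1+del) C(n,k) <= 2 C(n,k) (total_le with hG from gen_bound), so
the number of these T is <= 2 C(n,k) exp (-(1-del) e tau).
-/

namespace Pool.Agent.H70.KG

open Finset

private theorem exists_ge {n k : ℕ} {C : Finset (Finset (Fin n))}
    (hC : Pool.Agent.H31.Kn.IsInt n k C) :
    ∃ F : Finset (Finset (Fin n)), C ⊆ F ∧ Maximal (Pool.Agent.H31.Kn.IsInt n k) F := by
  obtain ⟨F, hCF, hF⟩ := (Set.toFinite {F : Finset (Finset (Fin n)) |
    Pool.Agent.H31.Kn.IsInt n k F}).exists_le_maximal (a := C) hC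
  exact ⟨F, hCF, hF⟩

theorem main_family {n k : ℕ} (P : Par n k) :
    ∃ F : Finset (Finset (Fin n)), Maximal (Pool.Agent.H31.Kn.IsInt n k) F ∧
      (F.card : ℝ) ≤ P.tau * (n : ℝ) ^ (2 * P.j) +
        2 * (n.choose k : ℝ) * Real.exp (-(1 - P.del) * (P.e * P.tau)) := by
  classical
  obtain ⟨y, C, h⟩ := inv_all P P.tau le_rfl
  have hG : ∀ i (U : Finset (Fin n)), k + i * P.j ≤ U.card → S n k y U ≤ P.L i :=
    fun i U hU => gen_bound P le_rfl h.nonneg h.ymax h.phi i U hU
  obtain ⟨F, hCF, hF⟩ := exists_ge h.int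
  refine ⟨F, hF, ?_⟩
  have hFKS : ∀ T ∈ F, T ∈ KS n k := fun T hT =>
    mem_powersetCard.mpr ⟨subset_univ _, hF.prop.1 T hT⟩
  have hsplit : (F.filter (fun T => NearC P.j C T)).card +
      (F.filter (fun T => ¬ NearC P.j C T)).card = F.card :=
    card_filter_add_card_filter_not (s := F) (fun T => NearC P.j C T)
  -- near part
  have hnear : (F.filter (fun T => NearC P.j C T)).card ≤ P.tau * n ^ (2 * P.j) := by
    have hsub : F.filter (fun T => NearC P.j C T) ⊆
        C.biUnion (fun B => (KS n k).filter (fun T => (B \ T).card < P.j)) := by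
      intro T hT
      obtain ⟨hTF, B, hB, hBT⟩ := mem_filter.mp hT
      exact mem_biUnion.mpr ⟨B, hB, mem_filter.mpr ⟨hFKS T hTF, hBT⟩⟩
    refine (card_le_card hsub).trans ?_
    refine (card_biUnion_le_card_mul _ _ (n ^ (2 * P.j)) ?_).trans
      (Nat.mul_le_mul_right _ h.card)
    intro B hB
    exact near_count P.n_pos P.j (h.sub hB)
  -- other part
  have hfar : ((F.filter (fun T => ¬ NearC P.j C T)).card : ℝ) *
      Real.exp ((1 - P.del) * (P.e * P.tau)) ≤ 2 * (n.choose k : ℝ) := by
    have h1 : ((F.filter (fun T => ¬ NearC P.j C T)).card : ℝ) *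
        Real.exp ((1 - P.del) * (P.e * P.tau)) ≤
        ∑ T ∈ F.filter (fun T => ¬ NearC P.j C T), y T := by
      rw [← nsmul_eq_mul, ← sum_const]
      refine sum_le_sum fun T hT => ?_
      obtain ⟨hTF, hTn⟩ := mem_filter.mp hT
      refine h.alive T (hFKS T hTF) (fun B hB hdis => ?_) hTn
      have := hF.prop.2 T hTF B (hCF hB)
      rw [disjoint_iff_inter_eq_empty] at hdis
      rw [hdis] at this
      exact not_nonempty_empty this
    have h2 : ∑ T ∈ F.filter (fun T => ¬ NearC P.j C T), y T ≤ ∑ T ∈ KS n k, y T := by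
      refine sum_le_sum_of_subset_of_nonneg ?_ (fun T hT _ => h.nonneg T hT)
      intro T hT
      exact hFKS T (mem_filter.mp hT).1
    have h3 := total_le P hG
    have h4 : (1 + P.del) * (n.choose k : ℝ) ≤ 2 * (n.choose k : ℝ) :=
      mul_le_mul_of_nonneg_right (by linarith [P.hdel2]) (Nat.cast_nonneg _)
    linarith
  have hfar2 : ((F.filter (fun T => ¬ NearC P.j C T)).card : ℝ) ≤
      2 * (n.choose k : ℝ) * Real.exp (-(1 - P.del) * (P.e * P.tau)) := by
    have h5 : Real.exp ((1 - P.del) * (P.e * P.tau)) *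
        Real.exp (-(1 - P.del) * (P.e * P.tau)) = 1 := by
      rw [← Real.exp_add]
      rw [show (1 - P.del) * (P.e * P.tau) + -(1 - P.del) * (P.e * P.tau) = 0 by ring]
      exact Real.exp_zero
    calc ((F.filter (fun T => ¬ NearC P.j C T)).card : ℝ)
        = (((F.filter (fun T => ¬ NearC P.j C T)).card : ℝ) *
            Real.exp ((1 - P.del) * (P.e * P.tau))) *
            Real.exp (-(1 - P.del) * (P.e * P.tau)) := by
          rw [mul_assoc, h5, mul_one]
      _ ≤ _ := mul_le_mul_of_nonneg_right hfar (Real.exp_pos _).le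
  have hnear2 : ((F.filter (fun T => NearC P.j C T)).card : ℝ) ≤
      P.tau * (n : ℝ) ^ (2 * P.j) := by exact_mod_cast hnear
  have hs : (F.card : ℝ) = ((F.filter (fun T => NearC P.j C T)).card : ℝ) +
      ((F.filter (fun T => ¬ NearC P.j C T)).card : ℝ) := by
    rw [← hsplit]
    push_cast
    ring
  rw [hs]
  exact add_le_add hnear2 hfar2

end Pool.Agent.H70.KG
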