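import Pool.Agent.H70.KG.Defs

/-!
# [H70 KG PB] consequences of the numerical hypotheses

* DD > 0: k <= n - k by hn. e <= 1/4: from hae, since 4 (4 (n+1)/del) >= 4 (use del <= 1/2, n >= 0).
  3 e <= del: 16 (n+1) e / del <= 1. a >= 1, a r <= 1 gives r <= 1.
* L 1 <= r * L 0, L 0 <= 2 DD, L (i+1) <= r * L i <= L i; L is antitone.
* c * (e * t) <= n + 1 for t <= tau: definition of c and hc (c >= 0).
* two_pow: 2^(n+1) <= exp (n+1), log 2 <= 1.
-/

namespace Pool.Agent.H70.KG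

open Finset

variable {n k : ℕ} (P : Par n k)

theorem Par.D_pos (P : Par n k) : 0 < DD n k := by
  unfold DD
  have h1 := P.hn
  have h2 : k ≤ n - k := by omega
  exact_mod_cast Nat.choose_pos h2

theorem Par.n_pos (P : Par n k) : 2 ≤ n := by
  have h1 := P.hn
  have h2 := P.hk
  omega

theorem Par.a_ge : 8 ≤ P.a := by
  unfold Par.a
  have h1 := P.hdel
  have h2 := P.hdel2
  rw [le_div_iff₀ h1]
  have hn : (0 : ℝ) ≤ n := Nat.cast_nonneg n
  linarith

theorem Par.a_pos : 0 < P.a := by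
  linarith [P.a_ge]

theorem Par.a_del : P.a * P.del = 4 * (n + 1) := by
  unfold Par.a
  have h1 := P.hdel
  field_simp

theorem Par.e_le : P.e ≤ 1 / 4 := by
  have h1 : 4 * P.a * P.e ≤ 1 := P.hae
  have h2 := P.a_ge
  have h3 := P.he
  have h4 : 8 * P.e ≤ P.a * P.e := mul_le_mul_of_nonneg_right h2 h3.le
  linarith

theorem Par.e_del : 3 * P.e ≤ P.del := by
  have h1 : 4 * P.a * P.e ≤ 1 := P.hae
  have h2 := P.a_del
  have h3 := P.he
  have h4 := P.hdel
  have h5 : 4 * (P.a * P.del) * P.e ≤ P.del := by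
    calc 4 * (P.a * P.del) * P.e = P.del * (4 * P.a * P.e) := by ring
      _ ≤ P.del * 1 := mul_le_mul_of_nonneg_left h1 h4.le
      _ = P.del := mul_one _
  rw [h2] at h5
  have hn : (0 : ℝ) ≤ n := Nat.cast_nonneg n
  have h6 : 0 ≤ (n : ℝ) * P.e := by positivity
  nlinarith

theorem Par.r_le : P.r ≤ 1 := by
  have h1 : P.a * P.r ≤ 1 := P.har
  have h2 := P.a_ge
  have h3 := P.hr
  have h4 : 8 * P.r ≤ P.a * P.r := mul_le_mul_of_nonneg_right h2 h3.le
  linarith

theorem Par.L0_le : P.L 0 ≤ 2 * DD n k := by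
  rw [P.L0]
  have h1 := P.hdel2
  exact mul_le_mul_of_nonneg_right (by linarith) P.D_pos.le

theorem Par.L_anti {i i' : ℕ} (h : i ≤ i') : P.L i' ≤ P.L i := by
  have hs : Antitone P.L := by
    refine antitone_nat_of_succ_le fun i => ?_
    calc P.L (i + 1) ≤ P.r * P.L i := P.Lr i
      _ ≤ 1 * P.L i := mul_le_mul_of_nonneg_right P.r_le (P.Lpos i).le
      _ = P.L i := one_mul _
  exact hs h

theorem Par.c_nonneg : 0 ≤ P.c := by
  unfold Par.c
  have h1 := P.he
  have h2 := P.hr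
  positivity

theorem Par.c_le {t : ℕ} (ht : t ≤ P.tau) : P.c * (P.e * t) ≤ n + 1 := by
  have h1 : P.c * (P.e * P.tau) ≤ n + 1 := P.hc
  refine le_trans (mul_le_mul_of_nonneg_left ?_ P.c_nonneg) h1
  have : (t : ℝ) ≤ P.tau := by exact_mod_cast ht
  exact mul_le_mul_of_nonneg_left this P.he.le

theorem two_pow_le (n : ℕ) : (2 : ℝ) ^ (n + 1) ≤ Real.exp (n + 1) := by
  have h1 : (2 : ℝ) ≤ Real.exp 1 := by
    have := Real.add_one_le_exp (1 : ℝ)
    linarith
  calc (2 : ℝ) ^ (n + 1) ≤ Real.exp 1 ^ (n + 1) := pow_le_pow_left₀ (by norm_num) h1 _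
    _ = Real.exp (n + 1) := by
        rw [← Real.exp_nat_mul]
        push_cast
        ring_nf

end Pool.Agent.H70.KG
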