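import Pool.Agent.H70.KG.SB
import Pool.Agent.H70.KG.PB

/-!
# [H70 KG GB] the bounds read off from the potential

Every term of the potential is >= 0, so each term is <= 2^(n+1) <= exp (n+1).

gen_bound. Let k + i j <= |U|. If |U| > n impossible. Choose U' in U with |U'| = k + i j
(exists_subset_card_eq), S y U <= S y U' (S_mono).
Case 1, 2k + i j + (m+1) j <= n: U' is controlled, lev U' = i; the term gives
(a / L i) (S y U' - C) <= c (e t) + (n + 1) <= 2 (n+1), C = C(n - |U'|, k), so
S y U' <= C + L i * 2 (n+1) / a = C + L i * del / 2.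
 i = 0: C = DD, L 0 = (1+del) DD: DD + (1+del) (del/2) DD <= (1+del) DD as (1+del)/2 <= 1.
 i >= 1: C <= L i / 2 (L2) and del / 2 <= 1/4.
Case 2, n < 2k + i j + (m+1) j: then n - |U| < k + (m+1) j, so by S_le_card and ymax
S y U <= C(n - |U|, k) * exp ((1+2 del) e t) and C(n-|U|,k) <= C(k + (m+1) j, k)
= C(k + (m+1) j, (m+1) j) <= (k + (m+1) j)^((m+1) j) <= n^((m+1) j) (Nat.choose_mono,
Nat.choose_symm, Nat.choose_le_pow), e t <= e tau, and Ltop.

low_bound. The term of T gives (a / (2 DD)) (DD - S y T) <= c (e t) + (n+1) <= 2 (n+1), so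
DD - S y T <= 4 (n+1) DD / a = del * DD.
-/

namespace Pool.Agent.H70.KG

open Finset

variable {n k : ℕ}

private theorem gb_exp {x : ℝ} (h : Real.exp x ≤ 2 ^ (n + 1)) : x ≤ n + 1 := by
  have h1 := h.trans (two_pow_le n)
  exact Real.exp_le_exp.1 h1

theorem gen_bound (P : Par n k) {t : ℕ} (ht : t ≤ P.tau) {y : Finset (Fin n) → ℝ}
    {C : Finset (Finset (Fin n))} (hy : ∀ A ∈ KS n k, 0 ≤ y A)
    (hmax : ∀ A ∈ KS n k, y A ≤ Real.exp ((1 + 2 * P.del) * (P.e * t)))
    (hphi : P.Phi t y C ≤ 2 ^ (n + 1)) (i : ℕ) (U : Finset (Fin n))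
    (hU : k + i * P.j ≤ U.card) : S n k y U ≤ P.L i := by
  have hcard : U.card ≤ n := by
    have := card_le_univ U
    rwa [Fintype.card_fin] at this
  have hkn : k + i * P.j ≤ n := hU.trans hcard
  have hjpos := P.hj
  by_cases hcase : 2 * k + i * P.j + (P.m + 1) * P.j ≤ n
  · obtain ⟨U', hU'U, hU'c⟩ := exists_subset_card_eq hU
    have hmem : U' ∈ P.ctrl := by
      unfold Par.ctrl
      rw [mem_filter]
      refine ⟨mem_univ _, ?_, ?_, ?_⟩
      · omega
      · rw [hU'c, Nat.add_sub_cancel_left]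
        exact Dvd.intro_left _ rfl
      · rw [hU'c]
        omega
    have hlev : P.lev U' = i := by
      unfold Par.lev
      rw [hU'c, Nat.add_sub_cancel_left, Nat.mul_div_cancel _ hjpos]
    have h1 : Real.exp (P.a / P.L (P.lev U') * (S n k y U' - ((n - U'.card).choose k : ℝ))
        - P.c * (P.e * t)) ≤ P.Phi t y C := by
      unfold Par.Phi
      refine le_add_of_le_of_nonneg ?_ (sum_nonneg fun _ _ => (Real.exp_pos _).le)
      exact single_le_sum (f := fun U : Finset (Fin n) =>
        Real.exp (P.a / P.L (P.lev U) * (S n k y U - ((n - U.card).choose k : ℝ))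
        - P.c * (P.e * t))) (fun _ _ => (Real.exp_pos _).le) hmem
    have h2 := gb_exp (h1.trans hphi)
    rw [hlev] at h2
    have h3 := P.c_le ht
    have hLi := P.Lpos i
    have hap := P.a_pos
    have h4 : P.a / P.L i * (S n k y U' - ((n - U'.card).choose k : ℝ)) ≤ 2 * (n + 1) := by
      linarith
    have h5 : S n k y U' - ((n - U'.card).choose k : ℝ) ≤ P.L i * (P.del / 2) := by
      have h6 : P.a * (S n k y U' - ((n - U'.card).choose k : ℝ)) ≤ 2 * (n + 1) * P.L i := by
        rw [div_mul_eq_mul_div, div_le_iff₀ hLi] at h4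
        exact h4
      have h7 := P.a_del
      have h8 : P.a * (P.L i * (P.del / 2)) = 2 * (n + 1) * P.L i := by
        calc P.a * (P.L i * (P.del / 2)) = (P.a * P.del) * P.L i / 2 := by ring
          _ = 2 * (n + 1) * P.L i := by rw [h7]; ring
      rw [← h8] at h6
      exact le_of_mul_le_mul_left h6 hap
    have h9 : S n k y U ≤ S n k y U' := S_mono hy hU'U
    have hdel := P.hdel
    have hdel2 := P.hdel2
    rcases Nat.eq_zero_or_pos i with hi | hi
    · subst hi
      have hD := P.D_pos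
      have h10 : ((n - U'.card).choose k : ℝ) = DD n k := by
        rw [hU'c]
        unfold DD
        rw [Nat.zero_mul, Nat.add_zero]
      rw [h10] at h5
      rw [P.L0] at h5 ⊢
      nlinarith [mul_pos hdel hD, mul_nonneg (mul_nonneg hdel.le hD.le) (sub_nonneg.2 hdel2)]
    · have h10 := P.L2 i hi
      rw [hU'c] at h5
      nlinarith
  · push Not at hcase
    have h1 := S_le_card hmax U
    have hn := P.hn
    have h2 : n - U.card ≤ k + (P.m + 1) * P.j := by omega
    have h3 : (n - U.card).choose k ≤ n ^ ((P.m + 1) * P.j) := by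
      calc (n - U.card).choose k ≤ (k + (P.m + 1) * P.j).choose k := Nat.choose_le_choose k h2
        _ = (k + (P.m + 1) * P.j).choose ((P.m + 1) * P.j) := Nat.choose_symm_add
        _ ≤ (k + (P.m + 1) * P.j) ^ ((P.m + 1) * P.j) := Nat.choose_le_pow _ _
        _ ≤ n ^ ((P.m + 1) * P.j) := Nat.pow_le_pow_left (by omega) _
    have h4 : ((n - U.card).choose k : ℝ) ≤ (n : ℝ) ^ ((P.m + 1) * P.j) := by exact_mod_cast h3
    have h5 : Real.exp ((1 + 2 * P.del) * (P.e * t)) ≤
        Real.exp ((1 + 2 * P.del) * (P.e * P.tau)) := by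
      apply Real.exp_le_exp.2
      have h6 : (t : ℝ) ≤ P.tau := by exact_mod_cast ht
      have := P.hdel
      have := P.he
      gcongr
    calc S n k y U ≤ ((n - U.card).choose k : ℝ) * Real.exp ((1 + 2 * P.del) * (P.e * t)) := h1
      _ ≤ (n : ℝ) ^ ((P.m + 1) * P.j) * Real.exp ((1 + 2 * P.del) * (P.e * P.tau)) :=
          mul_le_mul h4 h5 (Real.exp_pos _).le (by positivity)
      _ ≤ P.L i := P.Ltop i hkn

theorem low_bound (P : Par n k) {t : ℕ} (ht : t ≤ P.tau) {y : Finset (Fin n) → ℝ}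
    {C : Finset (Finset (Fin n))}
    (hphi : P.Phi t y C ≤ 2 ^ (n + 1)) {T : Finset (Fin n)} (hT : T ∈ KS n k)
    (hnear : ¬ NearC P.j C T) : (1 - P.del) * DD n k ≤ S n k y T := by
  classical
  have h1 : Real.exp (-(P.a / (2 * DD n k)) * (S n k y T - DD n k) - P.c * (P.e * t)) ≤
      P.Phi t y C := by
    unfold Par.Phi
    refine le_add_of_nonneg_of_le (sum_nonneg fun _ _ => (Real.exp_pos _).le) ?_
    exact single_le_sum (f := fun T : Finset (Fin n) =>
      Real.exp (-(P.a / (2 * DD n k)) * (S n k y T - DD n k) - P.c * (P.e * t)))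
      (fun _ _ => (Real.exp_pos _).le) (mem_filter.2 ⟨hT, hnear⟩)
  have h2 := gb_exp (h1.trans hphi)
  have h3 := P.c_le ht
  have hD := P.D_pos
  have hap := P.a_pos
  have h4 : P.a / (2 * DD n k) * (DD n k - S n k y T) ≤ 2 * (n + 1) := by linarith
  rw [div_mul_eq_mul_div, div_le_iff₀ (by positivity)] at h4
  have h5 := P.a_del
  have h6 : P.a * (DD n k - S n k y T) ≤ P.a * (P.del * DD n k) := by
    calc P.a * (DD n k - S n k y T) ≤ 2 * (n + 1) * (2 * DD n k) := h4
      _ = (P.a * P.del) * DD n k := by rw [h5]; ring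
      _ = _ := by ring
  have h7 := le_of_mul_le_mul_left h6 hap
  linarith

end Pool.Agent.H70.KG
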