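import Pool.Agent.H70.KG.NR
import Pool.Agent.H70.KG.GB

/-!
# [H70 KG GC] more consequences of the general bound

hG is the general bound (gen_bound): S y U <= L i whenever k + i j <= |U|.
* A in KS: |A| = k, so S y A <= L 0 = (1 + del) DD <= 2 DD.
* sum of all weights: DD * (sum of y) = sum over T in KS of S y T (sum_S) <= C(n,k) * L 0, so
  sum of y <= (1 + del) C(n,k).
* pr0 = 1 - (e / DD) * sum of y >= 1 - (1 + del) e C(n,k) / DD >= 1 - (1 + del)/2 >= 0 (heN).
* near sets: U with |U| = k + i j, 2k + i j + (m+1) j <= n. |U| + j <= n. Every V with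
  |V| = n - |U| - j has |V| >= k + m j, so S y V <= L m; near_sum and Lnear give
  sum of y over the near B <= n^j L m <= r DD. In particular for T in KS (i = 0, hn).
* far sets: |U u B| = |U| + |B \ U| >= k + (i+1) j, so S y (U u B) <= L (i+1) <= r L i.
-/

namespace Pool.Agent.H70.KG

open Finset

variable {n k : ℕ}

theorem S_KS_le (P : Par n k) {y : Finset (Fin n) → ℝ}
    (hG : ∀ i (U : Finset (Fin n)), k + i * P.j ≤ U.card → S n k y U ≤ P.L i)
    {A : Finset (Fin n)} (hA : A ∈ KS n k) : S n k y A ≤ (1 + P.del) * DD n k := by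
  have hc : A.card = k := (mem_powersetCard.mp hA).2
  have := hG 0 A (by rw [hc]; omega)
  rwa [P.L0] at this

theorem total_le (P : Par n k) {y : Finset (Fin n) → ℝ}
    (hG : ∀ i (U : Finset (Fin n)), k + i * P.j ≤ U.card → S n k y U ≤ P.L i) :
    ∑ A ∈ KS n k, y A ≤ (1 + P.del) * (n.choose k : ℝ) := by
  have hD := P.D_pos
  have h1 := sum_S (n := n) (k := k) y
  have h2 : ∑ T ∈ KS n k, S n k y T ≤ ∑ _T ∈ KS n k, (1 + P.del) * DD n k :=
    sum_le_sum fun T hT => S_KS_le P hG hT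
  have hcard : (KS n k).card = n.choose k := by
    unfold KS
    rw [card_powersetCard, card_univ, Fintype.card_fin]
  rw [sum_const, hcard, nsmul_eq_mul] at h2
  rw [h1] at h2
  have h3 : DD n k * ∑ A ∈ KS n k, y A ≤ DD n k * ((1 + P.del) * (n.choose k : ℝ)) := by
    calc DD n k * ∑ A ∈ KS n k, y A ≤ (n.choose k : ℝ) * ((1 + P.del) * DD n k) := h2
      _ = _ := by ring
  exact le_of_mul_le_mul_left h3 hD

theorem pr0_nonneg (P : Par n k) {y : Finset (Fin n) → ℝ}
    (hG : ∀ i (U : Finset (Fin n)), k + i * P.j ≤ U.card → S n k y U ≤ P.L i) :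
    0 ≤ pr0 n k P.e y := by
  have hD := P.D_pos
  have he := P.he
  have h1 := total_le P hG
  unfold pr0 pr
  have h2 : ∑ B ∈ KS n k, P.e * y B / DD n k = P.e / DD n k * ∑ B ∈ KS n k, y B := by
    rw [mul_sum]
    refine sum_congr rfl fun B _ => ?_
    ring
  rw [h2]
  have h3 : P.e / DD n k * ∑ B ∈ KS n k, y B ≤
      P.e / DD n k * ((1 + P.del) * (n.choose k : ℝ)) :=
    mul_le_mul_of_nonneg_left h1 (by positivity)
  have h4 : P.e / DD n k * ((1 + P.del) * (n.choose k : ℝ)) ≤ 1 := by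
    have h5 := P.heN
    have h6 := P.hdel2
    have h7 := P.hdel
    have h8 : P.e * (n.choose k : ℝ) / DD n k ≤ 1 / 2 := by
      rw [div_le_iff₀ hD]
      linarith
    have h9 : 0 ≤ P.e * (n.choose k : ℝ) / DD n k := by positivity
    calc P.e / DD n k * ((1 + P.del) * (n.choose k : ℝ))
        = (1 + P.del) * (P.e * (n.choose k : ℝ) / DD n k) := by ring
      _ ≤ (1 + P.del) * (1 / 2) := mul_le_mul_of_nonneg_left h8 (by linarith)
      _ ≤ 1 := by linarith
  linarith

theorem near_le (P : Par n k) {y : Finset (Fin n) → ℝ} (hy : ∀ A ∈ KS n k, 0 ≤ y A)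
    (hG : ∀ i (U : Finset (Fin n)), k + i * P.j ≤ U.card → S n k y U ≤ P.L i)
    {U : Finset (Fin n)} (hU : U.card + k + (P.m + 1) * P.j ≤ n) :
    ∑ B ∈ (KS n k).filter (fun B => (B \ U).card < P.j), y B ≤ P.r * DD n k := by
  have hmj : (P.m + 1) * P.j = P.m * P.j + P.j := by ring
  refine (near_sum hy U (by omega) (L := P.L P.m) ?_).trans P.Lnear
  intro V hV
  exact hG P.m V (by omega)

theorem far_le (P : Par n k) {y : Finset (Fin n) → ℝ}
    (hG : ∀ i (U : Finset (Fin n)), k + i * P.j ≤ U.card → S n k y U ≤ P.L i)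
    {U : Finset (Fin n)} {i : ℕ} (hU : k + i * P.j ≤ U.card) {B : Finset (Fin n)}
    (hB : P.j ≤ (B \ U).card) : S n k y (U ∪ B) ≤ P.r * P.L i := by
  refine (hG (i + 1) (U ∪ B) ?_).trans (P.Lr i)
  have h1 : (U ∪ B).card = U.card + (B \ U).card := by
    rw [← union_sdiff_self_eq_union, card_union_of_disjoint disjoint_sdiff]
  have h2 : (i + 1) * P.j = i * P.j + P.j := by ring
  omega

end Pool.Agent.H70.KG
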