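import Pool.Agent.H70.KG.SC
import Pool.Agent.H70.KG.GC

/-!
# [H70 KG GF] bounds of the growth factor

Put X = S y A / DD, x = e * X. For A in KS: 0 <= X <= 1 + del, x <= e (1 + del) <= 1/2 (e <= 1/4).
gf = 1 / (1 - x) >= 1 > 0; gf <= exp (x + x^2) and x + x^2 <= e (1+del) (1 + e (1+del)) <= e (1 + 2 del)
since (1+del)(1 + e(1+del)) <= 1 + 2 del iff del + e (1+del)^2 <= 2 del, and e (1+del)^2 <= 3 e <= del
((3/2)^2 <= 3). If moreover (1 - del) DD <= S y A then x >= e (1 - del) and gf >= exp x >= exp (e (1-del)).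
-/

namespace Pool.Agent.H70.KG

open Finset

variable {n k : ℕ}

private theorem x_bounds (P : Par n k) {y : Finset (Fin n) → ℝ} (hy : ∀ A ∈ KS n k, 0 ≤ y A)
    (hG : ∀ i (U : Finset (Fin n)), k + i * P.j ≤ U.card → S n k y U ≤ P.L i)
    {A : Finset (Fin n)} (hA : A ∈ KS n k) :
    0 ≤ P.e * S n k y A / DD n k ∧ P.e * S n k y A / DD n k ≤ P.e * (1 + P.del) ∧
      P.e * (1 + P.del) ≤ 1 / 2 := by
  have hD := P.D_pos
  have he := P.he
  have he4 := P.e_le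
  have hd := P.hdel
  have hd2 := P.hdel2
  have hS := S_KS_le P hG hA
  have hS0 := S_nonneg hy A
  refine ⟨by positivity, ?_, ?_⟩
  · rw [div_le_iff₀ hD, mul_assoc]
    exact mul_le_mul_of_nonneg_left hS he.le
  · calc P.e * (1 + P.del) ≤ 1 / 4 * (1 + P.del) :=
          mul_le_mul_of_nonneg_right he4 (by linarith)
      _ ≤ 1 / 2 := by linarith

theorem gf_pos (P : Par n k) {y : Finset (Fin n) → ℝ} (hy : ∀ A ∈ KS n k, 0 ≤ y A)
    (hG : ∀ i (U : Finset (Fin n)), k + i * P.j ≤ U.card → S n k y U ≤ P.L i)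
    {A : Finset (Fin n)} (hA : A ∈ KS n k) : 0 < gf n k P.e y A := by
  obtain ⟨h0, h1, h2⟩ := x_bounds P hy hG hA
  unfold gf
  exact one_div_pos.mpr (by linarith)

theorem gf_le (P : Par n k) {y : Finset (Fin n) → ℝ} (hy : ∀ A ∈ KS n k, 0 ≤ y A)
    (hG : ∀ i (U : Finset (Fin n)), k + i * P.j ≤ U.card → S n k y U ≤ P.L i)
    {A : Finset (Fin n)} (hA : A ∈ KS n k) :
    gf n k P.e y A ≤ Real.exp ((1 + 2 * P.del) * P.e) := by
  obtain ⟨h0, h1, h2⟩ := x_bounds P hy hG hA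
  unfold gf
  refine (inv_one_sub_le_exp h0 (h1.trans h2)).trans (Real.exp_le_exp.mpr ?_)
  set x := P.e * S n k y A / DD n k with hx
  have he := P.he
  have hd := P.hdel
  have hd2 := P.hdel2
  have h3 := P.e_del
  have hw0 : 0 ≤ P.e * (1 + P.del) := by positivity
  have h4 : x ^ 2 ≤ (P.e * (1 + P.del)) ^ 2 := pow_le_pow_left₀ h0 h1 2
  have h5 : (1 + P.del) ^ 2 ≤ 3 := by nlinarith
  have h6 : (P.e * (1 + P.del)) ^ 2 ≤ P.e * P.del := by
    calc (P.e * (1 + P.del)) ^ 2 = P.e * (P.e * (1 + P.del) ^ 2) := by ring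
      _ ≤ P.e * (P.e * 3) := by
          refine mul_le_mul_of_nonneg_left ?_ he.le
          exact mul_le_mul_of_nonneg_left h5 he.le
      _ ≤ P.e * P.del := mul_le_mul_of_nonneg_left (by linarith) he.le
  nlinarith

theorem le_gf (P : Par n k) {y : Finset (Fin n) → ℝ} (hy : ∀ A ∈ KS n k, 0 ≤ y A)
    (hG : ∀ i (U : Finset (Fin n)), k + i * P.j ≤ U.card → S n k y U ≤ P.L i)
    {A : Finset (Fin n)} (hA : A ∈ KS n k) (hlow : (1 - P.del) * DD n k ≤ S n k y A) :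
    Real.exp ((1 - P.del) * P.e) ≤ gf n k P.e y A := by
  obtain ⟨h0, h1, h2⟩ := x_bounds P hy hG hA
  have hD := P.D_pos
  have he := P.he
  unfold gf
  refine (Real.exp_le_exp.mpr ?_).trans (exp_le_inv_one_sub (h1.trans h2))
  rw [le_div_iff₀ hD]
  calc (1 - P.del) * P.e * DD n k = P.e * ((1 - P.del) * DD n k) := by ring
    _ ≤ P.e * S n k y A := mul_le_mul_of_nonneg_left hlow he.le

end Pool.Agent.H70.KG
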