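import Pool.Agent.H70.KG.ST
import Pool.Agent.H70.KG.GF

/-!
# [H70 KG IN] the process

inv_zero: y = 1, C empty. All S 1 U = C(n - |U|, k) (S_one), S 1 T = DD for T in KS, so every term of
Phi is exp 0 = 1 and there are at most 2^n + 2^n terms.

inv_step: hG from gen_bound, choose by good_choice.
(nothing chosen) new weights up0, same C. nonneg, dead: clear (gf_pos). ymax: y A gf A <=
exp ((1+2 del) e t) exp ((1+2 del) e) (gf_le). alive: T alive and not near C: y T >= exp ((1-del) e t),
low_bound gives (1-del) DD <= S y T, le_gf. phi: clear. card: C.card <= t <= t+1.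
(B chosen, y B > 0) new weights up B, new set insert B C. B meets all members of C (otherwise y B = 0 by
dead) and B is nonempty (k >= 1), so insert B C is intersecting. dead: if A is disjoint from B the new
weight is 0 by definition. alive: T not disjoint from any member of insert B C, T not near insert B C:
so T is alive and not near for C, and the new weight is y T * gf T. ymax: the new weight is 0 or
y A * gf A.
-/

namespace Pool.Agent.H70.KG

open Finset

variable {n k : ℕ}

theorem inv_zero (P : Par n k) : Inv P 0 (fun _ => 1) ∅ := by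
  have hc0 : P.c * (P.e * ((0 : ℕ) : ℝ)) = 0 := by
    rw [Nat.cast_zero, mul_zero, mul_zero]
  refine ⟨fun A _ => zero_le_one, ?_, empty_subset _, ⟨?_, ?_⟩, ?_, ?_, ?_, ?_⟩
  · rintro A _ ⟨B, hB, -⟩
    exact absurd hB (notMem_empty B)
  · intro A hA
    exact absurd hA (notMem_empty A)
  · intro A hA
    exact absurd hA (notMem_empty A)
  · rw [card_empty]
  · intro A _
    rw [Nat.cast_zero, mul_zero, mul_zero, Real.exp_zero]
  · intro T _ _ _
    rw [Nat.cast_zero, mul_zero, mul_zero, Real.exp_zero]
  · classical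
    have hun : (univ : Finset (Finset (Fin n))).card = 2 ^ n := by
      rw [card_univ, Fintype.card_finset, Fintype.card_fin]
    unfold Par.Phi
    have h1 : ∀ U ∈ P.ctrl, Real.exp (P.a / P.L (P.lev U) *
        (S n k (fun _ => 1) U - ((n - U.card).choose k : ℝ)) - P.c * (P.e * ((0 : ℕ) : ℝ))) = 1 := by
      intro U _
      rw [S_one, sub_self, mul_zero, hc0, sub_zero, Real.exp_zero]
    have h2 : ∀ T ∈ KS n k, Real.exp (-(P.a / (2 * DD n k)) *
        (S n k (fun _ => 1) T - DD n k) - P.c * (P.e * ((0 : ℕ) : ℝ))) = 1 := by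
      intro T hT
      have h3 : T.card = k := (mem_powersetCard.1 hT).2
      rw [S_one, h3]
      unfold DD
      rw [sub_self, mul_zero, hc0, sub_zero, Real.exp_zero]
    rw [sum_congr rfl h1, sum_congr rfl (fun T hT => h2 T (mem_filter.1 hT).1), sum_const,
      sum_const, nsmul_eq_mul, nsmul_eq_mul, mul_one, mul_one]
    have h4 : P.ctrl.card ≤ 2 ^ n := by
      rw [← hun]
      exact card_le_card (subset_univ _)
    have h5 : ((KS n k).filter (fun T => ¬ NearC P.j ∅ T)).card ≤ 2 ^ n := by
      rw [← hun]
      exact card_le_card (subset_univ _)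
    have h6 : (P.ctrl.card : ℝ) ≤ 2 ^ n := by exact_mod_cast h4
    have h7 : ((((KS n k).filter (fun T => ¬ NearC P.j ∅ T)).card : ℕ) : ℝ) ≤ 2 ^ n := by
      exact_mod_cast h5
    rw [pow_succ]
    linarith

theorem inv_step (P : Par n k) {t : ℕ} (ht : t < P.tau) {y : Finset (Fin n) → ℝ}
    {C : Finset (Finset (Fin n))} (h : Inv P t y C) : ∃ y' C', Inv P (t + 1) y' C' := by
  classical
  have hG : ∀ i (U : Finset (Fin n)), k + i * P.j ≤ U.card → S n k y U ≤ P.L i :=
    fun i U hU => gen_bound P ht.le h.nonneg h.ymax h.phi i U hU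
  have hgp : ∀ A ∈ KS n k, 0 < gf n k P.e y A := fun A hA => gf_pos P h.nonneg hG hA
  have hmax : ∀ A ∈ KS n k, y A * gf n k P.e y A ≤
      Real.exp ((1 + 2 * P.del) * (P.e * ((t + 1 : ℕ) : ℝ))) := by
    intro A hA
    have h1 := mul_le_mul (h.ymax A hA) (gf_le P h.nonneg hG hA) (hgp A hA).le
      (Real.exp_pos _).le
    rw [← Real.exp_add] at h1
    refine h1.trans (le_of_eq ?_)
    congr 1
    push_cast
    ring
  have halive : ∀ T ∈ KS n k, (∀ B ∈ C, ¬ Disjoint T B) → ¬ NearC P.j C T →
      Real.exp ((1 - P.del) * (P.e * ((t + 1 : ℕ) : ℝ))) ≤ y T * gf n k P.e y T := by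
    intro T hT h1 h2
    have h3 := h.alive T hT h1 h2
    have h4 := le_gf P h.nonneg hG hT (low_bound P ht.le h.phi hT h2)
    have h5 := mul_le_mul h3 h4 (Real.exp_pos _).le ((Real.exp_pos _).le.trans h3)
    rw [← Real.exp_add] at h5
    refine (le_of_eq ?_).trans h5
    congr 1
    push_cast
    ring
  rcases good_choice P t (C := C) h.nonneg hG with hc | ⟨B, hB, hyB, hc⟩
  · refine ⟨up0 n k P.e y, C, ?_, ?_, h.sub, h.int, ?_, ?_, ?_, hc.trans h.phi⟩
    · intro A hA
      exact mul_nonneg (h.nonneg A hA) (hgp A hA).le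
    · intro A hA hd
      show y A * gf n k P.e y A = 0
      rw [h.dead A hA hd, zero_mul]
    · exact h.card.trans (Nat.le_succ t)
    · exact hmax
    · exact halive
  · have hBC : ∀ A ∈ C, ¬ Disjoint B A := by
      intro A hA hd
      have := h.dead B hB ⟨A, hA, hd⟩
      rw [this] at hyB
      exact lt_irrefl _ hyB
    have hBk : B.card = k := (mem_powersetCard.1 hB).2
    refine ⟨up n k P.e y B, insert B C, ?_, ?_, insert_subset hB h.sub, ⟨?_, ?_⟩, ?_, ?_, ?_,
      hc.trans h.phi⟩
    · intro A hA
      show 0 ≤ (if Disjoint A B then 0 else y A * gf n k P.e y A)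
      split_ifs
      · exact le_rfl
      · exact mul_nonneg (h.nonneg A hA) (hgp A hA).le
    · rintro A hA ⟨B', hB', hd⟩
      show (if Disjoint A B then 0 else y A * gf n k P.e y A) = 0
      rcases mem_insert.1 hB' with rfl | hB'
      · rw [if_pos hd]
      · rw [h.dead A hA ⟨B', hB', hd⟩, zero_mul, ite_self]
    · intro A hA
      rcases mem_insert.1 hA with rfl | hA
      · exact hBk
      · exact h.int.1 A hA
    · intro A hA A' hA'
      rcases mem_insert.1 hA with hA1 | hA1
      · rcases mem_insert.1 hA' with hA2 | hA2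
        · rw [hA1, hA2, inter_self, ← card_pos, hBk]
          exact P.hk
        · rw [hA1]
          exact not_disjoint_iff_nonempty_inter.1 (hBC A' hA2)
      · rcases mem_insert.1 hA' with hA2 | hA2
        · rw [hA2, inter_comm]
          exact not_disjoint_iff_nonempty_inter.1 (hBC A hA1)
        · exact h.int.2 A hA1 A' hA2
    · exact (card_insert_le _ _).trans (Nat.succ_le_succ h.card)
    · intro A hA
      show (if Disjoint A B then 0 else y A * gf n k P.e y A) ≤ _
      split_ifs
      · exact (Real.exp_pos _).le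
      · exact hmax A hA
    · intro T hT h1 h2
      show _ ≤ (if Disjoint T B then 0 else y T * gf n k P.e y T)
      rw [if_neg (h1 B (mem_insert_self _ _))]
      refine halive T hT (fun B' hB' => h1 B' (mem_insert_of_mem hB')) ?_
      rintro ⟨B', hB', hlt⟩
      exact h2 ⟨B', mem_insert_of_mem hB', hlt⟩

theorem inv_all (P : Par n k) : ∀ t ≤ P.tau, ∃ y C, Inv P t y C := by
  intro t
  induction t with
  | zero => intro _; exact ⟨_, _, inv_zero P⟩
  | succ t ih =>
    intro ht
    obtain ⟨y, C, h⟩ := ih (by omega)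
    exact inv_step P (by omega) h

end Pool.Agent.H70.KG
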