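import Mathlib

/-!
# [H70 KG LI] the k-th root of C(ck,k) / C((c-1)k,k)
-/

namespace Pool.Agent.H70.KG

open Filter Topology

theorem log_fact_lim (m : ℕ) :
    Tendsto (fun k : ℕ => Real.log ((m * k).factorial : ℝ) / k - m * Real.log k) atTop
      (𝓝 (m * Real.log m - m)) := by
  rcases Nat.eq_zero_or_pos m with rfl | hm
  · simp
  · have hmR : (0 : ℝ) < m := by exact_mod_cast hm
    have hstir : Tendsto (fun k : ℕ => Real.log (Stirling.stirlingSeq (m * k))) atTop
        (𝓝 (Real.log (Real.sqrt Real.pi))) := by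
      have h1 : Tendsto (fun k : ℕ => m * k) atTop atTop :=
        tendsto_id.const_mul_atTop' hm
      have h2 := Stirling.tendsto_stirlingSeq_sqrt_pi.comp h1
      exact h2.log (by positivity)
    have h3 : Tendsto (fun k : ℕ => Real.log (Stirling.stirlingSeq (m * k)) / k) atTop (𝓝 0) :=
      hstir.div_atTop tendsto_natCast_atTop_atTop
    have h4 : Tendsto (fun k : ℕ => (1 / 2 * Real.log (2 * m * k)) / k) atTop (𝓝 0) := by
      have h5 : Tendsto (fun x : ℝ => Real.log x / x) atTop (𝓝 0) := by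
        have := Real.isLittleO_log_id_atTop.tendsto_div_nhds_zero
        simpa using this
      have h6 : Tendsto (fun k : ℕ => (2 * m * k : ℝ)) atTop atTop :=
        tendsto_natCast_atTop_atTop.const_mul_atTop (by positivity)
      have h7 := (h5.comp h6).const_mul (m : ℝ)
      simp only [mul_zero] at h7
      refine h7.congr' ?_
      filter_upwards [eventually_gt_atTop 0] with k hk
      have hkR : (0 : ℝ) < k := by exact_mod_cast hk
      simp only [Function.comp]
      field_simp
    have h8 := (h3.add h4).add_const (m * Real.log m - m : ℝ)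
    simp only [zero_add] at h8
    refine h8.congr' ?_
    filter_upwards [eventually_gt_atTop 0] with k hk
    have hkR : (0 : ℝ) < k := by exact_mod_cast hk
    have h9 := Stirling.log_stirlingSeq_formula (m * k)
    have h10 : Real.log (((m * k : ℕ) : ℝ) / Real.exp 1) = Real.log m + Real.log k - 1 := by
      rw [Real.log_div (by positivity) (Real.exp_ne_zero 1), Real.log_exp]
      push_cast
      rw [Real.log_mul hmR.ne' hkR.ne']
    rw [h10] at h9
    have h11 : Real.log (2 * ((m * k : ℕ) : ℝ)) = Real.log (2 * m * k) := by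
      push_cast
      congr 1
      ring
    rw [h11] at h9
    have h12 : Real.log ((m * k).factorial : ℝ) = Real.log (Stirling.stirlingSeq (m * k)) +
        1 / 2 * Real.log (2 * m * k) + ((m * k : ℕ) : ℝ) * (Real.log m + Real.log k - 1) := by
      rw [h9]
      ring
    rw [h12]
    push_cast
    field_simp
    ring

/-- Logarithm of a binomial coefficient. -/
theorem log_choose_lim (a b : ℕ) :
    Tendsto (fun k : ℕ => Real.log ((((a + b) * k).choose (a * k) : ℕ) : ℝ) / k) atTop
      (𝓝 (((a + b : ℕ) : ℝ) * Real.log ((a + b : ℕ) : ℝ) - a * Real.log a - b * Real.log b)) := by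
  have h1 := ((log_fact_lim (a + b)).sub (log_fact_lim a)).sub (log_fact_lim b)
  have h2 : ((a + b : ℕ) : ℝ) * Real.log ((a + b : ℕ) : ℝ) - ((a + b : ℕ) : ℝ) -
      (a * Real.log a - a) - (b * Real.log b - b) =
      ((a + b : ℕ) : ℝ) * Real.log ((a + b : ℕ) : ℝ) - a * Real.log a - b * Real.log b := by
    push_cast
    ring
  rw [h2] at h1
  refine h1.congr fun k => ?_
  have h3 : ((a + b) * k).choose (a * k) * (a * k).factorial * (b * k).factorial =
      ((a + b) * k).factorial := by
    have h4 := Nat.choose_mul_factorial_mul_factorial (n := (a + b) * k) (k := a * k)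
      (Nat.mul_le_mul_right _ (by omega))
    have h5 : (a + b) * k - a * k = b * k := by
      rw [add_mul]
      omega
    rw [h5] at h4
    exact h4
  have h6 : Real.log (((a + b) * k).factorial : ℝ) =
      Real.log ((((a + b) * k).choose (a * k) : ℕ) : ℝ) + Real.log ((a * k).factorial : ℝ) +
        Real.log ((b * k).factorial : ℝ) := by
    rw [← h3]
    push_cast
    have hc : ((((a + b) * k).choose (a * k) : ℕ) : ℝ) ≠ 0 := by
      have : 0 < ((a + b) * k).choose (a * k) :=
        Nat.choose_pos (Nat.mul_le_mul_right _ (by omega))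
      exact_mod_cast this.ne'
    have hf1 : ((a * k).factorial : ℝ) ≠ 0 := by exact_mod_cast Nat.factorial_ne_zero _
    have hf2 : ((b * k).factorial : ℝ) ≠ 0 := by exact_mod_cast Nat.factorial_ne_zero _
    rw [Real.log_mul (mul_ne_zero hc hf1) hf2, Real.log_mul hc hf1]
  rw [h6]
  push_cast
  ring

theorem err_lim (c : ℕ) :
    Tendsto (fun k : ℕ => 30 * (((c * k : ℕ) : ℝ) / Real.sqrt k *
      Real.log ((c * k : ℕ) : ℝ) ^ 2) / k) atTop (𝓝 0) := by
  rcases Nat.eq_zero_or_pos c with rfl | hc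
  · simp
  · have hcR : (0 : ℝ) < c := by exact_mod_cast hc
    have h5 : Tendsto (fun x : ℝ => Real.log x ^ 2 / x ^ (1 / 2 : ℝ)) atTop (𝓝 0) := by
      have h := isLittleO_log_rpow_rpow_atTop (s := 1 / 2) 2 (by norm_num : (0 : ℝ) < 1 / 2)
      have h' := h.tendsto_div_nhds_zero
      refine h'.congr' ?_
      filter_upwards [eventually_gt_atTop 0] with x hx
      rw [Real.rpow_two]
    have h6 : Tendsto (fun k : ℕ => ((c * k : ℕ) : ℝ)) atTop atTop := by
      have h1 : Tendsto (fun k : ℕ => c * k) atTop atTop := tendsto_id.const_mul_atTop' hc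
      exact tendsto_natCast_atTop_atTop.comp h1
    have h7 := (h5.comp h6).const_mul (30 * c * Real.sqrt c)
    simp only [mul_zero] at h7
    refine h7.congr' ?_
    filter_upwards [eventually_gt_atTop 0] with k hk
    have hkR : (0 : ℝ) < k := by exact_mod_cast hk
    simp only [Function.comp]
    rw [← Real.sqrt_eq_rpow]
    push_cast
    rw [Real.sqrt_mul hcR.le]
    have hs1 : Real.sqrt c ≠ 0 := (Real.sqrt_pos.mpr hcR).ne'
    have hs2 : Real.sqrt k ≠ 0 := (Real.sqrt_pos.mpr hkR).ne'
    field_simp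

/-- The k-th root. -/
theorem root_lim (c : ℕ) (hc : 2 ≤ c) (f : ℕ → ℝ)
    (h1 : ∀ᶠ k : ℕ in atTop, ((c * k).choose k : ℝ) / (1 + ((c * k - k).choose k : ℝ)) ≤ f k)
    (h2 : ∀ᶠ k : ℕ in atTop, f k ≤ ((c * k).choose k : ℝ) / ((c * k - k).choose k : ℝ) *
      Real.exp (30 * (((c * k : ℕ) : ℝ) / Real.sqrt k * Real.log ((c * k : ℕ) : ℝ) ^ 2))) :
    Tendsto (fun k : ℕ => f k ^ (1 / (k : ℝ))) atTop
      (𝓝 ((c : ℝ) ^ c * ((c : ℝ) - 2) ^ (c - 2) / ((c : ℝ) - 1) ^ (2 * (c - 1)))) := by
  obtain ⟨b, rfl⟩ : ∃ b, c = b + 2 := ⟨c - 2, by omega⟩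
  -- logarithmic limits
  have hN := log_choose_lim 1 (b + 1)
  have hD := log_choose_lim 1 b
  have hsub : ∀ k : ℕ, (b + 2) * k - k = (1 + b) * k := by
    intro k
    have : (b + 2) * k = (1 + b) * k + k := by ring
    omega
  have e1 : ∀ k : ℕ, (1 + (b + 1)) * k = (b + 2) * k := by
    intro k
    ring
  simp only [e1, one_mul] at hN
  simp only [one_mul] at hD
  set ell : ℝ := (((1 + (b + 1) : ℕ) : ℝ) * Real.log ((1 + (b + 1) : ℕ) : ℝ) -
    ((1 : ℕ) : ℝ) * Real.log ((1 : ℕ) : ℝ) - ((b + 1 : ℕ) : ℝ) * Real.log ((b + 1 : ℕ) : ℝ)) -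
    (((1 + b : ℕ) : ℝ) * Real.log ((1 + b : ℕ) : ℝ) -
    ((1 : ℕ) : ℝ) * Real.log ((1 : ℕ) : ℝ) - (b : ℝ) * Real.log (b : ℝ)) with hell
  have hdiff := hN.sub hD
  have hlow : Tendsto (fun k : ℕ => Real.log ((((b + 2) * k).choose k : ℕ) : ℝ) / k -
      Real.log ((((1 + b) * k).choose k : ℕ) : ℝ) / k - Real.log 2 / k) atTop (𝓝 ell) := by
    have h3 : Tendsto (fun k : ℕ => Real.log 2 / (k : ℝ)) atTop (𝓝 0) :=
      tendsto_const_nhds.div_atTop tendsto_natCast_atTop_atTop
    have := hdiff.sub h3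
    rw [sub_zero] at this
    exact this
  have hupp : Tendsto (fun k : ℕ => Real.log ((((b + 2) * k).choose k : ℕ) : ℝ) / k -
      Real.log ((((1 + b) * k).choose k : ℕ) : ℝ) / k +
      30 * ((((b + 2) * k : ℕ) : ℝ) / Real.sqrt k *
      Real.log (((b + 2) * k : ℕ) : ℝ) ^ 2) / k) atTop (𝓝 ell) := by
    have := hdiff.add (err_lim (b + 2))
    rw [add_zero] at this
    exact this
  have hposN : ∀ k : ℕ, (0 : ℝ) < ((((b + 2) * k).choose k : ℕ) : ℝ) := by
    intro k
    have : 0 < ((b + 2) * k).choose k := Nat.choose_pos (by nlinarith)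
    exact_mod_cast this
  have hposD : ∀ k : ℕ, (1 : ℝ) ≤ ((((1 + b) * k).choose k : ℕ) : ℝ) := by
    intro k
    have : 0 < ((1 + b) * k).choose k := Nat.choose_pos (by nlinarith)
    exact_mod_cast this
  have hfpos : ∀ᶠ k : ℕ in atTop, 0 < f k := by
    filter_upwards [h1] with k hk
    refine lt_of_lt_of_le ?_ hk
    have := hposN k
    positivity
  have hmid : Tendsto (fun k : ℕ => Real.log (f k) / k) atTop (𝓝 ell) := by
    refine tendsto_of_tendsto_of_tendsto_of_le_of_le' hlow hupp ?_ ?_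
    · filter_upwards [h1, eventually_gt_atTop 0] with k hk hk0
      have hkR : (0 : ℝ) < k := by exact_mod_cast hk0
      rw [hsub k] at hk
      have hp1 := hposN k
      have hp2 := hposD k
      have h4 : Real.log ((((b + 2) * k).choose k : ℕ) : ℝ) -
          Real.log ((((1 + b) * k).choose k : ℕ) : ℝ) - Real.log 2 ≤ Real.log (f k) := by
        rw [← Real.log_div hp1.ne' (by positivity), ← Real.log_div (by positivity) (by norm_num)]
        refine Real.log_le_log (by positivity) (le_trans ?_ hk)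
        rw [div_div]
        exact div_le_div_of_nonneg_left hp1.le (by positivity) (by linarith)
      calc Real.log ((((b + 2) * k).choose k : ℕ) : ℝ) / k -
            Real.log ((((1 + b) * k).choose k : ℕ) : ℝ) / k - Real.log 2 / k
          = (Real.log ((((b + 2) * k).choose k : ℕ) : ℝ) -
            Real.log ((((1 + b) * k).choose k : ℕ) : ℝ) - Real.log 2) / k := by ring
        _ ≤ Real.log (f k) / k := div_le_div_of_nonneg_right h4 hkR.le
    · filter_upwards [h2, hfpos, eventually_gt_atTop 0] with k hk hf hk0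
      have hkR : (0 : ℝ) < k := by exact_mod_cast hk0
      rw [hsub k] at hk
      have hp1 := hposN k
      have hp2 := hposD k
      have h4 := Real.log_le_log hf hk
      rw [Real.log_mul (by positivity) (Real.exp_ne_zero _), Real.log_exp,
        Real.log_div hp1.ne' (by positivity)] at h4
      calc Real.log (f k) / k ≤ (Real.log ((((b + 2) * k).choose k : ℕ) : ℝ) -
            Real.log ((((1 + b) * k).choose k : ℕ) : ℝ) +
            30 * ((((b + 2) * k : ℕ) : ℝ) / Real.sqrt k *
              Real.log (((b + 2) * k : ℕ) : ℝ) ^ 2)) / k :=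
            div_le_div_of_nonneg_right h4 hkR.le
        _ = _ := by ring
  have hexp := (Real.continuous_exp.tendsto ell).comp hmid
  have hval : Real.exp ell = ((b + 2 : ℕ) : ℝ) ^ (b + 2) * (((b + 2 : ℕ) : ℝ) - 2) ^ (b + 2 - 2) /
      (((b + 2 : ℕ) : ℝ) - 1) ^ (2 * (b + 2 - 1)) := by
    have g1 : ((b + 2 : ℕ) : ℝ) - 2 = (b : ℝ) := by push_cast; ring
    have g2 : ((b + 2 : ℕ) : ℝ) - 1 = ((b + 1 : ℕ) : ℝ) := by push_cast; ring
    have g3 : b + 2 - 2 = b := by omega
    have g4 : b + 2 - 1 = b + 1 := by omega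
    rw [g1, g2, g3, g4]
    have key : ∀ m : ℕ, Real.exp ((m : ℝ) * Real.log m) = (m : ℝ) ^ m := by
      intro m
      rcases Nat.eq_zero_or_pos m with rfl | hm
      · simp
      · have hmR : (0 : ℝ) < m := by exact_mod_cast hm
        rw [Real.exp_nat_mul, Real.exp_log hmR]
    have g5 : ell = ((b + 2 : ℕ) : ℝ) * Real.log ((b + 2 : ℕ) : ℝ) +
        (b : ℝ) * Real.log (b : ℝ) - (((b + 1 : ℕ) : ℝ) * Real.log ((b + 1 : ℕ) : ℝ) +
          ((b + 1 : ℕ) : ℝ) * Real.log ((b + 1 : ℕ) : ℝ)) := by
      rw [hell, show 1 + (b + 1) = b + 2 by ring, show 1 + b = b + 1 by ring]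
      simp
      ring
    rw [g5, Real.exp_sub, Real.exp_add, Real.exp_add, key, key, key, two_mul, ← pow_add]
  rw [hval] at hexp
  refine hexp.congr' ?_
  filter_upwards [hfpos, eventually_gt_atTop 0] with k hf hk0
  simp only [Function.comp]
  rw [Real.rpow_def_of_pos hf]
  congr 1
  ring

end Pool.Agent.H70.KG
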