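import Pool.Agent.H70.KG.SB

/-!
# [H70 KG MZ] the sums S U are martingales

S (up B) U = S up0 U - (sum over A in KS disjoint from U and disjoint from B of y A * gf A).
So the left side is (S up0 U - S y U) * (sum of pr + pr0) - sum over B of pr B * (that sum)
= (S up0 U - S y U) - sum over A disjoint from U of y A * gf A * (sum over B disjoint from A of pr B)
= sum over A disjoint from U of (y A * gf A - y A - y A * gf A * (e * S y A / D)) = 0,
because gf A * (1 - e * S y A / D) = 1.
-/

namespace Pool.Agent.H70.KG

open Finset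

theorem S_up {n k : ℕ} {e : ℝ} (y : Finset (Fin n) → ℝ) (U B : Finset (Fin n)) :
    S n k (up n k e y B) U = S n k (up0 n k e y) U -
      ∑ A ∈ (KS n k).filter (fun A => Disjoint A (U ∪ B)), y A * gf n k e y A := by
  have h : (KS n k).filter (fun A => Disjoint A (U ∪ B)) =
      ((KS n k).filter (fun A => Disjoint A U)).filter (fun A => Disjoint A B) := by
    ext A
    simp only [mem_filter, disjoint_union_right]
    tauto
  rw [h, Finset.sum_filter (p := fun A => Disjoint A B)]
  simp only [S, up, up0]
  rw [← Finset.sum_sub_distrib]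
  refine sum_congr rfl fun A _ => ?_
  by_cases hd : Disjoint A B <;> simp [hd]

theorem mean_zero {n k : ℕ} {e : ℝ} {y : Finset (Fin n) → ℝ}
    (hA : ∀ A ∈ KS n k, e * S n k y A / DD n k ≠ 1) (U : Finset (Fin n)) :
    ∑ B ∈ KS n k, pr n k e y B * (S n k (up n k e y B) U - S n k y U) +
      pr0 n k e y * (S n k (up0 n k e y) U - S n k y U) = 0 := by
  have hW : ∑ B ∈ KS n k, pr n k e y B *
      ∑ A ∈ (KS n k).filter (fun A => Disjoint A (U ∪ B)), y A * gf n k e y A =
      ∑ A ∈ (KS n k).filter (fun A => Disjoint A U),
        y A * gf n k e y A * (e * S n k y A / DD n k) := by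
    have h1 : ∀ B ∈ KS n k, pr n k e y B *
        ∑ A ∈ (KS n k).filter (fun A => Disjoint A (U ∪ B)), y A * gf n k e y A =
        ∑ A ∈ (KS n k).filter (fun A => Disjoint A U),
          if Disjoint A B then pr n k e y B * (y A * gf n k e y A) else 0 := by
      intro B _
      rw [← Finset.sum_filter, mul_sum]
      refine sum_congr ?_ fun A _ => rfl
      ext A
      simp only [mem_filter, disjoint_union_right]
      tauto
    rw [sum_congr rfl h1, sum_comm]
    refine sum_congr rfl fun A _ => ?_
    rw [← Finset.sum_filter]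
    have h2 : S n k y A = ∑ B ∈ (KS n k).filter (fun B => Disjoint A B), y B := by
      unfold S
      refine sum_congr ?_ fun _ _ => rfl
      ext B
      simp only [mem_filter, disjoint_comm]
    rw [h2]
    simp only [pr]
    rw [mul_sum, sum_div, mul_sum]
    refine sum_congr rfl fun B _ => ?_
    ring
  have hX : S n k (up0 n k e y) U - S n k y U =
      ∑ A ∈ (KS n k).filter (fun A => Disjoint A U),
        y A * gf n k e y A * (e * S n k y A / DD n k) := by
    unfold S
    rw [← sum_sub_distrib]
    refine sum_congr rfl fun A hA' => ?_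
    have h3 := hA A (mem_filter.1 hA').1
    have h4 : 1 - e * S n k y A / DD n k ≠ 0 := fun h => h3 (by linarith)
    have h5 : gf n k e y A * (1 - e * S n k y A / DD n k) = 1 := by
      unfold gf
      rw [one_div, inv_mul_cancel₀ h4]
    have h6 : ∑ A_1 ∈ (KS n k).filter (fun A_1 => Disjoint A_1 A), y A_1 = S n k y A := rfl
    rw [h6]
    simp only [up0]
    linear_combination y A * h5
  have h7 : ∀ B ∈ KS n k, pr n k e y B * (S n k (up n k e y B) U - S n k y U) =
      pr n k e y B * (S n k (up0 n k e y) U - S n k y U) - pr n k e y B *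
        ∑ A ∈ (KS n k).filter (fun A => Disjoint A (U ∪ B)), y A * gf n k e y A := by
    intro B _
    rw [S_up]
    ring
  rw [sum_congr rfl h7, sum_sub_distrib, hW, ← sum_mul, ← hX]
  unfold pr0
  ring

end Pool.Agent.H70.KG
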