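import Pool.Agent.H70.KG.SB

/-!
# [H70 KG NR] the weight of the sets near U

If (B \ U).card < j and U.card + j <= n, there is R disjoint from U (R inside the complement of U)
with R.card = j and B \ U contained in R (extend B \ U inside the complement of U,
Finset.exists_subsuperset_card_eq or similar). Then B is disjoint from V = univ \ (U u R), and
V.card = n - U.card - j. So the sum over the near B is at most the sum over all R in
powersetCard j of the complement of U of S V_R, at most C(n - |U|, j) * L <= n^j * L
(Nat.choose_le_pow or the elementary bound C(N,j) <= N^j). Needs 0 <= L: this follows from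
S_nonneg if some V of the right size exists, which is the case.
-/

namespace Pool.Agent.H70.KG

open Finset

theorem near_sum {n k j : ℕ} {y : Finset (Fin n) → ℝ} (hy : ∀ A ∈ KS n k, 0 ≤ y A)
    (U : Finset (Fin n)) (hU : U.card + j ≤ n) {L : ℝ}
    (hL : ∀ V : Finset (Fin n), V.card = n - U.card - j → S n k y V ≤ L) :
    ∑ B ∈ (KS n k).filter (fun B => (B \ U).card < j), y B ≤ (n : ℝ) ^ j * L := by
  have hcU : Uᶜ.card = n - U.card := by rw [card_compl, Fintype.card_fin]
  have hV : ∀ R ∈ Uᶜ.powersetCard j, (U ∪ R)ᶜ.card = n - U.card - j := by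
    intro R hR
    obtain ⟨h1, h2⟩ := mem_powersetCard.1 hR
    have h3 : Disjoint U R := by
      rw [disjoint_left]
      intro x hx hx'
      exact (mem_compl.1 (h1 hx')) hx
    rw [card_compl, Fintype.card_fin, card_union_of_disjoint h3]
    omega
  have hne : (Uᶜ.powersetCard j).Nonempty := powersetCard_nonempty.2 (by rw [hcU]; omega)
  have hL0 : 0 ≤ L := by
    obtain ⟨R, hR⟩ := hne
    refine le_trans ?_ (hL _ (hV R hR))
    exact sum_nonneg fun A hA => hy A (mem_filter.1 hA).1
  have h1 : ∑ B ∈ (KS n k).filter (fun B => (B \ U).card < j), y B ≤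
      ∑ R ∈ Uᶜ.powersetCard j, S n k y (U ∪ R)ᶜ := by
    calc ∑ B ∈ (KS n k).filter (fun B => (B \ U).card < j), y B
        ≤ ∑ B ∈ (Uᶜ.powersetCard j).biUnion
            (fun R => (KS n k).filter (fun A => Disjoint A (U ∪ R)ᶜ)), y B := by
          refine sum_le_sum_of_subset_of_nonneg ?_ ?_
          · intro B hB
            obtain ⟨hB1, hB2⟩ := mem_filter.1 hB
            have h2 : B \ U ⊆ Uᶜ := by
              intro x hx
              exact mem_compl.2 (mem_sdiff.1 hx).2
            obtain ⟨R, hR1, hR2, hR3⟩ := exists_subsuperset_card_eq h2 hB2.le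
              (by rw [hcU]; omega)
            refine mem_biUnion.2 ⟨R, mem_powersetCard.2 ⟨hR2, hR3⟩,
              mem_filter.2 ⟨hB1, ?_⟩⟩
            rw [disjoint_left]
            intro x hx hx'
            rw [mem_compl, mem_union] at hx'
            apply hx'
            by_cases hxU : x ∈ U
            · exact Or.inl hxU
            · exact Or.inr (hR1 (mem_sdiff.2 ⟨hx, hxU⟩))
          · intro B hB _
            obtain ⟨R, _, hR⟩ := mem_biUnion.1 hB
            exact hy B (mem_filter.1 hR).1
      _ ≤ ∑ R ∈ Uᶜ.powersetCard j, S n k y (U ∪ R)ᶜ := by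
          classical
          have h5 : ∀ T : Finset (Finset (Fin n)), T ⊆ Uᶜ.powersetCard j →
              ∑ B ∈ T.biUnion (fun R => (KS n k).filter (fun A => Disjoint A (U ∪ R)ᶜ)), y B ≤
                ∑ R ∈ T, S n k y (U ∪ R)ᶜ := by
            intro T
            induction T using Finset.induction_on with
            | empty => intro _; simp
            | insert R T hRT ih =>
              intro hT
              rw [biUnion_insert, sum_insert hRT]
              have h6 := sum_union_inter (s₁ := (KS n k).filter (fun A => Disjoint A (U ∪ R)ᶜ))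
                (s₂ := T.biUnion (fun R => (KS n k).filter (fun A => Disjoint A (U ∪ R)ᶜ)))
                (f := y)
              have h7 : 0 ≤ ∑ x ∈ (KS n k).filter (fun A => Disjoint A (U ∪ R)ᶜ) ∩
                  T.biUnion (fun R => (KS n k).filter (fun A => Disjoint A (U ∪ R)ᶜ)), y x :=
                sum_nonneg fun A hA => hy A (mem_filter.1 (mem_inter.1 hA).1).1
              have h8 := ih ((subset_insert R T).trans hT)
              have h9 : ∑ x ∈ (KS n k).filter (fun A => Disjoint A (U ∪ R)ᶜ), y x =
                  S n k y (U ∪ R)ᶜ := rfl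
              linarith
          exact h5 _ (Subset.refl _)
  calc _ ≤ _ := h1
    _ ≤ ∑ R ∈ Uᶜ.powersetCard j, L := sum_le_sum fun R hR => hL _ (hV R hR)
    _ = ((Uᶜ.powersetCard j).card : ℝ) * L := by rw [sum_const, nsmul_eq_mul]
    _ ≤ (n : ℝ) ^ j * L := by
        refine mul_le_mul_of_nonneg_right ?_ hL0
        rw [card_powersetCard, hcU]
        have h3 : (n - U.card).choose j ≤ n ^ j :=
          (Nat.choose_le_pow _ j).trans (Nat.pow_le_pow_left (Nat.sub_le _ _) j)
        exact_mod_cast h3

end Pool.Agent.H70.KG
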