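import Pool.Agent.H70.KG.PK

/-!
# [H70 KG PE] size of e, delta, r

* DD > 0 and C(n,k) > 0 since k <= n - k. e > 0. D_le and k_sq: e <= exp (-k k / n) / 2 <=
  exp (-n^(3/5)) / 2 <= 1 / (512 (n+1)^3) (exp_big).
* delta = 1 / sqrt n, 0 < delta <= 1/8 <= 1/2 (n >= 64).
* hc: (4 (n+1)/delta)^2 = 16 (n+1)^2 n; for 0 <= s <= n:
  16 (n+1)^2 n (16 e + 3 r) s <= 16 (n+1)^4 (16 e + 3 r) <= (n+1) (1/2 + 48/100) <= n + 1.
* hae: 4 * 4 (n+1) sqrt n * e <= 16 (n+1)^2 / (512 (n+1)^3) <= 1. har similarly.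
-/

namespace Pool.Agent.H70.KG

variable {n k : ℕ}

theorem DD_pos' (h2 : 2 * k ≤ n) : 0 < DD n k := by
  unfold DD
  have : 0 < (n - k).choose k := Nat.choose_pos (by omega)
  exact_mod_cast this

theorem choose_pos' (h2 : 2 * k ≤ n) : (0 : ℝ) < (n.choose k : ℝ) := by
  have : 0 < n.choose k := Nat.choose_pos (by omega)
  exact_mod_cast this

theorem ee_pos (h2 : 2 * k ≤ n) : 0 < ee n k := by
  unfold ee
  have h3 := DD_pos' h2
  have h4 := choose_pos' h2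
  positivity

theorem ee_le (h : Facts n) (hk : (n : ℝ) ^ (4 / 5 : ℝ) ≤ k) (h2 : 2 * k ≤ n) :
    ee n k ≤ 1 / (512 * ((n : ℝ) + 1) ^ 3) := by
  have h3 := D_le n k (k_pos h hk)
  have h4 := choose_pos' h2
  have h5 := k_sq h hk
  have h6 := h.exp_big
  have hn : (0 : ℝ) < (n : ℝ) + 1 := by positivity
  have h7 : Real.exp (-((k : ℝ) * k / n)) ≤ Real.exp (-((n : ℝ) ^ (3 / 5 : ℝ))) :=
    Real.exp_le_exp.2 (by linarith)
  have h8 : Real.exp (-((n : ℝ) ^ (3 / 5 : ℝ))) ≤ 1 / (256 * ((n : ℝ) + 1) ^ 3) := by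
    rw [Real.exp_neg, ← one_div]
    exact one_div_le_one_div_of_le (by positivity) h6
  unfold ee
  rw [div_le_iff₀ (by positivity)]
  calc DD n k ≤ Real.exp (-((k : ℝ) * k / n)) * (n.choose k : ℝ) := h3
    _ ≤ 1 / (256 * ((n : ℝ) + 1) ^ 3) * (n.choose k : ℝ) :=
        mul_le_mul_of_nonneg_right (h7.trans h8) h4.le
    _ = 1 / (512 * ((n : ℝ) + 1) ^ 3) * (2 * (n.choose k : ℝ)) := by
        field_simp
        norm_num

theorem sqrt_n_ge (h : Facts n) : (8 : ℝ) ≤ Real.sqrt n := by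
  apply Real.le_sqrt_of_sq_le
  have := h.n_ge
  have h4 : (64 : ℝ) ≤ n := by exact_mod_cast this
  linarith

theorem dl_pos (h : Facts n) : 0 < dl n := by
  have := sqrt_n_ge h
  unfold dl
  positivity

theorem dl_le (h : Facts n) : dl n ≤ 1 / 2 := by
  have := sqrt_n_ge h
  unfold dl
  exact one_div_le_one_div_of_le (by norm_num) (by linarith)

theorem rr_pos (n : ℕ) : 0 < rr n := by
  unfold rr
  positivity

theorem div_dl (h : Facts n) : 4 * ((n : ℝ) + 1) / dl n = 4 * ((n : ℝ) + 1) * Real.sqrt n := by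
  have := sqrt_n_ge h
  unfold dl
  field_simp

theorem sqrt_n_le_n (h : Facts n) : Real.sqrt n ≤ (n : ℝ) + 1 := by
  have h1 := sqrt_n_ge h
  have h2 := Real.mul_self_sqrt (Nat.cast_nonneg n : (0 : ℝ) ≤ n)
  nlinarith

theorem hc_ok (h : Facts n) (hk : (n : ℝ) ^ (4 / 5 : ℝ) ≤ k) (h2 : 2 * k ≤ n) {s : ℝ}
    (hs0 : 0 ≤ s) (hs : s ≤ n) :
    (4 * ((n : ℝ) + 1) / dl n) ^ 2 * (16 * ee n k + 3 * rr n) * s ≤ n + 1 := by
  rw [div_dl h]
  have h1 := ee_le h hk h2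
  have h3 := ee_pos (k := k) h2
  have h4 := rr_pos n
  set N : ℝ := (n : ℝ) + 1 with hN
  have hN1 : 1 ≤ N := by rw [hN]; linarith [Nat.cast_nonneg (α := ℝ) n]
  have hN0 : 0 < N := by linarith
  have hsn : Real.sqrt n ^ 2 = n := Real.sq_sqrt (Nat.cast_nonneg n)
  have hnN : (n : ℝ) ≤ N := by rw [hN]; linarith
  have hn0 : (0 : ℝ) ≤ n := Nat.cast_nonneg n
  have h5 : 16 * ee n k + 3 * rr n ≤ (1 / 16) / N ^ 3 := by
    have h6 : 16 * ee n k ≤ (1 / 32) / N ^ 3 := by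
      calc 16 * ee n k ≤ 16 * (1 / (512 * N ^ 3)) := by linarith
        _ = (1 / 32) / N ^ 3 := by field_simp; norm_num
    have h7 : 3 * rr n = (3 / 100) / N ^ 3 := by
      unfold rr
      rw [← hN]
      field_simp
    have h8 : (3 / 100 : ℝ) / N ^ 3 ≤ (1 / 32) / N ^ 3 := by
      apply div_le_div_of_nonneg_right _ (by positivity)
      norm_num
    have h9 : (1 / 32 : ℝ) / N ^ 3 + (1 / 32) / N ^ 3 = (1 / 16) / N ^ 3 := by ring
    linarith
  have h10 : (4 * N * Real.sqrt n) ^ 2 = 16 * N ^ 2 * n := by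
    rw [mul_pow, mul_pow, hsn]
    ring
  rw [h10]
  have h11 : 16 * N ^ 2 * n * (16 * ee n k + 3 * rr n) * s ≤ 16 * N ^ 2 * N * ((1 / 16) / N ^ 3) * N := by
    apply mul_le_mul _ (hs.trans hnN) hs0 (by positivity)
    apply mul_le_mul _ h5 (by positivity) (by positivity)
    exact mul_le_mul_of_nonneg_left hnN (by positivity)
  refine h11.trans (le_of_eq ?_)
  field_simp

theorem hae_ok (h : Facts n) (hk : (n : ℝ) ^ (4 / 5 : ℝ) ≤ k) (h2 : 2 * k ≤ n) :
    4 * (4 * ((n : ℝ) + 1) / dl n) * ee n k ≤ 1 := by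
  rw [div_dl h]
  have h1 := ee_le h hk h2
  have h3 := ee_pos (k := k) h2
  have h4 := sqrt_n_le_n h
  set N : ℝ := (n : ℝ) + 1 with hN
  have hN1 : 1 ≤ N := by rw [hN]; linarith [Nat.cast_nonneg (α := ℝ) n]
  have hN0 : 0 < N := by linarith
  calc 4 * (4 * N * Real.sqrt n) * ee n k ≤ 4 * (4 * N * N) * (1 / (512 * N ^ 3)) := by
        apply mul_le_mul _ h1 h3.le (by positivity)
        have := mul_le_mul_of_nonneg_left h4 (show 0 ≤ 4 * N by positivity)
        linarith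
    _ = 1 / (32 * N) := by field_simp; norm_num
    _ ≤ 1 := by
        rw [div_le_one (by positivity)]
        linarith

theorem har_ok (h : Facts n) : (4 * ((n : ℝ) + 1) / dl n) * rr n ≤ 1 := by
  rw [div_dl h]
  have h4 := sqrt_n_le_n h
  unfold rr
  set N : ℝ := (n : ℝ) + 1 with hN
  have hN1 : 1 ≤ N := by rw [hN]; linarith [Nat.cast_nonneg (α := ℝ) n]
  have hN0 : 0 < N := by linarith
  calc 4 * N * Real.sqrt n * (1 / (100 * N ^ 3)) ≤ 4 * N * N * (1 / (100 * N ^ 3)) := by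
        apply mul_le_mul_of_nonneg_right _ (by positivity)
        exact mul_le_mul_of_nonneg_left h4 (by positivity)
    _ = 1 / (25 * N) := by field_simp; norm_num
    _ ≤ 1 := by
        rw [div_le_one (by positivity)]
        linarith

end Pool.Agent.H70.KG
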