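import Pool.Agent.H70.KG.PX

/-!
# [H70 KG PK] sizes of k, j, m, sigma

Hypotheses: Facts n, n^(4/5) <= k, 2k <= n. Write s = sqrt k, l = log n.
* s >= n^(2/5) >= 5, k s >= n^(6/5) = n * n^(1/5) (rpow_mul, monotone), k * k / n >= n^(3/5),
  s <= n / s (k <= n), sqrt n <= n / s.
* s <= j <= s + 1 <= 2 s.
* m <= 4 (n/k) l + 1 <= 5 (n/k) l, m + 1 <= 6 (n/k) l since (n/k) l >= 2; so
  (m+1) j <= 12 (n/k) l s = 12 (n/s) l  (k = s * s).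
* log (sigma): k j / (2 n) >= k s / (2 n) >= n^(1/5) / 2 >= 4 l >= log (1 / r). So sigma <= r.
* E = (n/s) l^2 >= (n/s) l >= n/s >= sqrt n >= 8.
-/

namespace Pool.Agent.H70.KG

variable {n k : ℕ}

theorem n_pos' (h : Facts n) : (0 : ℝ) < n := by
  have := h.n_ge
  have h2 : (64 : ℝ) ≤ n := by exact_mod_cast this
  linarith

theorem kreal_pos (h : Facts n) (hk : (n : ℝ) ^ (4 / 5 : ℝ) ≤ k) : (0 : ℝ) < k :=
  lt_of_lt_of_le (Real.rpow_pos_of_pos (n_pos' h) _) hk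

theorem k_pos (h : Facts n) (hk : (n : ℝ) ^ (4 / 5 : ℝ) ≤ k) : 1 ≤ k := by
  have := kreal_pos h hk
  have : 0 < k := by exact_mod_cast this
  omega

theorem sqrt_ge (h : Facts n) (hk : (n : ℝ) ^ (4 / 5 : ℝ) ≤ k) : (n : ℝ) ^ (2 / 5 : ℝ) ≤ Real.sqrt k := by
  have hn := n_pos' h
  apply Real.le_sqrt_of_sq_le
  rw [← Real.rpow_natCast, ← Real.rpow_mul hn.le]
  norm_num
  exact hk

theorem five_le_sqrt (h : Facts n) (hk : (n : ℝ) ^ (4 / 5 : ℝ) ≤ k) : 5 ≤ Real.sqrt k :=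
  h.five.trans (sqrt_ge h hk)

theorem k_sqrt (h : Facts n) (hk : (n : ℝ) ^ (4 / 5 : ℝ) ≤ k) :
    (n : ℝ) * (n : ℝ) ^ (1 / 5 : ℝ) ≤ k * Real.sqrt k := by
  have hn := n_pos' h
  have h1 : (n : ℝ) * (n : ℝ) ^ (1 / 5 : ℝ) = (n : ℝ) ^ (4 / 5 : ℝ) * (n : ℝ) ^ (2 / 5 : ℝ) := by
    rw [← Real.rpow_add hn]
    nth_rewrite 1 [← Real.rpow_one (n : ℝ)]
    rw [← Real.rpow_add hn]
    norm_num
  rw [h1]
  exact mul_le_mul hk (sqrt_ge h hk) (by positivity) (by positivity)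

theorem k_sq (h : Facts n) (hk : (n : ℝ) ^ (4 / 5 : ℝ) ≤ k) :
    (n : ℝ) ^ (3 / 5 : ℝ) ≤ (k : ℝ) * k / n := by
  have hn := n_pos' h
  rw [le_div_iff₀ hn]
  have h1 : (n : ℝ) ^ (3 / 5 : ℝ) * n = (n : ℝ) ^ (4 / 5 : ℝ) * (n : ℝ) ^ (4 / 5 : ℝ) := by
    rw [← Real.rpow_add hn]
    nth_rewrite 2 [← Real.rpow_one (n : ℝ)]
    rw [← Real.rpow_add hn]
    norm_num
  rw [h1]
  exact mul_le_mul hk hk (by positivity) (by positivity)

theorem k_le_n (h2 : 2 * k ≤ n) : (k : ℝ) ≤ n := by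
  have : k ≤ n := by omega
  exact_mod_cast this

theorem sqrt_le_div (h : Facts n) (hk : (n : ℝ) ^ (4 / 5 : ℝ) ≤ k) (h2 : 2 * k ≤ n) :
    Real.sqrt k ≤ (n : ℝ) / Real.sqrt k := by
  have hs : 0 < Real.sqrt k := Real.sqrt_pos.2 (kreal_pos h hk)
  rw [le_div_iff₀ hs, Real.mul_self_sqrt (Nat.cast_nonneg k)]
  exact k_le_n h2

theorem sqrt_n_le (h : Facts n) (hk : (n : ℝ) ^ (4 / 5 : ℝ) ≤ k) (h2 : 2 * k ≤ n) :
    Real.sqrt n ≤ (n : ℝ) / Real.sqrt k := by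
  have hs : 0 < Real.sqrt k := Real.sqrt_pos.2 (kreal_pos h hk)
  rw [le_div_iff₀ hs]
  calc Real.sqrt n * Real.sqrt k ≤ Real.sqrt n * Real.sqrt n :=
        mul_le_mul_of_nonneg_left (Real.sqrt_le_sqrt (k_le_n h2)) (Real.sqrt_nonneg _)
    _ = n := Real.mul_self_sqrt (Nat.cast_nonneg n)

theorem le_jj (k : ℕ) : Real.sqrt k ≤ jj k := Nat.le_ceil _

theorem jj_le (hk : 1 ≤ k) : (jj k : ℝ) ≤ 2 * Real.sqrt k := by
  have h1 : (jj k : ℝ) < Real.sqrt k + 1 := Nat.ceil_lt_add_one (Real.sqrt_nonneg _)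
  have h2 : 1 ≤ Real.sqrt k := by
    rw [Real.one_le_sqrt]
    exact_mod_cast hk
  linarith

theorem nk_log_ge (h : Facts n) (hk : (n : ℝ) ^ (4 / 5 : ℝ) ≤ k) (h2 : 2 * k ≤ n) :
    2 ≤ (n : ℝ) / k * Real.log n := by
  have hk0 := kreal_pos h hk
  have h3 : 2 ≤ (n : ℝ) / k := by
    rw [le_div_iff₀ hk0]
    exact_mod_cast h2
  nlinarith [h.log_ge]

theorem mm_le (h : Facts n) (hk : (n : ℝ) ^ (4 / 5 : ℝ) ≤ k) (h2 : 2 * k ≤ n) :
    (mm n k : ℝ) ≤ 5 * ((n : ℝ) / k) * Real.log n := by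
  have h3 := nk_log_ge h hk h2
  have h1 : (mm n k : ℝ) < 4 * ((n : ℝ) / k) * Real.log n + 1 := by
    apply Nat.ceil_lt_add_one
    rw [mul_assoc]
    linarith
  nlinarith

theorem mm_jj_le (h : Facts n) (hk : (n : ℝ) ^ (4 / 5 : ℝ) ≤ k) (h2 : 2 * k ≤ n) :
    ((mm n k : ℝ) + 1) * jj k ≤ 12 * ((n : ℝ) / Real.sqrt k) * Real.log n := by
  have h3 := nk_log_ge h hk h2
  have h4 := mm_le h hk h2
  have h5 : (mm n k : ℝ) + 1 ≤ 6 * ((n : ℝ) / k * Real.log n) := by nlinarith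
  have h6 := jj_le (k := k) (k_pos h hk)
  have hk0 := kreal_pos h hk
  have hs : 0 < Real.sqrt k := Real.sqrt_pos.2 hk0
  have h7 : (n : ℝ) / k * Real.sqrt k = (n : ℝ) / Real.sqrt k := by
    rw [div_mul_eq_mul_div, div_eq_div_iff hk0.ne' hs.ne', mul_assoc,
      Real.mul_self_sqrt (Nat.cast_nonneg k)]
  calc ((mm n k : ℝ) + 1) * jj k ≤ 6 * ((n : ℝ) / k * Real.log n) * (2 * Real.sqrt k) := by
        apply mul_le_mul h5 h6 (Nat.cast_nonneg _) (by linarith)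
    _ = 12 * ((n : ℝ) / k * Real.sqrt k) * Real.log n := by ring
    _ = 12 * ((n : ℝ) / Real.sqrt k) * Real.log n := by rw [h7]

theorem log_rr (h : Facts n) : -Real.log (rr n) ≤ 4 * Real.log n := by
  have h1 : -Real.log (rr n) = Real.log (100 * ((n : ℝ) + 1) ^ 3) := by
    unfold rr
    rw [one_div, Real.log_inv, neg_neg]
  rw [h1]
  exact h.log_r

theorem rr_pos0 (n : ℕ) : 0 < rr n := by
  unfold rr
  positivity

theorem kj_ge (h : Facts n) (hk : (n : ℝ) ^ (4 / 5 : ℝ) ≤ k) :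
    4 * Real.log n ≤ (k : ℝ) * jj k / (2 * n) := by
  have hn := n_pos' h
  have h1 := k_sqrt h hk
  have h3 : (k : ℝ) * Real.sqrt k ≤ k * jj k :=
    mul_le_mul_of_nonneg_left (le_jj k) (Nat.cast_nonneg k)
  have h4 := h.log_small
  rw [le_div_iff₀ (by positivity)]
  nlinarith

theorem sg_le (h : Facts n) (hk : (n : ℝ) ^ (4 / 5 : ℝ) ≤ k) : sg n k ≤ rr n := by
  have h1 := kj_ge h hk
  have h2 := log_rr h
  unfold sg
  rw [← Real.le_log_iff_exp_le (rr_pos0 n)]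
  linarith

theorem EE_ge (h : Facts n) (hk : (n : ℝ) ^ (4 / 5 : ℝ) ≤ k) (h2 : 2 * k ≤ n) :
    (n : ℝ) / Real.sqrt k * Real.log n ≤ EE n k ∧ (n : ℝ) / Real.sqrt k ≤ EE n k ∧
      8 ≤ EE n k := by
  have hl := h.log_ge
  have h1 := sqrt_n_le h hk h2
  have h3 : (8 : ℝ) ≤ Real.sqrt n := by
    apply Real.le_sqrt_of_sq_le
    have := h.n_ge
    have h4 : (64 : ℝ) ≤ n := by exact_mod_cast this
    linarith
  have h5 : 0 ≤ (n : ℝ) / Real.sqrt k := by linarith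
  have h6 : (n : ℝ) / Real.sqrt k ≤ (n : ℝ) / Real.sqrt k * Real.log n := by nlinarith
  have h7 : (n : ℝ) / Real.sqrt k * Real.log n ≤ EE n k := by
    unfold EE
    apply mul_le_mul_of_nonneg_left _ h5
    nlinarith
  exact ⟨h7, h6.trans h7, by linarith⟩

end Pool.Agent.H70.KG
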