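import Pool.Agent.H70.KG.PE

/-!
# [H70 KG PL] the levels

LL i = (1+delta) DD * sigma^(min i m) * r^(i-m), 0 < sigma <= r <= 1/100.
* LL_pos, LL_zero: clear.
* LL_step: i < m: factor sigma <= r. i >= m: factor r.
* LL_two: i >= 1. choose_decay with a = i j: C(n-(k+ij),k) <= exp (-k i j / n) DD = sigma^(2i) DD.
  And LL i >= DD sigma^i (sigma <= r, min i m + (i - m) = i), 2 sigma^(2i) <= sigma^i as 2 sigma^i <= 1.
* LL_near: LL m = (1+delta) DD sigma^m. n^j (1+delta) sigma^m <= r: take logs:
  j l + log 2 + log (1/r) <= j l + 5 l <= 2 j l (j >= 5), and m k j / (2n) >= 2 j l because m >= 4 (n/k) l.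
* LL_top: k + i j <= n. i <= n / j <= n / sqrt k. log LL i >= log DD - m k j / (2n) - i log (1/r)
  >= log DD - 5 sqrt k l - 4 (n / sqrt k) l >= log DD - 9 E; and
  log of the left side = (m+1) j l + (1 + 2 delta) s <= 12 E + s + 2 delta n <= 14 E + s, using
  s <= log DD <= n (log_D_le), delta n = sqrt n <= E. With s <= log DD - 24 E it follows.
  (case m >= i : sigma^i >= sigma^m; r^(i-m) >= r^i.)
-/

namespace Pool.Agent.H70.KG

variable {n k : ℕ}

theorem sg_pos (n k : ℕ) : 0 < sg n k := Real.exp_pos _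

theorem rr_le (n : ℕ) : rr n ≤ 1 / 100 := by
  unfold rr
  apply one_div_le_one_div_of_le (by norm_num)
  have : (0 : ℝ) ≤ n := Nat.cast_nonneg n
  have h1 : (1 : ℝ) ≤ ((n : ℝ) + 1) ^ 3 := one_le_pow₀ (by linarith)
  linarith

theorem LL_pos (h : Facts n) (h2 : 2 * k ≤ n) (i : ℕ) : 0 < LL n k i := by
  unfold LL
  have h3 := DD_pos' h2
  have h4 := dl_pos h
  have h5 := sg_pos n k
  have h6 := rr_pos n
  positivity

theorem LL_zero : LL n k 0 = (1 + dl n) * DD n k := by
  unfold LL
  simp

theorem LL_step (h : Facts n) (hk : (n : ℝ) ^ (4 / 5 : ℝ) ≤ k) (h2 : 2 * k ≤ n) (i : ℕ) :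
    LL n k (i + 1) ≤ rr n * LL n k i := by
  have h3 := DD_pos' h2
  have h4 := dl_pos h
  have h5 := sg_pos n k
  have h6 := rr_pos n
  have h7 := sg_le h hk
  unfold LL
  rcases Nat.lt_or_ge i (mm n k) with hi | hi
  · have e1 : min (i + 1) (mm n k) = i + 1 := by omega
    have e2 : i + 1 - mm n k = 0 := by omega
    have e3 : min i (mm n k) = i := by omega
    have e4 : i - mm n k = 0 := by omega
    rw [e1, e2, e3, e4, pow_zero, mul_one, mul_one, pow_succ]
    have h8 : 0 ≤ (1 + dl n) * DD n k * sg n k ^ i := by positivity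
    calc (1 + dl n) * DD n k * (sg n k ^ i * sg n k) = (1 + dl n) * DD n k * sg n k ^ i * sg n k := by ring
      _ ≤ (1 + dl n) * DD n k * sg n k ^ i * rr n := mul_le_mul_of_nonneg_left h7 h8
      _ = rr n * ((1 + dl n) * DD n k * sg n k ^ i) := by ring
  · have e1 : min (i + 1) (mm n k) = mm n k := by omega
    have e2 : i + 1 - mm n k = (i - mm n k) + 1 := by omega
    have e3 : min i (mm n k) = mm n k := by omega
    rw [e1, e2, e3, pow_succ]
    apply le_of_eq
    ring

theorem LL_two (h : Facts n) (hk : (n : ℝ) ^ (4 / 5 : ℝ) ≤ k) (h2 : 2 * k ≤ n) (i : ℕ)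
    (hi : 1 ≤ i) : 2 * ((n - (k + i * jj k)).choose k : ℝ) ≤ LL n k i := by
  have h3 := DD_pos' h2
  have h4 := dl_pos h
  have h5 := sg_pos n k
  have h6 := rr_pos n
  have h7 := sg_le h hk
  have hn := n_pos' h
  have h8 := choose_decay n k (i * jj k) (k_pos h hk)
  have h9 : Real.exp (-((k : ℝ) * ((i * jj k : ℕ) : ℝ) / n)) = sg n k ^ i * sg n k ^ i := by
    unfold sg
    rw [← Real.exp_nat_mul, ← Real.exp_add]
    congr 1
    push_cast
    field_simp
    ring
  rw [h9] at h8
  have h10 : sg n k ^ i ≤ 1 / 100 := by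
    have h11 : sg n k ≤ 1 / 100 := h7.trans (rr_le n)
    calc sg n k ^ i ≤ sg n k ^ 1 := pow_le_pow_of_le_one h5.le (by linarith) hi
      _ ≤ 1 / 100 := by rw [pow_one]; exact h11
  have h11 : sg n k ^ i ≤ sg n k ^ (min i (mm n k)) * rr n ^ (i - mm n k) := by
    have e : i = min i (mm n k) + (i - mm n k) := by omega
    calc sg n k ^ i = sg n k ^ (min i (mm n k)) * sg n k ^ (i - mm n k) := by
          rw [← pow_add, ← e]
      _ ≤ sg n k ^ (min i (mm n k)) * rr n ^ (i - mm n k) := by
          apply mul_le_mul_of_nonneg_left _ (by positivity)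
          exact pow_le_pow_left₀ h5.le h7 _
  have h12 : 0 < sg n k ^ i := by positivity
  calc 2 * ((n - (k + i * jj k)).choose k : ℝ) ≤ 2 * (sg n k ^ i * sg n k ^ i * DD n k) := by linarith
    _ ≤ DD n k * sg n k ^ i := by
        have : 0 < DD n k * sg n k ^ i := by positivity
        nlinarith
    _ ≤ DD n k * (sg n k ^ (min i (mm n k)) * rr n ^ (i - mm n k)) :=
        mul_le_mul_of_nonneg_left h11 h3.le
    _ ≤ LL n k i := by
        unfold LL
        have h13 : 0 < sg n k ^ (min i (mm n k)) * rr n ^ (i - mm n k) := by positivity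
        have h14 : 0 < DD n k * (sg n k ^ (min i (mm n k)) * rr n ^ (i - mm n k)) := by positivity
        nlinarith

theorem log_sg (n k : ℕ) : Real.log (sg n k) = -((k : ℝ) * jj k / (2 * n)) := by
  unfold sg
  rw [Real.log_exp]

theorem LL_near (h : Facts n) (hk : (n : ℝ) ^ (4 / 5 : ℝ) ≤ k) (h2 : 2 * k ≤ n) :
    (n : ℝ) ^ jj k * LL n k (mm n k) ≤ rr n * DD n k := by
  have h3 := DD_pos' h2
  have h4 := dl_pos h
  have h4' := dl_le h
  have h5 := sg_pos n k
  have h6 := rr_pos n
  have hn := n_pos' h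
  have hl := h.log_ge
  have hk0 := kreal_pos h hk
  have hj5 : (5 : ℝ) ≤ jj k := (five_le_sqrt h hk).trans (le_jj k)
  have e : LL n k (mm n k) = (1 + dl n) * DD n k * sg n k ^ mm n k := by
    unfold LL
    simp
  rw [e]
  have key : (n : ℝ) ^ jj k * (1 + dl n) * sg n k ^ mm n k ≤ rr n := by
    rw [← Real.log_le_log_iff (by positivity) h6, Real.log_mul (by positivity) (by positivity),
      Real.log_mul (by positivity) (by positivity), Real.log_pow, Real.log_pow, log_sg]
    have h7 : Real.log (1 + dl n) ≤ dl n := by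
      have := Real.log_le_sub_one_of_pos (show 0 < 1 + dl n by linarith)
      linarith
    have h8 := log_rr h
    have h9 : 4 * ((n : ℝ) / k) * Real.log n ≤ mm n k := Nat.le_ceil _
    have h10 : 2 * (jj k : ℝ) * Real.log n ≤ mm n k * ((k : ℝ) * jj k / (2 * n)) := by
      have h11 : 0 ≤ (k : ℝ) * jj k / (2 * n) := by positivity
      have h12 := mul_le_mul_of_nonneg_right h9 h11
      have h13 : 4 * ((n : ℝ) / k) * Real.log n * ((k : ℝ) * jj k / (2 * n)) = 2 * (jj k : ℝ) * Real.log n := by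
        field_simp
        norm_num
      linarith
    nlinarith
  calc (n : ℝ) ^ jj k * ((1 + dl n) * DD n k * sg n k ^ mm n k)
      = (n : ℝ) ^ jj k * (1 + dl n) * sg n k ^ mm n k * DD n k := by ring
    _ ≤ rr n * DD n k := mul_le_mul_of_nonneg_right key h3.le

theorem LL_top (h : Facts n) (hk : (n : ℝ) ^ (4 / 5 : ℝ) ≤ k) (h2 : 2 * k ≤ n) {s : ℝ}
    (hs0 : 0 ≤ s) (hs : s ≤ Real.log (DD n k) - 24 * EE n k) (i : ℕ) (hi : k + i * jj k ≤ n) :
    (n : ℝ) ^ ((mm n k + 1) * jj k) * Real.exp ((1 + 2 * dl n) * s) ≤ LL n k i := by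
  have h3 := DD_pos' h2
  have h4 := dl_pos h
  have h5 := sg_pos n k
  have h6 := rr_pos n
  have hn := n_pos' h
  have hl := h.log_ge
  have hk0 := kreal_pos h hk
  have hs1 : 0 < Real.sqrt k := Real.sqrt_pos.2 hk0
  obtain ⟨hE1, hE2, hE3⟩ := EE_ge h hk h2
  have hsn := sqrt_n_le h hk h2
  have hsd := sqrt_le_div h hk h2
  set W : ℝ := (n : ℝ) / Real.sqrt k with hW
  have hW0 : 0 < W := by positivity
  have hLL := LL_pos h h2 i
  rw [← Real.log_le_log_iff (by positivity) hLL, Real.log_mul (by positivity) (Real.exp_pos _).ne',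
    Real.log_exp, Real.log_pow]
  have e1 : Real.log (LL n k i) = Real.log (1 + dl n) + Real.log (DD n k) +
      ((min i (mm n k) : ℕ) * Real.log (sg n k) + (i - mm n k : ℕ) * Real.log (rr n)) := by
    unfold LL
    rw [Real.log_mul (by positivity) (by positivity), Real.log_mul (by positivity) (by positivity),
      Real.log_mul (by positivity) (by positivity), Real.log_pow, Real.log_pow]
  rw [e1, log_sg]
  have h7 : 0 ≤ Real.log (1 + dl n) := Real.log_nonneg (by linarith)
  -- the fast part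
  have h8 : (((min i (mm n k) : ℕ) : ℝ)) * ((k : ℝ) * jj k / (2 * n)) ≤ 5 * W * Real.log n := by
    have h9 : ((min i (mm n k) : ℕ) : ℝ) ≤ mm n k := by exact_mod_cast min_le_right _ _
    have h10 := mm_le h hk h2
    have h11 := jj_le (k := k) (k_pos h hk)
    have h12 : (k : ℝ) * jj k / (2 * n) ≤ (k : ℝ) * (2 * Real.sqrt k) / (2 * n) := by
      apply div_le_div_of_nonneg_right _ (by positivity)
      exact mul_le_mul_of_nonneg_left h11 hk0.le
    calc (((min i (mm n k) : ℕ) : ℝ)) * ((k : ℝ) * jj k / (2 * n))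
        ≤ (5 * ((n : ℝ) / k) * Real.log n) * ((k : ℝ) * (2 * Real.sqrt k) / (2 * n)) := by
          apply mul_le_mul (h9.trans h10) h12 (by positivity) (by positivity)
      _ = 5 * Real.sqrt k * Real.log n := by
          field_simp
      _ ≤ 5 * W * Real.log n := by
          apply mul_le_mul_of_nonneg_right _ (by linarith)
          linarith
  -- the slow part
  have h13 : ((i - mm n k : ℕ) : ℝ) * (-Real.log (rr n)) ≤ 4 * W * Real.log n := by
    have h14 : ((i - mm n k : ℕ) : ℝ) ≤ i := by exact_mod_cast Nat.sub_le _ _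
    have h15 : (i : ℝ) ≤ W := by
      rw [hW, le_div_iff₀ hs1]
      have h16 : ((k + i * jj k : ℕ) : ℝ) ≤ n := by exact_mod_cast hi
      push_cast at h16
      have h17 : (i : ℝ) * Real.sqrt k ≤ i * jj k := mul_le_mul_of_nonneg_left (le_jj k) (Nat.cast_nonneg i)
      linarith
    have h18 := log_rr h
    have h19 : 0 ≤ -Real.log (rr n) := by
      have : Real.log (rr n) ≤ 0 := Real.log_nonpos h6.le ((rr_le n).trans (by norm_num))
      linarith
    calc ((i - mm n k : ℕ) : ℝ) * (-Real.log (rr n)) ≤ W * (4 * Real.log n) := by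
          apply mul_le_mul (h14.trans h15) h18 h19 hW0.le
      _ = 4 * W * Real.log n := by ring
  -- the left side
  have h20 : (((mm n k + 1) * jj k : ℕ) : ℝ) * Real.log n ≤ 12 * EE n k := by
    have h21 := mm_jj_le h hk h2
    push_cast
    have h22 : EE n k = W * Real.log n * Real.log n := by
      unfold EE
      rw [← hW]
      ring
    rw [h22]
    have h23 := mul_le_mul_of_nonneg_right h21 (show 0 ≤ Real.log n by linarith)
    rw [← hW] at h23
    linarith
  have h24 : dl n * s ≤ EE n k := by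
    have h25 : s ≤ n := by
      have := log_D_le n k h2
      linarith
    have h26 : dl n * s ≤ dl n * n := mul_le_mul_of_nonneg_left h25 h4.le
    have h27 : dl n * n = Real.sqrt n := by
      unfold dl
      rw [one_div, inv_mul_eq_div, Real.div_sqrt]
    linarith
  nlinarith

end Pool.Agent.H70.KG
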