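import Pool.Agent.H70.KG.PL

/-!
# [H70 KG PP] the parameters and the final bound

exists_par: j = jj k, m = mm n k, tau = tt n k, del = dl n, r = rr n, e = ee n k, L = LL n k, using the
modules PE, PL. e tau <= log DD - 24 E (floor; log DD - 24 E >= E >= 0) and e tau >= log DD - 24 E - e;
e tau <= log DD <= n. hn: 2k + (m+1) j <= n: otherwise n - 2k < (m+1) j <= 12 (n / sqrt k) l (mm_jj_le), and
log DD <= (n - 2k) l <= 12 (n / sqrt k) l^2 = 12 E < 25 E by D_le_pow, a contradiction.

final_number: with P as above. tau n^(2j) <= (log DD / e) exp (2 j l) <= (N/DD) * 2 n * exp (4 sqrt k l)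
<= (N/DD) exp (2 l + 4 E) <= (N/DD) exp (6 E), N = C(n,k), e = DD / (2N), 2 n <= exp (2 l).
-(1-del) e tau <= - e tau + del n <= - log DD + 24 E + e + sqrt n <= - log DD + 25 E + 1, so the second
term is <= (N/DD) * 2 * exp (25 E + 1). The sum is <= (N/DD) exp (30 E) since E >= 8.
-/

namespace Pool.Agent.H70.KG

variable {n k : ℕ}

private theorem pp_s (h2 : 2 * k ≤ n) (hE : 25 * EE n k ≤ Real.log (DD n k))
    (hE0 : 0 ≤ EE n k) :
    0 ≤ ee n k * (tt n k : ℝ) ∧ ee n k * (tt n k : ℝ) ≤ Real.log (DD n k) - 24 * EE n k ∧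
      Real.log (DD n k) - 24 * EE n k ≤ ee n k * (tt n k : ℝ) + ee n k := by
  have he := ee_pos h2
  have hx : 0 ≤ Real.log (DD n k) - 24 * EE n k := by linarith
  have h1 : (tt n k : ℝ) ≤ (Real.log (DD n k) - 24 * EE n k) / ee n k :=
    Nat.floor_le (div_nonneg hx he.le)
  have h3 : (Real.log (DD n k) - 24 * EE n k) / ee n k < (tt n k : ℝ) + 1 :=
    Nat.lt_floor_add_one _
  refine ⟨by positivity, ?_, ?_⟩
  · rw [le_div_iff₀ he] at h1
    linarith
  · rw [div_lt_iff₀ he] at h3
    linarith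

private theorem pp_hn (h : Facts n) (hk : (n : ℝ) ^ (4 / 5 : ℝ) ≤ k) (h2 : 2 * k ≤ n)
    (hE : 25 * EE n k ≤ Real.log (DD n k)) : 2 * k + (mm n k + 1) * jj k ≤ n := by
  by_contra hcon
  push Not at hcon
  have hE8 := (EE_ge h hk h2).2.2
  have hl := h.log_ge
  have hmj := mm_jj_le h hk h2
  have h3 : (n : ℝ) < 2 * k + ((mm n k : ℝ) + 1) * jj k := by exact_mod_cast hcon
  have h4 := D_le_pow n k (k_pos h hk) h2
  have h5 : Real.log (DD n k) ≤ ((n : ℝ) - 2 * k) * Real.log n := by
    refine (Real.log_le_log (DD_pos' h2) h4).trans ?_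
    rw [Real.log_pow, Nat.cast_sub h2]
    push_cast
    exact le_rfl
  have h6 : ((n : ℝ) - 2 * k) * Real.log n ≤
      12 * ((n : ℝ) / Real.sqrt k) * Real.log n * Real.log n :=
    mul_le_mul_of_nonneg_right (by linarith) (by linarith)
  have h7 : 12 * ((n : ℝ) / Real.sqrt k) * Real.log n * Real.log n = 12 * EE n k := by
    unfold EE
    ring
  linarith

private theorem pp_final (h : Facts n) (hk : (n : ℝ) ^ (4 / 5 : ℝ) ≤ k) (h2 : 2 * k ≤ n)
    (hE : 25 * EE n k ≤ Real.log (DD n k)) :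
    (tt n k : ℝ) * (n : ℝ) ^ (2 * jj k) +
        2 * (n.choose k : ℝ) * Real.exp (-(1 - dl n) * (ee n k * tt n k)) ≤
      (n.choose k : ℝ) / DD n k * Real.exp (30 * EE n k) := by
  obtain ⟨hE1, hE2, hE8⟩ := EE_ge h hk h2
  have hD := DD_pos' h2
  have hN := choose_pos' (k := k) h2
  have he := ee_pos h2
  have hdl := dl_pos h
  have hlD := log_D_le n k h2
  have hl := h.log_ge
  have hn64 : (64 : ℝ) ≤ n := by exact_mod_cast h.n_ge
  obtain ⟨hs0, hs1, hs2⟩ := pp_s h2 hE (by linarith)
  have hq : 0 < (n.choose k : ℝ) / DD n k := by positivity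
  have hsn := sqrt_n_le h hk h2
  have hsq1 : 1 ≤ Real.sqrt n := by
    rw [Real.one_le_sqrt]
    linarith
  have hlE : Real.log n ≤ EE n k := by
    have h3 : (1 : ℝ) * Real.log n ≤ (n : ℝ) / Real.sqrt k * Real.log n :=
      mul_le_mul_of_nonneg_right (by linarith) (by linarith)
    linarith
  have hn0 : (0 : ℝ) < n := by linarith
  -- first term
  have hT : (tt n k : ℝ) ≤ 2 * n * ((n.choose k : ℝ) / DD n k) := by
    have h3 : (tt n k : ℝ) ≤ n / ee n k := by
      rw [le_div_iff₀ he]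
      linarith
    refine h3.trans (le_of_eq ?_)
    unfold ee
    field_simp
  have hpow : (n : ℝ) ^ (2 * jj k) ≤ Real.exp (4 * EE n k) := by
    have h3 : (n : ℝ) ^ (2 * jj k) = Real.exp (((2 * jj k : ℕ) : ℝ) * Real.log n) := by
      rw [Real.exp_nat_mul, Real.exp_log hn0]
    rw [h3]
    apply Real.exp_le_exp.2
    have h4 := jj_le (k_pos h hk)
    have h5 := sqrt_le_div h hk h2
    have h6 : ((2 * jj k : ℕ) : ℝ) ≤ 4 * ((n : ℝ) / Real.sqrt k) := by
      push_cast
      linarith
    calc ((2 * jj k : ℕ) : ℝ) * Real.log n ≤ 4 * ((n : ℝ) / Real.sqrt k) * Real.log n :=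
          mul_le_mul_of_nonneg_right h6 (by linarith)
      _ ≤ 4 * EE n k := by linarith
  have h2n : 2 * (n : ℝ) ≤ Real.exp (2 * EE n k) := by
    have h3 : (n : ℝ) * n ≤ Real.exp (2 * EE n k) := by
      have h4 : (n : ℝ) ≤ Real.exp (EE n k) := by
        rw [← Real.log_le_iff_le_exp hn0]
        exact hlE
      calc (n : ℝ) * n ≤ Real.exp (EE n k) * Real.exp (EE n k) :=
            mul_le_mul h4 h4 hn0.le (Real.exp_pos _).le
        _ = Real.exp (2 * EE n k) := by
            rw [← Real.exp_add]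
            ring_nf
    nlinarith
  have hfirst : (tt n k : ℝ) * (n : ℝ) ^ (2 * jj k) ≤
      (n.choose k : ℝ) / DD n k * Real.exp (6 * EE n k) := by
    calc (tt n k : ℝ) * (n : ℝ) ^ (2 * jj k) ≤
        (2 * n * ((n.choose k : ℝ) / DD n k)) * Real.exp (4 * EE n k) :=
          mul_le_mul hT hpow (by positivity) (by positivity)
      _ = (n.choose k : ℝ) / DD n k * (2 * n * Real.exp (4 * EE n k)) := by ring
      _ ≤ (n.choose k : ℝ) / DD n k * (Real.exp (2 * EE n k) * Real.exp (4 * EE n k)) := by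
          refine mul_le_mul_of_nonneg_left ?_ hq.le
          exact mul_le_mul_of_nonneg_right h2n (Real.exp_pos _).le
      _ = (n.choose k : ℝ) / DD n k * Real.exp (6 * EE n k) := by
          rw [← Real.exp_add]
          ring_nf
  -- second term
  have he1 : ee n k ≤ 1 := by
    refine (ee_le h hk h2).trans ?_
    rw [div_le_one (by positivity)]
    have h3 : (1 : ℝ) ≤ ((n : ℝ) + 1) ^ 3 := one_le_pow₀ (by linarith)
    linarith
  have hdn : dl n * (ee n k * tt n k) ≤ EE n k := by
    have h3 : dl n * (ee n k * tt n k) ≤ dl n * n :=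
      mul_le_mul_of_nonneg_left (by linarith) hdl.le
    have h4 : dl n * n = Real.sqrt n := by
      unfold dl
      have h5 : Real.sqrt n * Real.sqrt n = n := Real.mul_self_sqrt hn0.le
      have h6 : 0 < Real.sqrt n := by linarith
      field_simp
      nlinarith
    linarith
  have hexp : Real.exp (-(1 - dl n) * (ee n k * tt n k)) ≤
      Real.exp (25 * EE n k + 1) / DD n k := by
    rw [le_div_iff₀ hD]
    have h3 : Real.exp (-(1 - dl n) * (ee n k * tt n k)) * DD n k =
        Real.exp (-(1 - dl n) * (ee n k * tt n k) + Real.log (DD n k)) := by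
      rw [Real.exp_add, Real.exp_log hD]
    rw [h3]
    apply Real.exp_le_exp.2
    linarith
  have h2e : (2 : ℝ) ≤ Real.exp 1 := by
    have := Real.add_one_le_exp (1 : ℝ)
    linarith
  have hsecond : 2 * (n.choose k : ℝ) * Real.exp (-(1 - dl n) * (ee n k * tt n k)) ≤
      (n.choose k : ℝ) / DD n k * Real.exp (25 * EE n k + 2) := by
    calc 2 * (n.choose k : ℝ) * Real.exp (-(1 - dl n) * (ee n k * tt n k)) ≤
        2 * (n.choose k : ℝ) * (Real.exp (25 * EE n k + 1) / DD n k) :=
          mul_le_mul_of_nonneg_left hexp (by positivity)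
      _ = (n.choose k : ℝ) / DD n k * (2 * Real.exp (25 * EE n k + 1)) := by ring
      _ ≤ (n.choose k : ℝ) / DD n k * (Real.exp 1 * Real.exp (25 * EE n k + 1)) := by
          refine mul_le_mul_of_nonneg_left ?_ hq.le
          exact mul_le_mul_of_nonneg_right h2e (Real.exp_pos _).le
      _ = (n.choose k : ℝ) / DD n k * Real.exp (25 * EE n k + 2) := by
          rw [← Real.exp_add]
          ring_nf
  have h6le : Real.exp (6 * EE n k) ≤ Real.exp (25 * EE n k + 2) :=
    Real.exp_le_exp.2 (by linarith)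
  have hfin : Real.exp (6 * EE n k) + Real.exp (25 * EE n k + 2) ≤ Real.exp (30 * EE n k) := by
    calc Real.exp (6 * EE n k) + Real.exp (25 * EE n k + 2) ≤
        2 * Real.exp (25 * EE n k + 2) := by linarith
      _ ≤ Real.exp 1 * Real.exp (25 * EE n k + 2) :=
          mul_le_mul_of_nonneg_right h2e (Real.exp_pos _).le
      _ = Real.exp (1 + (25 * EE n k + 2)) := by rw [← Real.exp_add]
      _ ≤ Real.exp (30 * EE n k) := Real.exp_le_exp.2 (by linarith)
  calc (tt n k : ℝ) * (n : ℝ) ^ (2 * jj k) +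
        2 * (n.choose k : ℝ) * Real.exp (-(1 - dl n) * (ee n k * tt n k)) ≤
      (n.choose k : ℝ) / DD n k * Real.exp (6 * EE n k) +
        (n.choose k : ℝ) / DD n k * Real.exp (25 * EE n k + 2) := add_le_add hfirst hsecond
    _ = (n.choose k : ℝ) / DD n k * (Real.exp (6 * EE n k) + Real.exp (25 * EE n k + 2)) := by ring
    _ ≤ _ := mul_le_mul_of_nonneg_left hfin hq.le

theorem exists_par (h : Facts n) (hk : (n : ℝ) ^ (4 / 5 : ℝ) ≤ k) (h2 : 2 * k ≤ n)
    (hE : 25 * EE n k ≤ Real.log (DD n k)) :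
    ∃ P : Par n k, (P.tau : ℝ) * (n : ℝ) ^ (2 * P.j) +
        2 * (n.choose k : ℝ) * Real.exp (-(1 - P.del) * (P.e * P.tau)) ≤
      (n.choose k : ℝ) / DD n k * Real.exp (30 * EE n k) := by
  have hE8 := (EE_ge h hk h2).2.2
  obtain ⟨hs0, hs1, hs2⟩ := pp_s h2 hE (by linarith)
  have hlD := log_D_le n k h2
  have hD := DD_pos' h2
  have hN := choose_pos' (k := k) h2
  exact ⟨{
    j := jj k
    m := mm n k
    tau := tt n k
    del := dl n
    r := rr n
    e := ee n k
    L := LL n k
    hk := k_pos h hk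
    hj := by
      have h3 := le_jj k
      have h4 := five_le_sqrt h hk
      have h5 : (1 : ℝ) ≤ jj k := by linarith
      exact_mod_cast h5
    hn := pp_hn h hk h2 hE
    hdel := dl_pos h
    hdel2 := dl_le h
    hr := rr_pos n
    he := ee_pos h2
    heN := by
      unfold ee
      apply le_of_eq
      field_simp
    hc := hc_ok h hk h2 hs0 (by linarith)
    hae := hae_ok h hk h2
    har := har_ok h
    L0 := LL_zero
    Lpos := LL_pos h h2
    Lr := LL_step h hk h2
    L2 := LL_two h hk h2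
    Lnear := LL_near h hk h2
    Ltop := fun i hi => LL_top h hk h2 hs0 hs1 i hi }, pp_final h hk h2 hE⟩

end Pool.Agent.H70.KG
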