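import Pool.Agent.H70.KG.BI

/-!
# [H70 KG PX] large n, and the parameters

Facts n: the finitely many inequalities that hold for all large n (log n = o(n^c), polynomial = o(exp)).
exists_facts: each is eventually true (Filter.Tendsto, isLittleO_log_rpow_atTop,
tendsto_pow_mul_exp_neg_atTop_nhds_zero or elementary bounds); take a common n0.
-/

namespace Pool.Agent.H70.KG

/-- Inequalities valid for all large `n`. -/
structure Facts (n : ℕ) : Prop where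
  n_ge : 64 ≤ n
  log_ge : 1 ≤ Real.log n
  log_r : Real.log (100 * ((n : ℝ) + 1) ^ 3) ≤ 4 * Real.log n
  log_small : 8 * Real.log n ≤ (n : ℝ) ^ (1 / 5 : ℝ)
  exp_big : 256 * ((n : ℝ) + 1) ^ 3 ≤ Real.exp ((n : ℝ) ^ (3 / 5 : ℝ))
  five : 5 ≤ (n : ℝ) ^ (2 / 5 : ℝ)

theorem exists_facts : ∃ n0 : ℕ, ∀ n, n0 ≤ n → Facts n := by
  have h1 : ∀ᶠ x : ℝ in Filter.atTop, 8 * Real.log x ≤ x ^ (1 / 5 : ℝ) := by
    have h := (isLittleO_log_rpow_atTop (by norm_num : (0 : ℝ) < 1 / 5)).bound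
      (by norm_num : (0 : ℝ) < 1 / 8)
    filter_upwards [h, Filter.eventually_ge_atTop (1 : ℝ)] with x hx hx1
    rw [Real.norm_of_nonneg (Real.log_nonneg hx1),
      Real.norm_of_nonneg (Real.rpow_nonneg (by linarith) _)] at hx
    linarith
  have h2 : ∀ᶠ x : ℝ in Filter.atTop, 5 ≤ x ^ (2 / 5 : ℝ) :=
    (tendsto_rpow_atTop (by norm_num : (0 : ℝ) < 2 / 5)).eventually_ge_atTop 5
  have h3 : ∀ᶠ n : ℕ in Filter.atTop, 8 * Real.log (n : ℝ) ≤ (n : ℝ) ^ (1 / 5 : ℝ) ∧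
      5 ≤ (n : ℝ) ^ (2 / 5 : ℝ) ∧ 600 ≤ n :=
    (tendsto_natCast_atTop_atTop.eventually h1).and
      ((tendsto_natCast_atTop_atTop.eventually h2).and (Filter.eventually_ge_atTop 600))
  obtain ⟨n0, hn0⟩ := Filter.eventually_atTop.1 h3
  refine ⟨n0, fun n hn => ?_⟩
  obtain ⟨a1, a2, a3⟩ := hn0 n hn
  have hn6 : (600 : ℝ) ≤ n := by exact_mod_cast a3
  have hpos : (0 : ℝ) < n := by linarith
  have hlog : 1 ≤ Real.log n := by
    rw [Real.le_log_iff_exp_le hpos]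
    have := Real.exp_one_lt_d9
    linarith
  have h4 : ((n : ℝ) + 1) ^ 3 ≤ 2 * (n : ℝ) ^ 3 := by
    have e1 : 0 ≤ (n : ℝ) ^ 2 := by positivity
    nlinarith [mul_nonneg (by linarith : (0 : ℝ) ≤ n - 600) e1,
      mul_nonneg (by linarith : (0 : ℝ) ≤ n - 600) hpos.le]
  have h5 : 512 * (n : ℝ) ^ 3 ≤ (n : ℝ) ^ 4 := by
    have e1 : 0 ≤ (n : ℝ) ^ 3 := by positivity
    nlinarith [mul_nonneg (by linarith : (0 : ℝ) ≤ n - 600) e1]
  have h6 : 0 ≤ (n : ℝ) ^ 3 := by positivity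
  have h7 : Real.log ((n : ℝ) ^ 4) = 4 * Real.log n := by
    rw [Real.log_pow]
    norm_num
  refine ⟨by omega, hlog, ?_, a1, ?_, a2⟩
  · rw [← h7]
    exact Real.log_le_log (by positivity) (by linarith)
  · have e1 : (n : ℝ) ^ (1 / 5 : ℝ) ≤ (n : ℝ) ^ (3 / 5 : ℝ) :=
      Real.rpow_le_rpow_of_exponent_le (by linarith) (by norm_num)
    have e2 : (n : ℝ) ^ 4 ≤ Real.exp ((n : ℝ) ^ (3 / 5 : ℝ)) := by
      rw [← Real.log_le_iff_le_exp (by positivity), h7]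
      linarith
    linarith

/-- `j`, the distance scale. -/
noncomputable def jj (k : ℕ) : ℕ := ⌈Real.sqrt k⌉₊

/-- `m`, the number of fast levels. -/
noncomputable def mm (n k : ℕ) : ℕ := ⌈4 * ((n : ℝ) / k) * Real.log n⌉₊

/-- `del`. -/
noncomputable def dl (n : ℕ) : ℝ := 1 / Real.sqrt n

/-- `r`. -/
noncomputable def rr (n : ℕ) : ℝ := 1 / (100 * ((n : ℝ) + 1) ^ 3)

/-- `e`. -/
noncomputable def ee (n k : ℕ) : ℝ := DD n k / (2 * (n.choose k : ℝ))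

/-- the fast decay `sigma` per level. -/
noncomputable def sg (n k : ℕ) : ℝ := Real.exp (-((k : ℝ) * jj k / (2 * n)))

/-- the levels. -/
noncomputable def LL (n k : ℕ) (i : ℕ) : ℝ :=
  (1 + dl n) * DD n k * (sg n k ^ (min i (mm n k)) * rr n ^ (i - mm n k))

/-- the error exponent `E = (n / sqrt k) (log n)^2`. -/
noncomputable def EE (n k : ℕ) : ℝ := (n : ℝ) / Real.sqrt k * Real.log n ^ 2

/-- the number of steps. -/
noncomputable def tt (n k : ℕ) : ℕ := ⌊(Real.log (DD n k) - 24 * EE n k) / ee n k⌋₊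

end Pool.Agent.H70.KG
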