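import Pool.Agent.H70.KG.FI
import Pool.Agent.H70.KG.PP

/-!
# [H70 KG RE] the growth theorem

If 25 E <= log DD: main_family with the parameters of exists_par. Otherwise log DD < 25 E, and any
maximal intersecting family (exists_maximal) has at most C(n,k) = (C(n,k)/DD) * DD <=
(C(n,k)/DD) * exp (25 E) members (they are k-subsets of Fin n).
-/

namespace Pool.Agent.H70.KG

theorem growth : ∃ n0 : ℕ, ∀ n k : ℕ, n0 ≤ n → (n : ℝ) ^ (4 / 5 : ℝ) ≤ k → 2 * k ≤ n →
    ∃ F : Finset (Finset (Fin n)), Maximal (Pool.Agent.H31.Kn.IsInt n k) F ∧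
      (F.card : ℝ) ≤ (n.choose k : ℝ) / ((n - k).choose k : ℝ) *
        Real.exp (30 * ((n : ℝ) / Real.sqrt k * Real.log n ^ 2)) := by
  obtain ⟨n0, h0⟩ := exists_facts
  refine ⟨n0, fun n k hn hk h2 => ?_⟩
  have hf := h0 n hn
  by_cases hE : 25 * EE n k ≤ Real.log (DD n k)
  · obtain ⟨P, hP⟩ := exists_par hf hk h2 hE
    obtain ⟨F, hF, hc⟩ := main_family P
    exact ⟨F, hF, hc.trans hP⟩
  · obtain ⟨F, hF⟩ := Pool.Agent.H31.Kn.exists_maximal n k
    refine ⟨F, hF, ?_⟩
    have hD : 0 < DD n k := DD_pos' h2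
    have h1 : F.card ≤ n.choose k := by
      have hsub : F ⊆ (Finset.univ : Finset (Fin n)).powersetCard k := fun T hT =>
        Finset.mem_powersetCard.mpr ⟨Finset.subset_univ _, hF.prop.1 T hT⟩
      have := Finset.card_le_card hsub
      rwa [Finset.card_powersetCard, Finset.card_univ, Fintype.card_fin] at this
    have h3 : (F.card : ℝ) ≤ (n.choose k : ℝ) := by exact_mod_cast h1
    have h4 : DD n k ≤ Real.exp (30 * EE n k) := by
      have hEE : 0 ≤ EE n k := by
        unfold EE
        positivity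
      rw [← Real.log_le_iff_le_exp hD]
      have := (not_le.mp hE).le
      linarith
    have h5 : (n.choose k : ℝ) ≤ (n.choose k : ℝ) / DD n k * Real.exp (30 * EE n k) := by
      rw [div_mul_eq_mul_div, le_div_iff₀ hD]
      exact mul_le_mul_of_nonneg_left h4 (Nat.cast_nonneg _)
    exact h3.trans h5

end Pool.Agent.H70.KG
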