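import Pool.Agent.H70.KG.TU

/-!
# [H70 KG ST] a good choice exists

Average of the new potential: sum over B in KS of pr B * Phi (t+1) (up B) (insert B C) +
pr0 * Phi (t+1) (up0) C <= Phi t y C. Exchange the sums. U-terms: term_up. T-terms: T contributes for
the choice B iff it is not near insert B C, that is iff it is not near C and j <= (B \ T).card; so for T
not near C the weighted sum over the choices is the left side of term_low.
Averaging: pr B >= 0, pr0 >= 0, total 1. If pr0 > 0 and Phi (t+1) up0 C <= Phi t y C take nothing.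
Otherwise some B with pr B > 0 (hence y B > 0, e > 0, DD > 0) satisfies the inequality: if all choices
with positive weight had a larger value, the weighted average would be larger (total weight is 1).
-/

namespace Pool.Agent.H70.KG

open Finset

variable {n k : ℕ}

private theorem near_insert {j : ℕ} (C : Finset (Finset (Fin n))) (B T : Finset (Fin n)) :
    (¬ NearC j (insert B C) T) ↔ (¬ NearC j C T ∧ j ≤ (B \ T).card) := by
  unfold NearC
  push Not
  constructor
  · intro h
    exact ⟨fun A hA => h A (mem_insert_of_mem hA), h B (mem_insert_self _ _)⟩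
  · rintro ⟨h1, h2⟩ A hA
    rcases mem_insert.1 hA with rfl | hA
    · exact h2
    · exact h1 A hA

theorem average (P : Par n k) (t : ℕ) {y : Finset (Fin n) → ℝ} {C : Finset (Finset (Fin n))}
    (hy : ∀ A ∈ KS n k, 0 ≤ y A)
    (hG : ∀ i (U : Finset (Fin n)), k + i * P.j ≤ U.card → S n k y U ≤ P.L i) :
    ∑ B ∈ KS n k, pr n k P.e y B * P.Phi (t + 1) (up n k P.e y B) (insert B C) +
      pr0 n k P.e y * P.Phi (t + 1) (up0 n k P.e y) C ≤ P.Phi t y C := by
  classical
  obtain ⟨F, hF⟩ : ∃ F, F = (KS n k).filter (fun T => ¬ NearC P.j C T) := ⟨_, rfl⟩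
  have hFm : ∀ T, T ∈ F ↔ T ∈ KS n k ∧ ¬ NearC P.j C T := by
    intro T
    rw [hF, mem_filter]
  have hPhi0 : ∀ (s : ℕ) (y' : Finset (Fin n) → ℝ), P.Phi s y' C =
      ∑ U ∈ P.ctrl, Real.exp (P.a / P.L (P.lev U) * (S n k y' U - ((n - U.card).choose k : ℝ))
        - P.c * (P.e * s)) +
      ∑ T ∈ F, Real.exp (-(P.a / (2 * DD n k)) * (S n k y' T - DD n k) - P.c * (P.e * s)) := by
    intro s y'
    unfold Par.Phi
    congr 1
    refine sum_congr ?_ fun _ _ => rfl
    ext T
    rw [mem_filter, hFm]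
  have hPhi : ∀ B, P.Phi (t + 1) (up n k P.e y B) (insert B C) =
      ∑ U ∈ P.ctrl, Real.exp (P.a / P.L (P.lev U) *
        (S n k (up n k P.e y B) U - ((n - U.card).choose k : ℝ))
        - P.c * (P.e * ((t + 1 : ℕ) : ℝ))) +
      ∑ T ∈ F, if P.j ≤ (B \ T).card then
        Real.exp (-(P.a / (2 * DD n k)) * (S n k (up n k P.e y B) T - DD n k)
          - P.c * (P.e * ((t + 1 : ℕ) : ℝ))) else 0 := by
    intro B
    unfold Par.Phi
    congr 1
    rw [← sum_filter]
    refine sum_congr ?_ fun _ _ => rfl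
    ext T
    rw [mem_filter, mem_filter, hFm, near_insert]
    tauto
  have e1 : ∑ B ∈ KS n k, pr n k P.e y B * P.Phi (t + 1) (up n k P.e y B) (insert B C) =
      ∑ U ∈ P.ctrl, ∑ B ∈ KS n k, pr n k P.e y B *
        Real.exp (P.a / P.L (P.lev U) * (S n k (up n k P.e y B) U - ((n - U.card).choose k : ℝ))
          - P.c * (P.e * ((t + 1 : ℕ) : ℝ))) +
      ∑ T ∈ F, ∑ B ∈ (KS n k).filter (fun B => P.j ≤ (B \ T).card), pr n k P.e y B *
        Real.exp (-(P.a / (2 * DD n k)) * (S n k (up n k P.e y B) T - DD n k)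
          - P.c * (P.e * ((t + 1 : ℕ) : ℝ))) := by
    have e2 : ∑ T ∈ F, ∑ B ∈ (KS n k).filter (fun B => P.j ≤ (B \ T).card), pr n k P.e y B *
        Real.exp (-(P.a / (2 * DD n k)) * (S n k (up n k P.e y B) T - DD n k)
          - P.c * (P.e * ((t + 1 : ℕ) : ℝ))) =
        ∑ B ∈ KS n k, ∑ T ∈ F, if P.j ≤ (B \ T).card then pr n k P.e y B *
        Real.exp (-(P.a / (2 * DD n k)) * (S n k (up n k P.e y B) T - DD n k)
          - P.c * (P.e * ((t + 1 : ℕ) : ℝ))) else 0 := by
      rw [sum_comm]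
      refine sum_congr rfl fun T _ => ?_
      rw [sum_filter]
    rw [e2, sum_comm (s := P.ctrl), ← sum_add_distrib]
    refine sum_congr rfl fun B _ => ?_
    rw [hPhi B, mul_add, mul_sum, mul_sum]
    congr 1
    refine sum_congr rfl fun T _ => ?_
    split_ifs
    · rfl
    · rw [mul_zero]
  rw [e1, hPhi0, hPhi0, mul_add, mul_sum, mul_sum]
  have f1 : ∑ U ∈ P.ctrl, ∑ B ∈ KS n k, pr n k P.e y B *
        Real.exp (P.a / P.L (P.lev U) * (S n k (up n k P.e y B) U - ((n - U.card).choose k : ℝ))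
          - P.c * (P.e * ((t + 1 : ℕ) : ℝ))) +
      ∑ U ∈ P.ctrl, pr0 n k P.e y * Real.exp (P.a / P.L (P.lev U) *
        (S n k (up0 n k P.e y) U - ((n - U.card).choose k : ℝ))
        - P.c * (P.e * ((t + 1 : ℕ) : ℝ))) ≤
      ∑ U ∈ P.ctrl, Real.exp (P.a / P.L (P.lev U) * (S n k y U - ((n - U.card).choose k : ℝ))
        - P.c * (P.e * t)) := by
    rw [← sum_add_distrib]
    exact sum_le_sum fun U hU => term_up P t hy hG hU
  have f2 : ∑ T ∈ F, ∑ B ∈ (KS n k).filter (fun B => P.j ≤ (B \ T).card), pr n k P.e y B *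
        Real.exp (-(P.a / (2 * DD n k)) * (S n k (up n k P.e y B) T - DD n k)
          - P.c * (P.e * ((t + 1 : ℕ) : ℝ))) +
      ∑ T ∈ F, pr0 n k P.e y * Real.exp (-(P.a / (2 * DD n k)) *
        (S n k (up0 n k P.e y) T - DD n k) - P.c * (P.e * ((t + 1 : ℕ) : ℝ))) ≤
      ∑ T ∈ F, Real.exp (-(P.a / (2 * DD n k)) * (S n k y T - DD n k) - P.c * (P.e * t)) := by
    rw [← sum_add_distrib]
    exact sum_le_sum fun T hT => term_low P t hy hG ((hFm T).1 hT).1
  linarith

theorem good_choice (P : Par n k) (t : ℕ) {y : Finset (Fin n) → ℝ} {C : Finset (Finset (Fin n))}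
    (hy : ∀ A ∈ KS n k, 0 ≤ y A)
    (hG : ∀ i (U : Finset (Fin n)), k + i * P.j ≤ U.card → S n k y U ≤ P.L i) :
    P.Phi (t + 1) (up0 n k P.e y) C ≤ P.Phi t y C ∨
      ∃ B ∈ KS n k, 0 < y B ∧ P.Phi (t + 1) (up n k P.e y B) (insert B C) ≤ P.Phi t y C := by
  by_contra hcon
  rw [not_or] at hcon
  obtain ⟨h0, h1⟩ := hcon
  push Not at h0 h1
  have hD := P.D_pos
  have he := P.he
  have hpr : ∀ B ∈ KS n k, 0 ≤ pr n k P.e y B := by
    intro B hB
    unfold pr
    have := hy B hB
    positivity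
  have hp0 := pr0_nonneg P hG
  have hav := average P t (C := C) hy hG
  have hmass : ∑ B ∈ KS n k, pr n k P.e y B + pr0 n k P.e y = 1 := by
    unfold pr0
    ring
  have hle : ∀ B ∈ KS n k, pr n k P.e y B * P.Phi t y C ≤
      pr n k P.e y B * P.Phi (t + 1) (up n k P.e y B) (insert B C) := by
    intro B hB
    rcases (hy B hB).eq_or_lt with h2 | h2
    · have h3 : pr n k P.e y B = 0 := by
        unfold pr
        rw [← h2, mul_zero, zero_div]
      rw [h3, zero_mul, zero_mul]
    · exact mul_le_mul_of_nonneg_left (h1 B hB h2).le (hpr B hB)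
  have htot : ∑ B ∈ KS n k, pr n k P.e y B * P.Phi t y C + pr0 n k P.e y * P.Phi t y C =
      P.Phi t y C := by
    rw [← sum_mul, ← add_mul, hmass, one_mul]
  rcases hp0.eq_or_lt with h2 | h2
  · rw [← h2, add_zero] at hmass
    have h3 : ∑ B ∈ KS n k, pr n k P.e y B ≠ 0 := by
      rw [hmass]
      exact one_ne_zero
    obtain ⟨B, hB, hB2⟩ := exists_ne_zero_of_sum_ne_zero h3
    have hyB : 0 < y B := by
      refine lt_of_le_of_ne (hy B hB) fun h4 => hB2 ?_
      unfold pr
      rw [← h4, mul_zero, zero_div]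
    have h4 : ∑ B ∈ KS n k, pr n k P.e y B * P.Phi t y C <
        ∑ B ∈ KS n k, pr n k P.e y B * P.Phi (t + 1) (up n k P.e y B) (insert B C) := by
      refine sum_lt_sum hle ⟨B, hB, ?_⟩
      have h5 : 0 < pr n k P.e y B := lt_of_le_of_ne (hpr B hB) (Ne.symm hB2)
      exact mul_lt_mul_of_pos_left (h1 B hB hyB) h5
    rw [← h2, zero_mul, add_zero] at hav htot
    linarith
  · have h4 := sum_le_sum hle
    have h5 := mul_lt_mul_of_pos_left h0 h2
    linarith

end Pool.Agent.H70.KG
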