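import Pool.Agent.H70.KG.UM
import Pool.Agent.H70.KG.LM
import Pool.Agent.H70.KG.GC

/-!
# [H70 KG TU] one term of the potential

term_up: U controlled, i = lev U, so |U| = k + i j. Apply upper_moment with lam = a / L i, L = L i,
L' = r L i, nu = r (near_le, far_le, gen_bound hypothesis hG; 4 lam e L = 4 a e <= 1 by hae).
The exponent there is (a/L)^2 e (16 e L^2 + 2 r L^2 + r L^2) = e a^2 (16 e + 3 r) = c e.
Multiply by exp (lam (S y U - C) - c (e (t+1))), and c e - c (e (t+1)) = - c (e t).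

term_low: T in KS. Apply lower_moment with mu = a / (2 DD), L0 = L 0 <= 2 DD, L1 = r L 0, nu = r:
mu L1 <= a r <= 1. mu L0 <= a, so the exponent is at most
e (4 a e r + a^2 (16 e + 2 r)) <= e (a^2 r + a^2 (16 e + 2 r)) = c e, using 4 e <= 1 <= a.
(in lower_moment: mu^2 L0^2 <= a^2, mu^2 L1 L0 <= a^2 r.)
-/

namespace Pool.Agent.H70.KG

open Finset

variable {n k : ℕ}

theorem term_up (P : Par n k) (t : ℕ) {y : Finset (Fin n) → ℝ} (hy : ∀ A ∈ KS n k, 0 ≤ y A)
    (hG : ∀ i (U : Finset (Fin n)), k + i * P.j ≤ U.card → S n k y U ≤ P.L i)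
    {U : Finset (Fin n)} (hU : U ∈ P.ctrl) :
    ∑ B ∈ KS n k, pr n k P.e y B *
        Real.exp (P.a / P.L (P.lev U) * (S n k (up n k P.e y B) U - ((n - U.card).choose k : ℝ))
          - P.c * (P.e * ((t + 1 : ℕ) : ℝ))) +
      pr0 n k P.e y *
        Real.exp (P.a / P.L (P.lev U) * (S n k (up0 n k P.e y) U - ((n - U.card).choose k : ℝ))
          - P.c * (P.e * ((t + 1 : ℕ) : ℝ))) ≤
    Real.exp (P.a / P.L (P.lev U) * (S n k y U - ((n - U.card).choose k : ℝ))
      - P.c * (P.e * t)) := by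
  have hU' := (mem_filter.mp hU).2
  obtain ⟨hk, hdvd, hcard⟩ := hU'
  have hUc : k + P.lev U * P.j ≤ U.card := by
    unfold Par.lev
    rw [Nat.div_mul_cancel hdvd]
    omega
  have hLpos := P.Lpos (P.lev U)
  have hapos := P.a_pos
  have hepos := P.he
  have hrpos := P.hr
  have hA : ∀ A ∈ KS n k, S n k y A ≤ 2 * DD n k := fun A hA =>
    (S_KS_le P hG hA).trans
      (mul_le_mul_of_nonneg_right (by linarith [P.hdel2]) P.D_pos.le)
  have hae : 4 * P.a * P.e ≤ 1 := P.hae
  have key := upper_moment (n := n) (k := k) (j := P.j) P.D_pos hy hepos.le P.e_le hA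
    (pr0_nonneg P hG) U (L := P.L (P.lev U)) (L' := P.r * P.L (P.lev U)) (nu := P.r)
    (lam := P.a / P.L (P.lev U)) (hG _ U hUc) (by positivity)
    (fun B _ hB => far_le P hG hUc hB) (near_le P hy hG hcard) (by positivity)
    (by
      have : 4 * (P.a / P.L (P.lev U)) * P.e * P.L (P.lev U) = 4 * P.a * P.e := by
        field_simp
      rw [this]
      exact hae)
  have hexp : (P.a / P.L (P.lev U)) ^ 2 * P.e *
      (16 * P.e * P.L (P.lev U) ^ 2 + 2 * (P.r * P.L (P.lev U)) * P.L (P.lev U) +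
        P.r * P.L (P.lev U) ^ 2) = P.c * P.e := by
    unfold Par.c
    field_simp
    ring
  rw [hexp] at key
  have hsplit : ∀ X : ℝ,
      Real.exp (P.a / P.L (P.lev U) * (X - ((n - U.card).choose k : ℝ))
          - P.c * (P.e * ((t + 1 : ℕ) : ℝ))) =
      Real.exp (P.a / P.L (P.lev U) * (X - S n k y U)) *
        Real.exp (P.a / P.L (P.lev U) * (S n k y U - ((n - U.card).choose k : ℝ))
          - P.c * (P.e * ((t + 1 : ℕ) : ℝ))) := by
    intro X
    rw [← Real.exp_add]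
    congr 1
    ring
  have hlast : Real.exp (P.a / P.L (P.lev U) * (S n k y U - ((n - U.card).choose k : ℝ))
      - P.c * (P.e * t)) = Real.exp (P.c * P.e) *
        Real.exp (P.a / P.L (P.lev U) * (S n k y U - ((n - U.card).choose k : ℝ))
          - P.c * (P.e * ((t + 1 : ℕ) : ℝ))) := by
    rw [← Real.exp_add]
    congr 1
    push_cast
    ring
  rw [hlast]
  refine le_trans (le_of_eq ?_)
    (mul_le_mul_of_nonneg_right key (Real.exp_pos _).le)
  rw [add_mul, sum_mul]
  congr 1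
  · refine sum_congr rfl fun B _ => ?_
    rw [hsplit]
    ring
  · rw [hsplit]
    ring

theorem term_low (P : Par n k) (t : ℕ) {y : Finset (Fin n) → ℝ} (hy : ∀ A ∈ KS n k, 0 ≤ y A)
    (hG : ∀ i (U : Finset (Fin n)), k + i * P.j ≤ U.card → S n k y U ≤ P.L i)
    {T : Finset (Fin n)} (hT : T ∈ KS n k) :
    ∑ B ∈ (KS n k).filter (fun B => P.j ≤ (B \ T).card), pr n k P.e y B *
        Real.exp (-(P.a / (2 * DD n k)) * (S n k (up n k P.e y B) T - DD n k)
          - P.c * (P.e * ((t + 1 : ℕ) : ℝ))) +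
      pr0 n k P.e y *
        Real.exp (-(P.a / (2 * DD n k)) * (S n k (up0 n k P.e y) T - DD n k)
          - P.c * (P.e * ((t + 1 : ℕ) : ℝ))) ≤
    Real.exp (-(P.a / (2 * DD n k)) * (S n k y T - DD n k) - P.c * (P.e * t)) := by
  have hTc : T.card = k := (mem_powersetCard.mp hT).2
  have hUc : k + 0 * P.j ≤ T.card := by omega
  have hcard : T.card + k + (P.m + 1) * P.j ≤ n := by
    have := P.hn
    omega
  have hDpos := P.D_pos
  have hLpos := P.Lpos 0
  have hL0 := P.L0_le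
  have hapos := P.a_pos
  have ha8 := P.a_ge
  have hepos := P.he
  have he4 := P.e_le
  have hrpos := P.hr
  have har : P.a * P.r ≤ 1 := P.har
  have hA : ∀ A ∈ KS n k, S n k y A ≤ 2 * DD n k := fun A hA =>
    (S_KS_le P hG hA).trans
      (mul_le_mul_of_nonneg_right (by linarith [P.hdel2]) P.D_pos.le)
  have hq0 : 0 ≤ P.a / (2 * DD n k) * P.L 0 := by positivity
  have hqa : P.a / (2 * DD n k) * P.L 0 ≤ P.a := by
    calc P.a / (2 * DD n k) * P.L 0 ≤ P.a / (2 * DD n k) * (2 * DD n k) :=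
          mul_le_mul_of_nonneg_left hL0 (by positivity)
      _ = P.a := by field_simp
  have key := lower_moment (n := n) (k := k) (j := P.j) P.D_pos hy hepos.le P.e_le hA
    (pr0_nonneg P hG) T (L0 := P.L 0) (L1 := P.r * P.L 0) (nu := P.r)
    (mu := P.a / (2 * DD n k)) (hG 0 T hUc) (by positivity)
    (fun B _ hB => far_le P hG hUc hB) (near_le P hy hG hcard) (by positivity)
    (by
      calc P.a / (2 * DD n k) * (P.r * P.L 0) = (P.a / (2 * DD n k) * P.L 0) * P.r := by ring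
        _ ≤ P.a * P.r := mul_le_mul_of_nonneg_right hqa hrpos.le
        _ ≤ 1 := har)
  have hexp : P.e * (4 * (P.a / (2 * DD n k)) * P.e * P.r * P.L 0 +
      (P.a / (2 * DD n k)) ^ 2 * (16 * P.e * P.L 0 ^ 2 + 2 * (P.r * P.L 0) * P.L 0)) ≤
      P.c * P.e := by
    set q := P.a / (2 * DD n k) * P.L 0 with hq
    have e1 : P.e * (4 * (P.a / (2 * DD n k)) * P.e * P.r * P.L 0 +
      (P.a / (2 * DD n k)) ^ 2 * (16 * P.e * P.L 0 ^ 2 + 2 * (P.r * P.L 0) * P.L 0)) =
      P.e * (4 * P.e * P.r * q + q ^ 2 * (16 * P.e + 2 * P.r)) := by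
      rw [hq]
      ring
    rw [e1]
    have e2 : q ^ 2 ≤ P.a ^ 2 := pow_le_pow_left₀ hq0 hqa 2
    have e3 : 4 * P.e * P.r * q ≤ 4 * P.e * P.r * P.a :=
      mul_le_mul_of_nonneg_left hqa (by positivity)
    have e4 : q ^ 2 * (16 * P.e + 2 * P.r) ≤ P.a ^ 2 * (16 * P.e + 2 * P.r) :=
      mul_le_mul_of_nonneg_right e2 (by positivity)
    have e5 : 4 * P.e * P.r * P.a ≤ P.a ^ 2 * P.r := by
      have : 4 * P.e ≤ P.a := by linarith
      calc 4 * P.e * P.r * P.a = (4 * P.e) * (P.r * P.a) := by ring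
        _ ≤ P.a * (P.r * P.a) := mul_le_mul_of_nonneg_right this (by positivity)
        _ = P.a ^ 2 * P.r := by ring
    have e6 : P.c * P.e = P.e * (P.a ^ 2 * (16 * P.e + 3 * P.r)) := by
      unfold Par.c
      ring
    rw [e6]
    refine mul_le_mul_of_nonneg_left ?_ hepos.le
    nlinarith
  have key2 := key.trans (Real.exp_le_exp.mpr hexp)
  have hsplit : ∀ X : ℝ,
      Real.exp (-(P.a / (2 * DD n k)) * (X - DD n k) - P.c * (P.e * ((t + 1 : ℕ) : ℝ))) =
      Real.exp (-(P.a / (2 * DD n k)) * (X - S n k y T)) *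
        Real.exp (-(P.a / (2 * DD n k)) * (S n k y T - DD n k)
          - P.c * (P.e * ((t + 1 : ℕ) : ℝ))) := by
    intro X
    rw [← Real.exp_add]
    congr 1
    ring
  have hlast : Real.exp (-(P.a / (2 * DD n k)) * (S n k y T - DD n k) - P.c * (P.e * t)) =
      Real.exp (P.c * P.e) *
        Real.exp (-(P.a / (2 * DD n k)) * (S n k y T - DD n k)
          - P.c * (P.e * ((t + 1 : ℕ) : ℝ))) := by
    rw [← Real.exp_add]
    congr 1
    push_cast
    ring
  rw [hlast]
  refine le_trans (le_of_eq ?_)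
    (mul_le_mul_of_nonneg_right key2 (Real.exp_pos _).le)
  rw [add_mul, sum_mul]
  congr 1
  · refine sum_congr rfl fun B _ => ?_
    rw [hsplit]
    ring
  · rw [hsplit]
    ring

end Pool.Agent.H70.KG
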